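import Pool.Agent.H26.PS.Cmp

/-!
Alexander duality for a subgroup `S` with finitely generated second syzygy of a `PD_3`-group.
-/

set_option autoImplicit false
set_option linter.unusedSectionVars false

namespace Pool.Agent.H26.PD.PS

open Pool.Agent.Helper386.PD3 Pool.Agent.H26.PD.PN Pool.Agent.H26.PD.PK
open scoped Classical Matrix

noncomputable section

variable {G : Type} [Group G] {S : Subgroup G} {n m : ℕ} {w : G →* ℤˣ}
  {e0 e1 e2 e3 d0 d1 d2 : MR G n} {V : Type} [AddCommGroup V]

theorem evf_sub' (c c' : Fin n → (G → V)) (y : Fin n → RR G) :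
    evf (c - c') y = evf c y - evf c' y := by
  unfold evf
  rw [← Finset.sum_sub_distrib]
  exact Finset.sum_congr rfl fun j _ => by rw [Pi.sub_apply, map_sub]

theorem evf_nat {V' : Type} [AddCommGroup V'] (φ : V →+ V') (c : Fin n → (G → V))
    (y : Fin n → RR G) : evf (fun j x => φ (c j x)) y = fun x => φ (evf c y x) := by
  unfold evf
  funext x
  rw [Finset.sum_apply, Finset.sum_apply, map_sum]
  exact Finset.sum_congr rfl fun j _ => congrFun (rho_nat φ _ _) x

theorem rho_almost {W : Submodule ℤ (G → V)} {F : G → V}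
    (hF : ∀ g, tr V g F - F ∈ W) (r : RR G) : rho V r F - eps r • F ∈ W := by
  induction r using rr_ind with
  | h1 g =>
    rw [rho_of, eps_of, one_smul]
    exact hF g
  | h2 x y hx hy =>
    have h1 : rho V (x + y) F - eps (x + y) • F =
        (rho V x F - eps x • F) + (rho V y F - eps y • F) := by
      rw [map_add, map_add, add_smul, LinearMap.add_apply]
      abel
    rw [h1]
    exact Submodule.add_mem _ hx hy
  | h3 x hx =>
    have h1 : rho V (-x) F - eps (-x) • F = -(rho V x F - eps x • F) := by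
      rw [map_neg, map_neg, neg_smul, LinearMap.neg_apply]
      abel
    rw [h1]
    exact Submodule.neg_mem _ hx

/-- the cochain of an almost invariant function -/
theorem evf_almost {W : Submodule ℤ (G → V)} {F : G → V}
    (hF : ∀ g, tr V g F - F ∈ W) {ε : (Fin n → RR G) →+ ℤ}
    (hε : ∀ (g : G) (v : Fin n → RR G), ε (gof g • v) = ε v) (e0 : MR G n) (y : Fin n → RR G) :
    evf (fun j => ε (e0 j) • F) y - ε (y ᵥ* e0) • F ∈ W := by
  have h1 : ε (y ᵥ* e0) = ∑ j, eps (y j) * ε (e0 j) := by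
    have h2 : y ᵥ* e0 = ∑ j, y j • e0 j := Matrix.vecMul_eq_sum _ _
    rw [h2, map_sum]
    exact Finset.sum_congr rfl fun j _ => eps_eq hε _ _
  rw [h1, Finset.sum_smul]
  unfold evf
  rw [← Finset.sum_sub_distrib]
  refine Submodule.sum_mem _ fun j _ => ?_
  have h3 : rho V (y j) (ε (e0 j) • F) - (eps (y j) * ε (e0 j)) • F =
      ε (e0 j) • (rho V (y j) F - eps (y j) • F) := by
    rw [map_zsmul, smul_sub, smul_smul, mul_comm]
  rw [h3]
  exact Submodule.smul_mem _ _ (rho_almost hF _)

theorem mem_of_d0 (hL : Low e0 e1 e2 d0 d1) {W : Submodule ℤ (G → V)} (hW : Stable W)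
    {u : Fin n → RR G} {ε : (Fin n → RR G) →+ ℤ} (hu : u ᵥ* e0 = u) (hεu : ε u = 1)
    (hεex : ∀ u, u ᵥ* e0 = u → ε u = 0 → ∃ v, v ᵥ* d0 = u)
    {β : Fin n → (G → V)} (he : mv e0 β = β) (hd : ∀ j, mv d0 β j ∈ W)
    (hfI : evf β u ∈ W) (j : Fin n) : β j ∈ W := by
  obtain ⟨y, hy⟩ := hεex (e0 j - ε (e0 j) • u) (by
    rw [Matrix.sub_vecMul, zs_vm, hu]
    congr 1
    exact congrFun hL.ee0 j) (by rw [map_sub, map_zsmul, hεu, smul_eq_mul, mul_one, sub_self])
  have h1 : β j = ε (e0 j) • evf β u + evf (mv d0 β) y := by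
    rw [← evf_vecMul, hy, evf_sub, evf_zsmul, evf_row, he]
    abel
  rw [h1]
  exact Submodule.add_mem _ (Submodule.smul_mem _ _ hfI) (evf_mem hW hd y)

variable {h : Fin m → S}

/-- **Alexander duality.** -/
theorem alexander (hF : Full w e0 e1 e2 e3 d0 d1 d2)
    (hex1 : ∀ v, v ᵥ* dgM w e1 = v → v ᵥ* dgM w d1 = 0 → ∃ u, u ᵥ* dgM w d0 = v)
    (C : Cmp w e1 e2 d1 d2 h) :
    ∃ f : G → DS (wS w S) h,
      (∀ (s : S) (x y : G), f (s * x) - f (s * y) = gof s • (f x - f y)) ∧
      (∀ g, tr (DS (wS w S) h) g f - f ∈ IV S (DS (wS w S) h)) ∧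
      (∀ {V : Type} [AddCommGroup V] (F : G → V), (∀ g, tr V g F - F ∈ IV S V) →
        ∃ (l : DS (wS w S) h →+ V) (v : V), (fun x => l (f x) - F x - v) ∈ IV S V) ∧
      (∀ {V : Type} [AddCommGroup V] (l : DS (wS w S) h →+ V) (v : V),
        (fun x => l (f x) - v) ∈ IV S V → l = 0) := by
  have hL := hF.low
  obtain ⟨ε, hε, ⟨u, hu, hεu⟩, hεd, hεex⟩ := hL.aug
  obtain ⟨β, -, hβ1, hβ2⟩ := cobound (S := (⊥ : Subgroup G)) (m := 0) (a := fun _ => 1) hL
    (fun b => b.elim0) (by
      rw [eq_top_iff]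
      intro x _
      rw [Subsingleton.elim x 1]
      exact Subgroup.one_mem _) hε hu hεu hεd hεex (t := fun b => b.elim0) (fun b => b.elim0)
    (c := C.c) (fun j g hg x => by
      rw [Subgroup.mem_bot] at hg
      rw [hg, one_mul]
      rfl) C.c_e1 C.c_d1 (fun b => b.elim0)
  have hyg : ∀ g : G, ∃ y, y ᵥ* d0 = gof g • u - u := fun g =>
    hεex (gof g • u - u) (by rw [Matrix.sub_vecMul, smul_vm, hu]) (by rw [map_sub, hε, sub_self])
  choose yg hyg using hyg
  have htr : ∀ {V : Type} [AddCommGroup V] (b : Fin n → (G → V)) (g : G),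
      tr V g (evf b u) - evf b u = evf (mv d0 b) (yg g) := by
    intro V _ b g
    rw [← evf_vecMul, hyg, evf_sub, evf_smul, rho_of]
  refine ⟨evf β u, ?_, ?_, ?_, ?_⟩
  · intro s x y
    have h1 : ∀ x y : G, evf β u y - evf β u x = evf C.c (yg (x⁻¹ * y)) x := by
      intro x y
      rw [← hβ2, ← htr, Pi.sub_apply, tr_apply, mul_inv_cancel_left]
    have h2 : evf C.c (yg (y⁻¹ * x)) ∈ EqS S (aM S (DS (wS w S) h)) :=
      evf_mem (stable_EqS _ _) C.c_eqS _
    have h3 : ((s : G) * y)⁻¹ * (s * x) = y⁻¹ * x := by group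
    rw [h1 y x, h1 (s * y) (s * x), h3, h2 s s.2, aM_apply S _ s.2]
  · intro g
    rw [htr, hβ2]
    exact evf_mem stable_IV C.c_mem _
  · intro V _ F hFa
    have hcF : ∀ j, mv d0 (fun j => ε (e0 j) • F) j ∈ IV S V := by
      intro j
      have h1 := evf_almost hFa hε e0 (d0 j)
      have h2 : ε (d0 j ᵥ* e0) = 0 := by
        have h3 : d0 j ᵥ* e0 = d0 j := congrFun hL.d0e0 j
        rw [h3]
        have h4 := hεd (Pi.single j 1)
        rwa [Matrix.single_one_vecMul] at h4
      rw [h2, zero_smul, sub_zero, evf_row] at h1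
      exact h1
    obtain ⟨ι, _, a, z0, hz0⟩ := exists_ten w hcF
    have hz0' : mv d0 (fun j => ε (e0 j) • F) = cz w S a z0 := by
      funext j x
      exact hz0 j x
    have hz : mv d0 (fun j => ε (e0 j) • F) = cz w S a (fun k => z0 k ᵥ* dgM w e1) := by
      rw [← mv_cz, ← hz0', ← mv_mul, hL.e1d0]
    obtain ⟨l, W, hl⟩ := C.core hF hex1 (a := a) (z := fun k => z0 k ᵥ* dgM w e1) (fun k => by
        rw [vm_vm, hF.colow.ee2]) (by
        rw [← mv_cz, ← hz, ← mv_mul, hL.dd, mv_zero_left])
    let B : Fin n → (G → V) := (fun j x => l (β j x)) - (fun j => ε (e0 j) • F) - cz w S a W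
    have hB : mv d0 B = 0 := by
      change mv d0 (_ - _ - _) = 0
      rw [mv_sub, mv_sub, mv_nat, hβ2, hz, mv_cz]
      funext j x
      change l (C.c j x) - _ - _ = 0
      rw [hl]
      abel
    have hB2 : ∀ x, evf B u x = evf B u 1 := by
      intro x
      have h1 := htr B x
      rw [hB] at h1
      have h2 : evf (0 : Fin n → (G → V)) (yg x) = 0 := by
        unfold evf
        exact Finset.sum_eq_zero fun j _ => by rw [Pi.zero_apply, map_zero]
      rw [h2, sub_eq_zero] at h1
      have h3 := congrFun h1 1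
      rwa [tr_apply, one_mul] at h3
    have hB3 : evf B u = (fun x => l (evf β u x)) - evf (fun j => ε (e0 j) • F) u -
        evf (cz w S a W) u := by
      change evf (_ - _ - _) u = _
      rw [evf_sub', evf_sub', evf_nat]
    refine ⟨l, evf B u 1, ?_⟩
    have h4 : (fun x => l (evf β u x) - F x - evf B u 1) =
        (evf (fun j => ε (e0 j) • F) u - ε (u ᵥ* e0) • F) + evf (cz w S a W) u := by
      funext x
      have h5 := congrFun hB3 x
      rw [← hB2 x, h5, hu, hεu, one_smul]
      simp only [Pi.sub_apply, Pi.add_apply]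
      abel
    rw [h4]
    exact Submodule.add_mem _ (evf_almost hFa hε e0 u) (evf_mem stable_IV (cz_mem _) _)
  · intro V _ l v hlv
    have hconst : ∀ g, tr V g (fun _ => v) - (fun _ => v) ∈ (⊥ : Submodule ℤ (G → V)) := by
      intro g
      rw [Submodule.mem_bot, sub_eq_zero]
      rfl
    have hc : ∀ y, evf (fun j => ε (e0 j) • (fun _ : G => v)) y = ε (y ᵥ* e0) • (fun _ : G => v) := by
      intro y
      have h1 := evf_almost hconst hε e0 y
      rwa [Submodule.mem_bot, sub_eq_zero] at h1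
    let B : Fin n → (G → V) := (fun j x => l (β j x)) - (fun j => ε (e0 j) • (fun _ : G => v))
    have hB0 : mv e0 B = B := by
      change mv e0 (_ - _) = _ - _
      rw [mv_sub, mv_nat, hβ1]
      congr 1
      funext j
      rw [← evf_row, hc]
      congr 2
      exact congrFun hL.ee0 j
    have hB1 : mv d0 B = fun j x => l (C.c j x) := by
      change mv d0 (_ - _) = _
      rw [mv_sub, mv_nat, hβ2]
      have h2 : mv d0 (fun j => ε (e0 j) • (fun _ : G => v)) = 0 := by
        funext j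
        rw [← evf_row, hc]
        have h3 : d0 j ᵥ* e0 = d0 j := congrFun hL.d0e0 j
        have h4 : ε (d0 j) = 0 := by
          have h5 := hεd (Pi.single j 1)
          rwa [Matrix.single_one_vecMul] at h5
        rw [h3, h4, zero_smul]
        rfl
      rw [h2, sub_zero]
    have hlc : ∀ j, (fun x => l (C.c j x)) ∈ IV S V := by
      intro j
      obtain ⟨T, hT, h5⟩ := C.c_mem j
      exact ⟨T, hT, fun x hx => h5 x fun h6 => hx (by simp only [h6, map_zero])⟩
    have hBu : evf B u ∈ IV S V := by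
      have h6 : evf B u = fun x => l (evf β u x) - v := by
        change evf (_ - _) u = _
        rw [evf_sub', evf_nat, hc, hu, hεu, one_smul]
        rfl
      rw [h6]
      exact hlv
    refine C.inj hF (β := B) (fun j => ?_) hB1
    exact mem_of_d0 hL stable_IV hu hεu hεex hB0 (fun j => by rw [hB1]; exact hlc j) hBu j

end

end Pool.Agent.H26.PD.PS
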