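import Pool.Agent.H26.PS.DS

/-!
Group rings and injective homomorphisms; comparison of resolutions of a retract.
-/

set_option autoImplicit false
set_option linter.unusedSectionVars false

namespace Pool.Agent.H26.PD.PS

open Pool.Agent.Helper386.PD3 Pool.Agent.H26.PD.PN Pool.Agent.H26.PD.PK
open scoped Classical Matrix

noncomputable section

variable {A B : Type} [Group A] [Group B] {V : Type} [AddCommGroup V]

/-- the additive function with given values on the group elements -/
def afg (b : B → V) : RR B →+ V where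
  toFun r := rho V r b 1
  map_zero' := by rw [map_zero]; rfl
  map_add' r r' := by rw [map_add]; rfl

theorem afg_gof (b : B → V) (s : B) : afg b (gof s) = b s := by
  change rho V (gof s) b 1 = b s
  rw [rho_of_apply, one_mul]

variable (i : A →* B)

/-- the projection -/
def pr : RR B →+ RR A := afg fun b => if h : ∃ a, i a = b then gof h.choose else 0

variable {i}

theorem pr_gof (hi : Function.Injective i) (a : A) : pr i (gof (i a)) = gof a := by
  unfold pr
  have h : ∃ a', i a' = i a := ⟨a, rfl⟩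
  rw [afg_gof, dif_pos h]
  congr 1
  exact hi h.choose_spec

theorem pr_gof_not {b : B} (h : ¬ ∃ a, i a = b) : pr i (gof b) = 0 := by
  unfold pr
  rw [afg_gof, dif_neg h]

theorem pr_pf (hi : Function.Injective i) (a : RR A) : pr i (pf i a) = a := by
  induction a using rr_ind with
  | h1 g => rw [pf_of, pr_gof hi]
  | h2 x y hx hy => rw [map_add, map_add, hx, hy]
  | h3 x hx => rw [map_neg, map_neg, hx]

theorem pr_mul_pf (hi : Function.Injective i) (r : RR B) (a : RR A) :
    pr i (r * pf i a) = pr i r * a := by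
  induction a using rr_ind with
  | h1 g =>
    induction r using rr_ind with
    | h1 b =>
      rw [pf_of, ← gof_mul]
      by_cases h : ∃ a, i a = b
      · obtain ⟨a, rfl⟩ := h
        rw [← map_mul, pr_gof hi, pr_gof hi, gof_mul]
      · rw [pr_gof_not h, zero_mul, pr_gof_not]
        rintro ⟨a, ha⟩
        exact h ⟨a * g⁻¹, by rw [map_mul, ha, map_inv, mul_inv_cancel_right]⟩
    | h2 x y hx hy => rw [add_mul, map_add, hx, hy, map_add, add_mul]
    | h3 x hx => rw [neg_mul, map_neg, hx, map_neg, neg_mul]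
  | h2 x y hx hy => rw [map_add, mul_add, map_add, hx, hy, mul_add]
  | h3 x hx => rw [map_neg, mul_neg, map_neg, hx, mul_neg]

theorem pr_pf_mul (hi : Function.Injective i) (r : RR B) (a : RR A) :
    pr i (pf i a * r) = a * pr i r := by
  induction a using rr_ind with
  | h1 g =>
    induction r using rr_ind with
    | h1 b =>
      rw [pf_of, ← gof_mul]
      by_cases h : ∃ a, i a = b
      · obtain ⟨a, rfl⟩ := h
        rw [← map_mul, pr_gof hi, pr_gof hi, gof_mul]
      · rw [pr_gof_not h, mul_zero, pr_gof_not]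
        rintro ⟨a, ha⟩
        exact h ⟨g⁻¹ * a, by rw [map_mul, ha, map_inv, inv_mul_cancel_left]⟩
    | h2 x y hx hy => rw [mul_add, map_add, hx, hy, map_add, mul_add]
    | h3 x hx => rw [mul_neg, map_neg, hx, map_neg, mul_neg]
  | h2 x y hx hy => rw [map_add, add_mul, map_add, hx, hy, add_mul]
  | h3 x hx => rw [map_neg, neg_mul, map_neg, hx, neg_mul]

/-- decomposition along left cosets -/
theorem left_dec (hi : Function.Injective i) (r : RR B) : ∃ F : Finset (B ⧸ i.range), ∀ F',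
    F ⊆ F' → ∑ q ∈ F', gof q.out * pf i (pr i (gof (q.out)⁻¹ * r)) = r := by
  induction r using rr_ind with
  | h1 g =>
    refine ⟨{(g : B ⧸ i.range)}, fun F' hF' => ?_⟩
    rw [Finset.sum_eq_single (g : B ⧸ i.range)]
    · have h1 : ((g : B ⧸ i.range).out)⁻¹ * g ∈ i.range :=
        QuotientGroup.eq.1 (QuotientGroup.out_eq' (g : B ⧸ i.range))
      obtain ⟨a, ha⟩ := h1
      rw [← gof_mul, ← ha, pr_gof hi, pf_of, ← gof_mul, ha, mul_inv_cancel_left]
    · intro q _ hq
      rw [← gof_mul, pr_gof_not, map_zero, mul_zero]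
      rintro ⟨a, ha⟩
      apply hq
      rw [← QuotientGroup.out_eq' q]
      exact QuotientGroup.eq.2 ⟨a, ha⟩
    · intro h
      exact absurd (hF' (Finset.mem_singleton_self _)) h
  | h2 a b ha hb =>
    obtain ⟨F, hF⟩ := ha
    obtain ⟨T, hT⟩ := hb
    refine ⟨F ∪ T, fun F' hF' => ?_⟩
    conv_rhs => rw [← hF F' (Finset.union_subset_left hF'), ← hT F' (Finset.union_subset_right hF')]
    rw [← Finset.sum_add_distrib]
    exact Finset.sum_congr rfl fun q _ => by rw [mul_add, map_add, map_add, mul_add]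
  | h3 a ha =>
    obtain ⟨F, hF⟩ := ha
    refine ⟨F, fun F' hF' => ?_⟩
    conv_rhs => rw [← hF F' hF']
    rw [← Finset.sum_neg_distrib]
    exact Finset.sum_congr rfl fun q _ => by rw [mul_neg, map_neg, map_neg, mul_neg]

theorem eq_zero_of_pr (hi : Function.Injective i) {r : RR B}
    (h : ∀ g : B, pr i (gof g * r) = 0) : r = 0 := by
  obtain ⟨F, hF⟩ := left_dec hi r
  rw [← hF F subset_rfl]
  exact Finset.sum_eq_zero fun q _ => by rw [h, map_zero, mul_zero]

/-! ## The kernel of the induced boundary map -/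

variable {m : ℕ} {k : Fin m → A}

/-- componentwise projection -/
def vpr (i : A →* B) (z : Fin m → RR B) : Fin m → RR A := fun b => pr i (z b)

theorem bd_vpr (hi : Function.Injective i) (z : Fin m → RR B) :
    bd k (vpr i z) = pr i (bd (fun b => i (k b)) z) := by
  rw [bd_apply, bd_apply, map_sum]
  refine Finset.sum_congr rfl fun b _ => ?_
  have h1 : (gof (i (k b)) - 1 : RR B) = pf i (gof (k b) - 1) := by
    rw [map_sub, pf_of, map_one]
  rw [h1, pr_mul_pf hi]
  rfl

theorem vpr_mem (hi : Function.Injective i) {z : Fin m → RR B}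
    (hz : z ∈ LinearMap.ker (bd fun b => i (k b))) (g : B) :
    vpr i (gof g • z) ∈ LinearMap.ker (bd k) := by
  rw [LinearMap.mem_ker, bd_vpr hi, map_smul, LinearMap.mem_ker.1 hz, smul_zero, map_zero]

theorem vmap_mem {x : Fin m → RR A} (hx : x ∈ LinearMap.ker (bd k)) :
    vmap (pf i) x ∈ LinearMap.ker (bd fun b => i (k b)) := by
  rw [LinearMap.mem_ker, bd_apply]
  have h1 : ∑ b, vmap (pf i) x b * (gof (i (k b)) - 1) = pf i (bd k x) := by
    rw [bd_apply, map_sum]
    refine Finset.sum_congr rfl fun b _ => ?_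
    rw [map_mul, map_sub, pf_of, map_one]
    rfl
  rw [h1, LinearMap.mem_ker.1 hx, map_zero]

/-- **Induction.**  A linear form on the second syzygy of the subgroup extends. -/
theorem exists_ind (hi : Function.Injective i) (DBk : DB k)
    (φ : LinearMap.ker (bd k) →ₗ[RR A] RR A) :
    ∃ γ : LinearMap.ker (bd fun b => i (k b)) →ₗ[RR B] RR B,
      ∀ x (hx : x ∈ LinearMap.ker (bd k)), γ ⟨vmap (pf i) x, vmap_mem hx⟩ = pf i (φ ⟨x, hx⟩) := by
  let π : (Fin DBk.N → RR B) →ₗ[RR B] LinearMap.ker (bd fun b => i (k b)) :=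
    { toFun := fun y => ∑ l, y l • ⟨vmap (pf i) (DBk.κ l).1, vmap_mem (DBk.κ l).2⟩
      map_add' := fun y y' => by
        rw [← Finset.sum_add_distrib]
        exact Finset.sum_congr rfl fun l _ => add_smul _ _ _
      map_smul' := fun r y => by
        rw [RingHom.id_apply, Finset.smul_sum]
        exact Finset.sum_congr rfl fun l _ => by rw [Pi.smul_apply, smul_eq_mul, mul_smul] }
  have hπ : ∀ y, (π y).1 = ∑ l, y l • vmap (pf i) (DBk.κ l).1 := by
    intro y
    change (∑ l, _ : LinearMap.ker (bd fun b => i (k b))).1 = _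
    rw [Submodule.coe_sum]
    rfl
  have hπs : Function.Surjective π := by
    intro z
    choose F hF using fun b => left_dec hi (z.1 b)
    let F0 : Finset (B ⧸ i.range) := Finset.univ.biUnion F
    refine ⟨fun l => ∑ q ∈ F0, gof q.out *
      pf i (DBk.φ l ⟨vpr i (gof (q.out)⁻¹ • z.1), vpr_mem hi z.2 _⟩), ?_⟩
    apply Subtype.ext
    rw [hπ]
    have h1 : ∀ q : B ⧸ i.range, vpr i (gof (q.out)⁻¹ • z.1) =
        ∑ l, DBk.φ l ⟨vpr i (gof (q.out)⁻¹ • z.1), vpr_mem hi z.2 _⟩ • (DBk.κ l).1 := by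
      intro q
      have h2 := congrArg Subtype.val (DBk.hκ ⟨vpr i (gof (q.out)⁻¹ • z.1), vpr_mem hi z.2 _⟩)
      rw [Submodule.coe_sum] at h2
      exact h2
    funext b
    rw [Finset.sum_apply]
    conv_rhs => rw [← hF b F0 (Finset.subset_biUnion_of_mem F (Finset.mem_univ b))]
    have h3 : ∀ q : B ⧸ i.range, pr i (gof (q.out)⁻¹ * z.1 b) =
        ∑ l, DBk.φ l ⟨vpr i (gof (q.out)⁻¹ • z.1), vpr_mem hi z.2 _⟩ * (DBk.κ l).1 b := by
      intro q
      have h4 := congrFun (h1 q) b
      rw [Finset.sum_apply] at h4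
      exact h4
    have h5 : ∀ l, ((∑ q ∈ F0, gof q.out *
        pf i (DBk.φ l ⟨vpr i (gof (q.out)⁻¹ • z.1), vpr_mem hi z.2 _⟩)) •
          vmap (pf i) (DBk.κ l).1) b = ∑ q ∈ F0, gof q.out *
        (pf i (DBk.φ l ⟨vpr i (gof (q.out)⁻¹ • z.1), vpr_mem hi z.2 _⟩) *
          pf i ((DBk.κ l).1 b)) := by
      intro l
      rw [Pi.smul_apply, smul_eq_mul, Finset.sum_mul]
      exact Finset.sum_congr rfl fun q _ => mul_assoc _ _ _
    rw [Finset.sum_congr rfl fun l _ => h5 l, Finset.sum_comm]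
    refine Finset.sum_congr rfl fun q _ => ?_
    rw [← Finset.mul_sum, h3, map_sum]
    congr 1
    exact Finset.sum_congr rfl fun l _ => (map_mul _ _ _).symm
  let γ0 : (Fin DBk.N → RR B) →ₗ[RR B] RR B :=
    { toFun := fun y => ∑ l, y l * pf i (φ (DBk.κ l))
      map_add' := fun y y' => by
        rw [← Finset.sum_add_distrib]
        exact Finset.sum_congr rfl fun l _ => add_mul _ _ _
      map_smul' := fun r y => by
        rw [RingHom.id_apply, Finset.smul_sum]
        exact Finset.sum_congr rfl fun l _ => by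
          rw [Pi.smul_apply, smul_eq_mul, smul_eq_mul, mul_assoc] }
  have hker : LinearMap.ker π ≤ LinearMap.ker γ0 := by
    intro y hy
    rw [LinearMap.mem_ker] at hy ⊢
    change ∑ l, y l * pf i (φ (DBk.κ l)) = 0
    refine eq_zero_of_pr hi fun g => ?_
    have h1 : ∑ l, pr i (gof g * y l) • DBk.κ l = 0 := by
      apply Subtype.ext
      rw [Submodule.coe_sum]
      funext b
      rw [Finset.sum_apply]
      have h2 : ∑ l, y l * pf i ((DBk.κ l).1 b) = 0 := by
        have h3 := congrArg (fun z : LinearMap.ker (bd fun b => i (k b)) => z.1 b) hy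
        have h4 : (π y).1 b = 0 := h3
        rw [hπ, Finset.sum_apply] at h4
        exact h4
      change ∑ l, pr i (gof g * y l) * (DBk.κ l).1 b = 0
      have h5 : ∀ l, pr i (gof g * y l) * (DBk.κ l).1 b =
          pr i (gof g * (y l * pf i ((DBk.κ l).1 b))) := by
        intro l
        rw [← mul_assoc, pr_mul_pf hi]
      rw [Finset.sum_congr rfl fun l _ => h5 l, ← map_sum, ← Finset.mul_sum, h2, mul_zero,
        map_zero]
    have h6 := congrArg φ h1
    rw [map_sum, map_zero] at h6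
    rw [Finset.mul_sum, map_sum, ← h6]
    refine Finset.sum_congr rfl fun l _ => ?_
    rw [← mul_assoc, pr_mul_pf hi, map_smul, smul_eq_mul]
  obtain ⟨γ, hγ⟩ : ∃ γ : LinearMap.ker (bd fun b => i (k b)) →ₗ[RR B] RR B,
      ∀ y, γ (π y) = γ0 y := by
    refine ⟨((LinearMap.ker π).liftQ γ0 hker).comp
      (π.quotKerEquivOfSurjective hπs).symm.toLinearMap, fun y => ?_⟩
    change ((LinearMap.ker π).liftQ γ0 hker) ((π.quotKerEquivOfSurjective hπs).symm (π y)) = _
    have h1 : (π.quotKerEquivOfSurjective hπs).symm (π y) = (LinearMap.ker π).mkQ y := by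
      rw [LinearEquiv.symm_apply_eq]
      rfl
    rw [h1]
    rfl
  refine ⟨γ, fun x hx => ?_⟩
  have h1 : (⟨vmap (pf i) x, vmap_mem hx⟩ : LinearMap.ker (bd fun b => i (k b))) =
      π (fun l => pf i (DBk.φ l ⟨x, hx⟩)) := by
    apply Subtype.ext
    rw [hπ]
    funext b
    rw [Finset.sum_apply]
    have h2 := congrArg (fun z : LinearMap.ker (bd k) => z.1 b) (DBk.hκ ⟨x, hx⟩)
    change x b = (∑ l, DBk.φ l ⟨x, hx⟩ • DBk.κ l : LinearMap.ker (bd k)).1 b at h2
    rw [Submodule.coe_sum, Finset.sum_apply] at h2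
    change pf i (x b) = _
    rw [h2, map_sum]
    exact Finset.sum_congr rfl fun l _ => map_mul _ _ _
  rw [h1, hγ]
  change ∑ l, pf i (DBk.φ l ⟨x, hx⟩) * pf i (φ (DBk.κ l)) = _
  conv_rhs => rw [DBk.hκ ⟨x, hx⟩, map_sum, map_sum]
  exact Finset.sum_congr rfl fun l _ => by rw [map_smul, smul_eq_mul, map_mul]

/-! ## Comparison of resolutions -/

/-- Comparison maps for a retract. -/
theorem retract_maps {R X0 X1 DX Y0 Y1 DY : Type} [Ring R] [AddCommGroup X0] [Module R X0]
    [AddCommGroup X1] [Module R X1] [AddCommGroup DX] [Module R DX] [AddCommGroup Y0] [Module R Y0]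
    [AddCommGroup Y1] [Module R Y1] [AddCommGroup DY] [Module R DY] [Module.Projective R X0]
    [Module.Projective R X1] [Module.Projective R Y0] [Module.Projective R Y1]
    (j : X1 →ₗ[R] X0) (d : X0 →ₗ[R] DX) (hd : Function.Surjective d)
    (hjd : ∀ x, d x = 0 ↔ ∃ y, j y = x) (δ : Y1 →ₗ[R] Y0) (p : Y0 →ₗ[R] DY)
    (hp : Function.Surjective p) (hδp : ∀ x, p x = 0 ↔ ∃ y, δ y = x)
    (a : DY →ₗ[R] DX) (b : DX →ₗ[R] DY) (hba : ∀ q, b (a q) = q) :
    ∃ (α0 : Y0 →ₗ[R] X0) (α1 : Y1 →ₗ[R] X1) (β0 : X0 →ₗ[R] Y0) (β1 : X1 →ₗ[R] Y1)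
      (s0 : Y0 →ₗ[R] Y1), (∀ y, j (α1 y) = α0 (δ y)) ∧ (∀ x, δ (β1 x) = β0 (j x)) ∧
      ∀ y, δ (s0 y) = β0 (α0 y) - y := by
  have hlift : ∀ {P Q1 Q0 E : Type} [AddCommGroup P] [Module R P] [AddCommGroup Q1] [Module R Q1]
      [AddCommGroup Q0] [Module R Q0] [AddCommGroup E] [Module R E] [Module.Projective R P]
      (u : Q1 →ₗ[R] Q0) (v : Q0 →ₗ[R] E) (_ : ∀ x, v x = 0 ↔ ∃ y, u y = x)
      (F : P →ₗ[R] Q0) (_ : ∀ x, v (F x) = 0), ∃ F' : P →ₗ[R] Q1, ∀ x, u (F' x) = F x := by
    intro P Q1 Q0 E _ _ _ _ _ _ _ _ _ u v huv F hF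
    let u' : Q1 →ₗ[R] LinearMap.ker v := u.codRestrict _ fun x => (huv _).2 ⟨x, rfl⟩
    obtain ⟨F', hF'⟩ := Module.projective_lifting_property u' (F.codRestrict (LinearMap.ker v) hF)
      (by
        rintro ⟨x, hx⟩
        obtain ⟨y, hy⟩ := (huv x).1 hx
        exact ⟨y, Subtype.ext hy⟩)
    exact ⟨F', fun x => congrArg Subtype.val (LinearMap.congr_fun hF' x)⟩
  obtain ⟨α0, hα0⟩ := Module.projective_lifting_property d (a.comp p) hd
  obtain ⟨β0, hβ0⟩ := Module.projective_lifting_property p (b.comp d) hp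
  have hα0' : ∀ x, d (α0 x) = a (p x) := fun x => LinearMap.congr_fun hα0 x
  have hβ0' : ∀ x, p (β0 x) = b (d x) := fun x => LinearMap.congr_fun hβ0 x
  obtain ⟨α1, hα1⟩ := hlift j d hjd (α0.comp δ) (fun x => by
    rw [LinearMap.comp_apply, hα0', (hδp _).2 ⟨x, rfl⟩, map_zero])
  obtain ⟨β1, hβ1⟩ := hlift δ p hδp (β0.comp j) (fun x => by
    rw [LinearMap.comp_apply, hβ0', (hjd _).2 ⟨x, rfl⟩, map_zero])
  obtain ⟨s0, hs0⟩ := hlift δ p hδp (β0.comp α0 - LinearMap.id) (fun x => by
    rw [LinearMap.sub_apply, map_sub, LinearMap.comp_apply, hβ0', hα0', hba]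
    exact sub_self _)
  exact ⟨α0, α1, β0, β1, s0, hα1, hβ1, hs0⟩

end

end Pool.Agent.H26.PD.PS
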