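import Pool.Agent.H26.PS.Alg1

/-!
Consequences of a retraction of `H²(B; ℤ[B])` onto a permutation module.
-/

set_option autoImplicit false
set_option linter.unusedSectionVars false

namespace Pool.Agent.H26.PD.PS

open Pool.Agent.Helper386.PD3 Pool.Agent.H26.PD.PN Pool.Agent.H26.PD.PK
open scoped Classical Matrix

noncomputable section

variable {A B : Type} [Group A] [Group B] {m m' : ℕ}

/-- `H¹(B; ℤ[B]) = 0` -/
def OEd (h : Fin m → B) : Prop :=
  ∀ γ : (Fin m → RR B) →ₗ[RR B] RR B, (∀ x, bd h x = 0 → γ x = 0) → ∃ c, ∀ x, γ x = bd h x * c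

/-- the linear map with given values on the basis -/
def lm (c : Fin m → RR B) : (Fin m → RR B) →ₗ[RR B] RR B where
  toFun x := ∑ b, x b * c b
  map_add' x x' := by
    rw [← Finset.sum_add_distrib]
    exact Finset.sum_congr rfl fun b _ => add_mul _ _ _
  map_smul' r x := by
    rw [RingHom.id_apply, smul_eq_mul, Finset.mul_sum]
    exact Finset.sum_congr rfl fun b _ => mul_assoc _ _ _

theorem lm_apply (c x : Fin m → RR B) : lm c x = ∑ b, x b * c b := rfl

theorem eq_lm (γ : (Fin m → RR B) →ₗ[RR B] RR B) : γ = lm fun b => γ (Pi.single b 1) := by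
  refine LinearMap.ext fun x => ?_
  have h4 : x = ∑ l, x l • (Pi.single l (1 : RR B) : Fin m → RR B) := by
    funext k
    rw [Finset.sum_apply, Finset.sum_eq_single k]
    · simp
    · intro i _ hi
      rw [Pi.smul_apply, Pi.single_eq_of_ne (Ne.symm hi), smul_zero]
    · intro h
      exact absurd (Finset.mem_univ k) h
  conv_lhs => rw [h4, map_sum]
  exact Finset.sum_congr rfl fun l _ => by rw [map_smul, smul_eq_mul]

variable {w : B →* ℤˣ} {h : Fin m → B}

theorem dg_sum' {ι : Type} (F : Finset ι) (r : ι → RR B) :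
    dg w (∑ k ∈ F, r k) = ∑ k ∈ F, dg w (r k) :=
  map_sum (AddMonoidHom.mk' (dg w) (dg_add w)) r F

/-- the boundary map of the dual complex -/
def jj (w : B →* ℤˣ) (h : Fin m → B) (r : RR B) : Fin m → RR B :=
  fun b => r * dg w (gof (h b) - 1)

theorem jj_smul (r : RR B) : jj w h r = r • jj w h 1 := by
  funext b
  change r * _ = r * (1 * _)
  rw [one_mul]

theorem iot_jj (r : RR B) : iot w h (jj w h r) = 0 := by
  refine KD.ext fun x => ?_
  rw [iot_toLin]
  have h1 : ∀ b, x.1 b * dg w (jj w h r b) = x.1 b * (gof (h b) - 1) * dg w r := by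
    intro b
    unfold jj
    rw [dg_mul, dg_dg, mul_assoc]
  rw [Finset.sum_congr rfl fun b _ => h1 b, ← Finset.sum_mul]
  have h2 : ∑ b, x.1 b * (gof (h b) - 1) = 0 := x.2
  rw [h2, zero_mul]
  rfl

/-- `Ext¹(H²(B; ℤ[B]), ℤ[B]) = 0` -/
theorem ext_one (μ : (Fin m → RR B) →ₗ[RR B] RR B) (hμ : ∀ y, iot w h y = 0 → μ y = 0) :
    ∃ ξ : KD w h →ₗ[RR B] RR B, ∀ y, μ y = ξ (iot w h y) := by
  have h1 := hμ _ (iot_jj (w := w) (h := h) 1)
  rw [eq_lm μ, lm_apply] at h1
  let x : LinearMap.ker (bd h) := ⟨fun b => dg w (μ (Pi.single b 1)), by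
    rw [LinearMap.mem_ker, bd_apply]
    have h2 := congrArg (dg w) h1
    rw [dg_sum', dg_zero] at h2
    rw [← h2]
    refine Finset.sum_congr rfl fun b _ => ?_
    unfold jj
    rw [dg_mul, one_mul, dg_dg]⟩
  refine ⟨{ toFun := fun φ => dg w (φ.toLin x)
            map_add' := fun φ φ' => by rw [KD.add_toLin, dg_add]
            map_smul' := fun r φ => by
              rw [KD.smul_toLin, dg_mul, dg_dg]
              rfl }, fun y => ?_⟩
  change μ y = dg w ((iot w h y).toLin x)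
  rw [iot_toLin, dg_sum']
  conv_lhs => rw [eq_lm μ, lm_apply]
  refine Finset.sum_congr rfl fun b _ => ?_
  rw [dg_mul, dg_dg]
  change _ = y b * dg w (dg w (μ (Pi.single b 1)))
  rw [dg_dg]

/-- exactness of the dual complex -/
theorem jj_of_iot (hOE : OEd h) {y : Fin m → RR B} (hy : iot w h y = 0) : ∃ r, y = jj w h r := by
  obtain ⟨c, hc⟩ := hOE (lm fun b => dg w (y b)) (fun x hx => by
    have h1 := congrArg (fun φ : KD w h => φ.toLin ⟨x, hx⟩) hy
    exact h1)
  refine ⟨dg w c, ?_⟩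
  funext b
  have h1 := hc (Pi.single b 1)
  rw [bd_single, lm_apply, Finset.sum_eq_single b] at h1
  · rw [Pi.single_eq_same, one_mul] at h1
    unfold jj
    rw [← dg_mul, ← h1, dg_dg]
  · intro b' _ hb'
    rw [Pi.single_eq_of_ne hb', zero_mul]
  · intro h
    exact absurd (Finset.mem_univ b) h

variable {k' : Fin m' → B} {J : Submodule (RR B) (RR B)}

/-- the comparison maps in the case at hand -/
theorem cmp_maps (DBh : DB h) (hJ : LinearMap.range (bd k') = J)
    (a : (RR B ⧸ J) →ₗ[RR B] DS w h) (b : DS w h →ₗ[RR B] (RR B ⧸ J)) (hba : ∀ q, b (a q) = q) :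
    ∃ (α0 : RR B →ₗ[RR B] KD w h) (α1 : (Fin m' → RR B) →ₗ[RR B] (Fin m → RR B))
      (β1 : (Fin m → RR B) →ₗ[RR B] (Fin m' → RR B)) (s0 : RR B →ₗ[RR B] (Fin m' → RR B)),
      (∀ y, iot w h (α1 y) = α0 (bd k' y)) ∧ (∀ x, iot w h x = 0 → bd k' (β1 x) = 0) ∧
      ∀ y, bd k' (β1 (α1 y) - y - s0 (bd k' y)) = 0 := by
  have := kd_projective (w := w) DBh
  obtain ⟨α0, α1, β0, β1, s0, h1, h2, h3⟩ := retract_maps (iot w h) (dm w h) (dm_surj w h)
    (fun x => dm_eq_zero w h) (bd k') J.mkQ (Submodule.mkQ_surjective _) (fun x => by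
      rw [← LinearMap.mem_ker, Submodule.ker_mkQ, ← hJ]
      exact LinearMap.mem_range) a b hba
  refine ⟨α0, α1, β1, s0, h1, fun x hx => by rw [h2, hx, map_zero], fun y => ?_⟩
  rw [map_sub, map_sub, h2, h1, h3]
  abel

/-- **The subgroup is one-ended.** -/
theorem oed_of_retract {i : A →* B} (hi : Function.Injective i) {k : Fin m' → A} (DBh : DB h)
    (hJ : LinearMap.range (bd fun b => i (k b)) = J)
    (a : (RR B ⧸ J) →ₗ[RR B] DS w h) (b : DS w h →ₗ[RR B] (RR B ⧸ J)) (hba : ∀ q, b (a q) = q) :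
    OEd k := by
  obtain ⟨α0, α1, β1, s0, h1, h2, h3⟩ := cmp_maps DBh hJ a b hba
  intro γ' hγ'
  let γ : (Fin m' → RR B) →ₗ[RR B] RR B := lm fun b => pf i (γ' (Pi.single b 1))
  have hγ : ∀ z, bd (fun b => i (k b)) z = 0 → γ z = 0 := by
    intro z hz
    refine eq_zero_of_pr hi fun g => ?_
    have h4 : pr i (gof g * γ z) = γ' (vpr i (gof g • z)) := by
      rw [eq_lm γ', lm_apply]
      rw [Finset.mul_sum, map_sum]
      refine Finset.sum_congr rfl fun b _ => ?_
      rw [← mul_assoc, pr_mul_pf hi]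
      rfl
    rw [h4]
    exact hγ' _ (LinearMap.mem_ker.1 (vpr_mem hi (LinearMap.mem_ker.2 hz) g))
  obtain ⟨ξ, hξ⟩ := ext_one (w := w) (h := h) (γ.comp β1) (fun y hy => hγ _ (h2 y hy))
  have h5 : ∀ y, γ y = (ξ.comp α0 - γ.comp s0) (bd (fun b => i (k b)) y) := by
    intro y
    have h6 := hγ _ (h3 y)
    rw [map_sub, map_sub] at h6
    have h7 : γ (β1 (α1 y)) = ξ (α0 (bd (fun b => i (k b)) y)) := by
      rw [← h1]
      exact hξ _
    rw [h7] at h6
    rw [LinearMap.sub_apply, LinearMap.comp_apply, LinearMap.comp_apply]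
    rw [sub_sub, sub_eq_zero] at h6
    rw [h6]
    abel
  have h8 : ∀ y, γ y = bd (fun b => i (k b)) y * (ξ.comp α0 - γ.comp s0) 1 := by
    intro y
    rw [h5, ← smul_eq_mul (bd (fun b => i (k b)) y), ← map_smul, smul_eq_mul, mul_one]
  refine ⟨pr i ((ξ.comp α0 - γ.comp s0) 1), fun x => ?_⟩
  have h9 : ∀ b, γ' (Pi.single b 1) = (gof (k b) - 1) * pr i ((ξ.comp α0 - γ.comp s0) 1) := by
    intro b
    have h10 := h8 (Pi.single b 1)
    rw [bd_single] at h10
    have h11 : γ (Pi.single b 1) = pf i (γ' (Pi.single b 1)) := by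
      change lm _ _ = _
      rw [lm_apply, Finset.sum_eq_single b]
      · rw [Pi.single_eq_same, one_mul]
      · intro b' _ hb'
        rw [Pi.single_eq_of_ne hb', zero_mul]
      · intro h
        exact absurd (Finset.mem_univ b) h
    have h12 : (gof (i (k b)) - 1 : RR B) = pf i (gof (k b) - 1) := by
      rw [map_sub, pf_of, map_one]
    rw [h11, h12] at h10
    have h13 := congrArg (pr i) h10
    rwa [pr_pf hi, pr_pf_mul hi] at h13
  conv_lhs => rw [eq_lm γ', lm_apply]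
  rw [bd_apply, Finset.sum_mul]
  exact Finset.sum_congr rfl fun b _ => by rw [h9, mul_assoc]

/-- **The class of the dual.** -/
theorem exists_Lam (hgen : Subgroup.closure (Set.range h) = ⊤) (hOE : OEd h) (DBh : DB h)
    (hJ : LinearMap.range (bd k') = J)
    (a : (RR B ⧸ J) →ₗ[RR B] DS w h) (b : DS w h →ₗ[RR B] (RR B ⧸ J)) (hba : ∀ q, b (a q) = q) :
    ∃ y0 : LinearMap.ker (bd k'),
      (∀ γ : LinearMap.ker (bd k') →ₗ[RR B] RR B, ew w (γ y0) = 0 →
        ∃ c : Fin m' → RR B, ∀ z : LinearMap.ker (bd k'), γ z = ∑ b, z.1 b * c b) ∧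
      ∀ c : Fin m' → RR B, ew w (∑ b, y0.1 b * c b) = 0 := by
  obtain ⟨α0, α1, β1, s0, h1, h2, h3⟩ := cmp_maps DBh hJ a b hba
  refine ⟨⟨β1 (jj w h 1), h2 _ (iot_jj 1)⟩, ?_, ?_⟩
  · intro γ hγ
    set c := γ ⟨β1 (jj w h 1), h2 _ (iot_jj 1)⟩ with hc
    obtain ⟨z, hz⟩ := bd_surj' h hgen (r := dg w c) (by rw [eps_dg, hγ])
    let μ0 : (Fin m → RR B) →ₗ[RR B] RR B := lm fun b => dg w (z b)
    have hμ0 : ∀ r, μ0 (jj w h r) = r * c := by
      intro r
      rw [jj_smul, map_smul, smul_eq_mul]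
      congr 1
      change lm _ _ = _
      rw [lm_apply, ← dg_dg w c, ← hz, bd_apply, dg_sum']
      refine Finset.sum_congr rfl fun b _ => ?_
      unfold jj
      rw [one_mul, dg_mul]
    let s1 : (Fin m' → RR B) →ₗ[RR B] LinearMap.ker (bd k') :=
      ((β1.comp α1 - LinearMap.id) - s0.comp (bd k')).codRestrict _ (fun y => h3 y)
    have hs1 : ∀ y, (s1 y).1 = β1 (α1 y) - y - s0 (bd k' y) := fun _ => rfl
    refine ⟨fun b => (μ0.comp α1 - γ.comp s1) (Pi.single b 1), fun z => ?_⟩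
    have h4 : ∑ b, z.1 b * (μ0.comp α1 - γ.comp s1) (Pi.single b 1) =
        (μ0.comp α1 - γ.comp s1) z.1 := by
      conv_rhs => rw [eq_lm (μ0.comp α1 - γ.comp s1), lm_apply]
    rw [h4, LinearMap.sub_apply, LinearMap.comp_apply, LinearMap.comp_apply]
    obtain ⟨r, hr⟩ := jj_of_iot hOE (y := α1 z.1) (by
      rw [h1, LinearMap.mem_ker.1 z.2, map_zero])
    have h5 : z = r • (⟨β1 (jj w h 1), h2 _ (iot_jj 1)⟩ : LinearMap.ker (bd k')) - s1 z.1 := by
      apply Subtype.ext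
      rw [Submodule.coe_sub, hs1, Submodule.coe_smul]
      change z.1 = r • β1 (jj w h 1) - _
      rw [← map_smul, ← jj_smul, ← hr, LinearMap.mem_ker.1 z.2, map_zero]
      abel
    rw [hr, hμ0]
    conv_lhs => rw [h5]
    rw [map_sub, map_smul, ← hc, smul_eq_mul]
  · intro c
    have h4 : ∑ b, β1 (jj w h 1) b * c b = ((lm c).comp β1) (jj w h 1) := rfl
    change ew w (∑ b, β1 (jj w h 1) b * c b) = 0
    rw [h4, eq_lm ((lm c).comp β1), lm_apply, map_sum]
    refine Finset.sum_eq_zero fun b _ => ?_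
    unfold jj
    rw [map_mul, map_mul, ew_dg, map_sub, eps_of, map_one (eps (G := B)), sub_self, mul_zero,
      zero_mul]

/-- **The first conclusion.** -/
theorem triv_of_retract {i : A →* B} (hi : Function.Injective i) {k : Fin m' → A} (DBk : DB k)
    (hgen : Subgroup.closure (Set.range h) = ⊤) (hOE : OEd h) (DBh : DB h)
    (hJ : LinearMap.range (bd fun b => i (k b)) = J)
    (a : (RR B ⧸ J) →ₗ[RR B] DS w h) (b : DS w h →ₗ[RR B] (RR B ⧸ J)) (hba : ∀ q, b (a q) = q)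
    {g : B} (hg : ¬ ∃ a, i a = g) (φ : LinearMap.ker (bd k) →ₗ[RR A] RR A) :
    ∃ c : Fin m' → RR A, ∀ x : LinearMap.ker (bd k), φ x = ∑ b, x.1 b * c b := by
  obtain ⟨y0, h1, -⟩ := exists_Lam hgen hOE DBh hJ a b hba
  obtain ⟨γ, hγ⟩ := exists_ind hi DBk φ
  let γ' : LinearMap.ker (bd fun b => i (k b)) →ₗ[RR B] RR B :=
    { toFun := fun z => γ z * gof g - ((w g : ℤˣ) : ℤ) • γ z
      map_add' := fun z z' => by
        rw [map_add, add_mul, smul_add]
        abel
      map_smul' := fun r z => by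
        rw [map_smul, RingHom.id_apply, smul_eq_mul, smul_eq_mul, mul_sub, mul_assoc,
          mul_smul_comm] }
  obtain ⟨c, hc⟩ := h1 γ' (by
    change ew w (γ y0 * gof g - ((w g : ℤˣ) : ℤ) • γ y0) = 0
    rw [map_sub, map_mul, ew_of, map_zsmul, smul_eq_mul, mul_comm, sub_self])
  refine ⟨fun b => -(((w g : ℤˣ) : ℤ) • pr i (c b)), fun x => ?_⟩
  have h2 := hc ⟨vmap (pf i) x.1, vmap_mem x.2⟩
  change γ _ * gof g - ((w g : ℤˣ) : ℤ) • γ _ = ∑ b, pf i (x.1 b) * c b at h2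
  rw [hγ] at h2
  have h3 := congrArg (pr i) h2
  rw [map_sub, pr_pf_mul hi, pr_gof_not hg, mul_zero, zero_sub, map_zsmul, pr_pf hi, map_sum] at h3
  have h4 : ∀ b, pr i (pf i (x.1 b) * c b) = x.1 b * pr i (c b) := fun b => pr_pf_mul hi _ _
  rw [Finset.sum_congr rfl fun b _ => h4 b] at h3
  have h5 : φ x = -(((w g : ℤˣ) : ℤ) • ∑ b, x.1 b * pr i (c b)) := by
    rw [← h3, smul_neg, neg_neg, smul_smul, ← Units.val_mul, ← sq, Int.units_sq, Units.val_one,
      one_smul]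
  rw [h5, Finset.smul_sum, ← Finset.sum_neg_distrib]
  exact Finset.sum_congr rfl fun b _ => by rw [mul_neg, mul_smul_comm]

/-- **The second conclusion.** -/
theorem cyclic_of_retract (hgen : Subgroup.closure (Set.range h) = ⊤) (hOE : OEd h) (DBh : DB h)
    (hJ : LinearMap.range (bd h) = J)
    (a : (RR B ⧸ J) →ₗ[RR B] DS w h) (b : DS w h →ₗ[RR B] (RR B ⧸ J)) (hba : ∀ q, b (a q) = q) :
    ∃ L : (LinearMap.ker (bd h) →ₗ[RR B] RR B) →+ ℤ, ∀ φ, L φ = 0 ↔
      ∃ c : Fin m → RR B, ∀ x : LinearMap.ker (bd h), φ x = ∑ b, x.1 b * c b := by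
  obtain ⟨y0, h1, h2⟩ := exists_Lam hgen hOE DBh hJ a b hba
  refine ⟨AddMonoidHom.mk' (fun γ => ew w (γ y0)) (fun γ γ' => by
    rw [LinearMap.add_apply, map_add]), fun φ => ⟨fun h3 => h1 φ h3, ?_⟩⟩
  rintro ⟨c, hc⟩
  change ew w (φ y0) = 0
  rw [hc]
  exact h2 c

end

end Pool.Agent.H26.PD.PS
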