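import Pool.Agent.H26.PS.DS

/-!
The universal cocycle.
-/

set_option autoImplicit false
set_option linter.unusedSectionVars false

namespace Pool.Agent.H26.PD.PS

open Pool.Agent.Helper386.PD3 Pool.Agent.H26.PD.PN Pool.Agent.H26.PD.PK
open scoped Classical Matrix

noncomputable section

variable {G : Type} [Group G] {S : Subgroup G} {n m : ℕ} {w : G →* ℤˣ}
  {e0 e1 e2 e3 d0 d1 d2 : MR G n} {V : Type} [AddCommGroup V]

/-- the restricted character -/
abbrev wS (w : G →* ℤˣ) (S : Subgroup G) : S →* ℤˣ := w.comp S.subtype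

/-- the cochain of a tensor -/
def cz {ι : Type} [Fintype ι] (w : G →* ℤˣ) (S : Subgroup G) (a : ι → (RR S →+ V))
    (z : ι → (Fin n → RR G)) : Fin n → (G → V) :=
  fun j x => ∑ k, a k (u1 w S (z k j) x)

section cz

variable {ι : Type} [Fintype ι] {a : ι → (RR S →+ V)}

theorem mv_cz (A : MR G n) (z : ι → (Fin n → RR G)) :
    mv A (cz w S a z) = cz w S a (fun k => z k ᵥ* dgM w A) := by
  have h1 := mv_nat (∑ k, (a k).comp (Pi.evalAddMonoidHom (fun _ : ι => RR S) k)) A (ut w S z)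
  have h2 : ∀ z : ι → (Fin n → RR G), cz w S a z = fun j x =>
      (∑ k, (a k).comp (Pi.evalAddMonoidHom (fun _ : ι => RR S) k)) (ut w S z j x) := by
    intro z
    funext j x
    rw [AddMonoidHom.finsetSum_apply]
    rfl
  rw [h2, h1, mv_ut, h2]

theorem cz_add (z z' : ι → (Fin n → RR G)) :
    cz w S a (fun k => z k + z' k) = cz w S a z + cz w S a z' := by
  funext j x
  change ∑ k, a k (u1 w S (z k j + z' k j) x) =
    ∑ k, a k (u1 w S (z k j) x) + ∑ k, a k (u1 w S (z' k j) x)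
  rw [← Finset.sum_add_distrib]
  exact Finset.sum_congr rfl fun k _ => by rw [u1_add, map_add]

theorem cz_neg (z : ι → (Fin n → RR G)) : cz w S a (fun k => -z k) = -cz w S a z := by
  funext j x
  change ∑ k, a k (u1 w S (-z k j) x) = -∑ k, a k (u1 w S (z k j) x)
  rw [← Finset.sum_neg_distrib]
  exact Finset.sum_congr rfl fun k _ => by rw [u1_neg, map_neg]

theorem cz_mem (z : ι → (Fin n → RR G)) (j : Fin n) : cz w S a z j ∈ IV S V := by
  have h1 : cz w S a z j = ∑ k, fun x => a k (u1 w S (z k j) x) := by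
    funext x
    rw [Finset.sum_apply]
    rfl
  rw [h1]
  exact Submodule.sum_mem _ fun k _ => u1_mem_IV _ _

/-- linear maps preserve relations -/
theorem cz_lin {z : ι → (Fin n → RR G)} (h0 : cz w S a z = 0)
    {F : (Fin n → RR G) →+ (Fin n → RR G)} (hF : ∀ (r : RR S) y, F (inc S r • y) = inc S r • F y) :
    cz w S a (fun k => F (z k)) = 0 := by
  funext j x
  let ψ : (Fin n → RR G) →+ RR S := AddMonoidHom.mk' (fun y => u1 w S (F y j) x)
    (fun y y' => by rw [map_add, Pi.add_apply, u1_add])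
  exact ten_inj (w := w) (a := a) (y := z) (fun j x => congrFun (congrFun h0 j) x) (ψ := ψ)
    (fun r y => by
      change u1 w S (F (inc S r • y) j) x = r * u1 w S (F y j) x
      rw [hF, Pi.smul_apply, smul_eq_mul, u1_inc])

end cz

/-- The comparison data. -/
structure Cmp (w : G →* ℤˣ) (e1 e2 d1 d2 : MR G n) (h : Fin m → S) where
  v : Fin m → (Fin n → RR G)
  g1 : (Fin n → RR G) →+ (Fin m → RR S)
  s1 : (Fin n → RR G) →+ (Fin n → RR G)
  kk : Fin m → (Fin m → RR S)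
  hg1 : ∀ (r : RR S) y, g1 (inc S r • y) = r • g1 y
  hg2 : ∀ y, bd h (g1 (y ᵥ* dgM w d1)) = 0
  hs1 : ∀ (r : RR S) y, s1 (inc S r • y) = inc S r • s1 y
  hh : ∀ y, y ᵥ* dgM w e2 = y → y ᵥ* dgM w d2 = 0 → f1 v (g1 y) = y - s1 y ᵥ* dgM w d1
  hkk : ∀ b, bd h (kk b) = 0
  hx : ∀ x, bd h x = 0 → x = g1 (f1 v x) + ∑ b, x b • kk b
  B : DB h
  y : Fin B.N → (Fin n → RR G)
  hy1 : ∀ l, y l ᵥ* dgM w e1 = y l
  hy2 : ∀ l, y l ᵥ* dgM w d1 = f1 v (B.κ l).1

theorem exists_cmp (hF : Full w e0 e1 e2 e3 d0 d1 d2) (h : Fin m → S)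
    (hgen : Subgroup.closure (Set.range h) = ⊤)
    (h1 : Module.Finite (RR S) (LinearMap.ker (bd h)))
    (h2 : Module.Projective (RR S) (LinearMap.ker (bd h))) :
    Nonempty (Cmp w e1 e2 d1 d2 h) := by
  obtain ⟨v, g1, s1, kk, hv, hg1, hg2, hf, hs1, hh, hkk, hx⟩ := compare2 hF.colow h hgen
  obtain ⟨B⟩ := exists_DB h h1 h2
  have hy : ∀ l, ∃ y, y ᵥ* dgM w e1 = y ∧ y ᵥ* dgM w d1 = f1 v (B.κ l).1 := by
    intro l
    obtain ⟨y, hy⟩ := hF.colow.ex1 (f1 v (B.κ l).1) (by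
      rw [f1_vecMul]
      exact Finset.sum_congr rfl fun b _ => by rw [hv]) (hf _ (B.κ l).2)
    exact ⟨y ᵥ* dgM w e1, by rw [vm_vm, hF.colow.ee2], by rw [vm_vm, hF.colow.e2d1, hy]⟩
  choose y hy1 hy2 using hy
  exact ⟨⟨v, g1, s1, kk, hg1, hg2, hs1, hh, hkk, hx, B, y, hy1, hy2⟩⟩

variable {h : Fin m → S}

/-- the coefficients of the universal cocycle -/
def Cmp.A (C : Cmp w e1 e2 d1 d2 h) (l : Fin C.B.N) : RR S →+ DS (wS w S) h where
  toFun r := dm (wS w S) h (dg (wS w S) r • KD.of _ h (C.B.φ l))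
  map_zero' := by rw [dg_zero, zero_smul, map_zero]
  map_add' r r' := by rw [dg_add, add_smul, map_add]

theorem Cmp.A_apply (C : Cmp w e1 e2 d1 d2 h) (l : Fin C.B.N) (r : RR S) :
    C.A l r = dm (wS w S) h (dg (wS w S) r • KD.of _ h (C.B.φ l)) := rfl

/-- the universal cocycle -/
def Cmp.c (C : Cmp w e1 e2 d1 d2 h) : Fin n → (G → DS (wS w S) h) := cz w S C.A C.y

variable (C : Cmp w e1 e2 d1 d2 h)

theorem Cmp.c_mem (j : Fin n) : C.c j ∈ IV S (DS (wS w S) h) := cz_mem _ _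

theorem Cmp.c_eqS (j : Fin n) : C.c j ∈ EqS S (aM S (DS (wS w S) h)) := by
  intro s hs x
  rw [aM_apply S _ hs]
  change ∑ l, C.A l (u1 w S (C.y l j) (s * x)) = gof (⟨s, hs⟩ : S) • ∑ l, C.A l (u1 w S (C.y l j) x)
  rw [Finset.smul_sum]
  refine Finset.sum_congr rfl fun l _ => ?_
  rw [u1_equiv hs, C.A_apply, C.A_apply, dg_mul, dg_dg, mul_smul, map_smul]

theorem Cmp.mv_c (A : MR G n) : mv A C.c = cz w S C.A (fun l => C.y l ᵥ* dgM w A) := mv_cz _ _

theorem Cmp.c_e1 : mv e1 C.c = C.c := by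
  rw [C.mv_c]
  simp only [C.hy1]
  rfl

/-- the relation of the coefficients -/
theorem Cmp.rel (b : Fin m) (r : RR S) : ∑ l, C.A l ((C.B.κ l).1 b * r) = 0 := by
  have h1 : ∀ l, C.A l ((C.B.κ l).1 b * r) = dg (wS w S) r •
      dm (wS w S) h (dg (wS w S) ((C.B.κ l).1 b) • KD.of _ h (C.B.φ l)) := by
    intro l
    rw [C.A_apply, dg_mul, mul_smul, map_smul]
  rw [Finset.sum_congr rfl fun l _ => h1 l, ← Finset.smul_sum, ← map_sum, C.B.coord, dm_iot,
    smul_zero]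

theorem Cmp.c_d1 : mv d1 C.c = 0 := by
  rw [C.mv_c]
  funext j x
  change ∑ l, C.A l (u1 w S ((C.y l ᵥ* dgM w d1) j) x) = 0
  have h1 : ∀ l, C.A l (u1 w S ((C.y l ᵥ* dgM w d1) j) x) =
      ∑ b, C.A l ((C.B.κ l).1 b * u1 w S (C.v b j) x) := by
    intro l
    rw [C.hy2]
    have h2 : f1 C.v (C.B.κ l).1 j = ∑ b, inc S ((C.B.κ l).1 b) * C.v b j := by
      unfold f1
      rw [Finset.sum_apply]
      rfl
    rw [h2, u1_sum, map_sum]
    exact Finset.sum_congr rfl fun b _ => by rw [u1_inc]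
  rw [Finset.sum_congr rfl fun l _ => h1 l, Finset.sum_comm]
  exact Finset.sum_eq_zero fun b _ => C.rel b _

/-- **Existence.** -/
theorem Cmp.core (hF : Full w e0 e1 e2 e3 d0 d1 d2)
    (hex1 : ∀ v, v ᵥ* dgM w e1 = v → v ᵥ* dgM w d1 = 0 → ∃ u, u ᵥ* dgM w d0 = v)
    {ι : Type} [Fintype ι] {a : ι → (RR S →+ V)} {z : ι → (Fin n → RR G)}
    (hz : ∀ k, z k ᵥ* dgM w e1 = z k) (h0 : cz w S a (fun k => z k ᵥ* dgM w d1) = 0) :
    ∃ (l : DS (wS w S) h →+ V) (W : ι → (Fin n → RR G)), ∀ j x,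
      l (C.c j x) = cz w S a z j x + cz w S a (fun k => W k ᵥ* dgM w d0) j x := by
  let X : ι → LinearMap.ker (bd h) := fun k => ⟨C.g1 (z k ᵥ* dgM w d1), C.hg2 _⟩
  let lt : KD (wS w S) h →+ V :=
    { toFun := fun φ => ∑ k, a k (φ.toLin (X k))
      map_zero' := Finset.sum_eq_zero fun k _ => by
        change a k 0 = 0
        rw [map_zero]
      map_add' := fun φ φ' => by
        rw [← Finset.sum_add_distrib]
        exact Finset.sum_congr rfl fun k _ => by rw [KD.add_toLin, map_add] }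
  have hlt : ∀ φ, lt φ = ∑ k, a k (φ.toLin (X k)) := fun _ => rfl
  obtain ⟨l, hl⟩ := exists_lift (wS w S) h lt (fun y => by
    rw [hlt]
    let ψ : (Fin n → RR G) →+ RR S := AddMonoidHom.mk'
      (fun y' => ∑ b, C.g1 y' b * dg (wS w S) (y b)) (fun y' y'' => by
        rw [← Finset.sum_add_distrib]
        exact Finset.sum_congr rfl fun b _ => by rw [map_add, Pi.add_apply, add_mul])
    exact ten_inj (w := w) (a := a) (y := fun k => z k ᵥ* dgM w d1)
      (fun j x => congrFun (congrFun h0 j) x) (ψ := ψ) (fun r y' => by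
        change ∑ b, C.g1 (inc S r • y') b * dg (wS w S) (y b) =
          r * ∑ b, C.g1 y' b * dg (wS w S) (y b)
        rw [C.hg1, Finset.mul_sum]
        exact Finset.sum_congr rfl fun b _ => mul_assoc _ _ _))
  let Y : ι → (Fin n → RR G) := fun k => ∑ l, inc S (C.B.φ l (X k)) • C.y l
  have hY1 : ∀ k, Y k ᵥ* dgM w e1 = Y k := by
    intro k
    change (∑ l, _) ᵥ* _ = _
    rw [Matrix.sum_vecMul]
    exact Finset.sum_congr rfl fun l _ => by rw [smul_vm, C.hy1]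
  have hf1 : ∀ (F : Finset (Fin C.B.N)) (x : Fin C.B.N → (Fin m → RR S)),
      f1 C.v (∑ l ∈ F, x l) = ∑ l ∈ F, f1 C.v (x l) := by
    intro F x
    exact map_sum (AddMonoidHom.mk' (f1 C.v) (f1_add C.v)) x F
  have hY2 : ∀ k, Y k ᵥ* dgM w d1 = f1 C.v (X k).1 := by
    intro k
    change (∑ l, _) ᵥ* _ = _
    rw [Matrix.sum_vecMul]
    conv_rhs => rw [C.B.hκ (X k), Submodule.coe_sum, hf1]
    refine Finset.sum_congr rfl fun l _ => ?_
    rw [smul_vm, C.hy2, Submodule.coe_smul, f1_smul]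
  have hd2 : ∀ y : Fin n → RR G, y ᵥ* dgM w d1 ᵥ* dgM w d2 = 0 := by
    intro y
    rw [vm_vm, hF.colow.dd, Matrix.vecMul_zero]
  have hde : ∀ y : Fin n → RR G, y ᵥ* dgM w d1 ᵥ* dgM w e2 = y ᵥ* dgM w d1 := by
    intro y
    rw [vm_vm, hF.colow.d1e1]
  have hW : ∀ k, ∃ W, W ᵥ* dgM w d0 = Y k - z k + C.s1 (z k ᵥ* dgM w d1) ᵥ* dgM w e1 := by
    intro k
    refine hex1 _ ?_ ?_
    · rw [Matrix.add_vecMul, Matrix.sub_vecMul, hY1, hz, vm_vm, hF.colow.ee2]
    · rw [Matrix.add_vecMul, Matrix.sub_vecMul, hY2, vm_vm, hF.colow.e2d1]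
      change f1 C.v (C.g1 (z k ᵥ* dgM w d1)) - _ + _ = 0
      rw [C.hh _ (hde _) (hd2 _)]
      abel
  choose W hW using hW
  refine ⟨l, W, fun j x => ?_⟩
  have h1 : l (C.c j x) = cz w S a Y j x := by
    change l (∑ l', C.A l' (u1 w S (C.y l' j) x)) = ∑ k, a k (u1 w S (Y k j) x)
    rw [map_sum]
    have h2 : ∀ l', l (C.A l' (u1 w S (C.y l' j) x)) =
        ∑ k, a k (C.B.φ l' (X k) * u1 w S (C.y l' j) x) := by
      intro l'
      rw [C.A_apply, hl, hlt]
      refine Finset.sum_congr rfl fun k _ => ?_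
      rw [KD.smul_toLin, dg_dg]
      rfl
    rw [Finset.sum_congr rfl fun l' _ => h2 l', Finset.sum_comm]
    refine Finset.sum_congr rfl fun k _ => ?_
    rw [← map_sum]
    congr 1
    have h3 : Y k j = ∑ l', inc S (C.B.φ l' (X k)) * C.y l' j := by
      change (∑ l', _ : Fin n → RR G) j = _
      rw [Finset.sum_apply]
      rfl
    rw [h3, u1_sum]
    exact Finset.sum_congr rfl fun l' _ => (u1_inc _ _ _).symm
  have h4 : cz w S a (fun k => C.s1 (z k ᵥ* dgM w d1) ᵥ* dgM w e1) = 0 :=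
    cz_lin h0 (F := (AddMonoidHom.mk' (fun v : Fin n → RR G => v ᵥ* dgM w e1)
      (fun v v' => Matrix.add_vecMul _ _ _)).comp C.s1) (fun r y => by
        change C.s1 (inc S r • y) ᵥ* dgM w e1 = inc S r • (C.s1 y ᵥ* dgM w e1)
        rw [C.hs1, smul_vm])
  have h5 : cz w S a Y = cz w S a z + cz w S a (fun k => W k ᵥ* dgM w d0) := by
    have h6 : Y = fun k => (z k + W k ᵥ* dgM w d0) +
        -(C.s1 (z k ᵥ* dgM w d1) ᵥ* dgM w e1) := by
      funext k
      rw [hW]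
      abel
    rw [h6, cz_add (fun k => z k + W k ᵥ* dgM w d0), cz_add, cz_neg, h4, neg_zero, add_zero]
  rw [h1, h5]
  rfl

/-- **Uniqueness.** -/
theorem Cmp.inj (hF : Full w e0 e1 e2 e3 d0 d1 d2) {l : DS (wS w S) h →+ V}
    {β : Fin n → (G → V)} (hβ : ∀ j, β j ∈ IV S V)
    (hl : mv d0 β = fun j x => l (C.c j x)) : l = 0 := by
  obtain ⟨ι, _, a, z, haz⟩ := exists_ten w hβ
  have hβ' : β = cz w S a z := by
    funext j x
    exact haz j x
  rw [hβ', mv_cz] at hl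
  have key : ∀ φ : KD (wS w S) h, l (dm (wS w S) h φ) = 0 := by
    intro φ
    let A' : Fin C.B.N → (RR S →+ V) := fun k => l.comp (C.A k)
    have h1 : l (dm (wS w S) h φ) = ∑ k, A' k (φ.toLin (C.B.κ k)) := by
      conv_lhs => rw [C.B.expand φ]
      rw [map_sum, map_sum]
      rfl
    let ψ : (Fin n → RR G) →+ RR S := AddMonoidHom.mk'
      (fun y => φ.toLin ⟨C.g1 (y ᵥ* dgM w d1), C.hg2 y⟩) (fun y y' => by
        rw [← map_add]
        congr 1
        apply Subtype.ext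
        change C.g1 ((y + y') ᵥ* dgM w d1) = C.g1 (y ᵥ* dgM w d1) + C.g1 (y' ᵥ* dgM w d1)
        rw [Matrix.add_vecMul, map_add])
    have hψ : ∀ y, ψ y = φ.toLin ⟨C.g1 (y ᵥ* dgM w d1), C.hg2 y⟩ := fun _ => rfl
    have hψs : ∀ (r : RR S) y, ψ (inc S r • y) = r • ψ y := by
      intro r y
      rw [hψ, hψ, ← map_smul]
      congr 1
      apply Subtype.ext
      change C.g1 ((inc S r • y) ᵥ* dgM w d1) = r • C.g1 (y ᵥ* dgM w d1)
      rw [smul_vm, C.hg1]
    have key := ten_inj (w := w) (a := Sum.elim A' fun k => -a k)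
      (y := Sum.elim C.y fun k => z k ᵥ* dgM w d0) (fun j x => by
        rw [Fintype.sum_sum_type]
        simp only [Sum.elim_inl, Sum.elim_inr, AddMonoidHom.neg_apply, Finset.sum_neg_distrib]
        have h2 : ∑ k, a k (u1 w S ((z k ᵥ* dgM w d0) j) x) = l (C.c j x) :=
          congrFun (congrFun hl j) x
        have h3 : l (C.c j x) = ∑ k, A' k (u1 w S (C.y k j) x) := by
          change l (∑ k, C.A k (u1 w S (C.y k j) x)) = _
          rw [map_sum]
          rfl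
        rw [h2, h3, add_neg_cancel]) hψs
    rw [Fintype.sum_sum_type] at key
    simp only [Sum.elim_inl, Sum.elim_inr, AddMonoidHom.neg_apply, Finset.sum_neg_distrib] at key
    have h0 : ∀ k, ψ (z k ᵥ* dgM w d0) = 0 := by
      intro k
      rw [hψ, ← map_zero φ.toLin]
      congr 1
      apply Subtype.ext
      change C.g1 (z k ᵥ* dgM w d0 ᵥ* dgM w d1) = 0
      rw [vm_vm, ← dgM_mul, hF.low.dd, dgM_zero, Matrix.vecMul_zero, map_zero]
    have h4 : ∑ k, a k (ψ (z k ᵥ* dgM w d0)) = 0 :=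
      Finset.sum_eq_zero fun k _ => by rw [h0, map_zero]
    rw [h4, neg_zero, add_zero] at key
    have h5 : ∀ k, A' k (φ.toLin (C.B.κ k)) = A' k (ψ (C.y k)) +
        ∑ b, l (C.A k ((C.B.κ k).1 b * φ.toLin ⟨C.kk b, C.hkk b⟩)) := by
      intro k
      have h6 : C.B.κ k = ⟨C.g1 (C.y k ᵥ* dgM w d1), C.hg2 (C.y k)⟩ +
          ∑ b, (C.B.κ k).1 b • ⟨C.kk b, C.hkk b⟩ := by
        apply Subtype.ext
        rw [Submodule.coe_add, Submodule.coe_sum]
        change (C.B.κ k).1 = C.g1 (C.y k ᵥ* dgM w d1) + ∑ b, (C.B.κ k).1 b • C.kk b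
        rw [C.hy2]
        exact C.hx _ (C.B.κ k).2
      have h7 : φ.toLin (C.B.κ k) = ψ (C.y k) +
          ∑ b, (C.B.κ k).1 b * φ.toLin ⟨C.kk b, C.hkk b⟩ := by
        conv_lhs => rw [h6]
        rw [map_add, map_sum]
        congr 1
        exact Finset.sum_congr rfl fun b _ => by rw [map_smul, smul_eq_mul]
      rw [h7]
      exact (map_add (A' k) _ _).trans (congrArg (A' k (ψ (C.y k)) + ·) (map_sum (A' k) _ _))
    rw [h1, Finset.sum_congr rfl fun k _ => h5 k, Finset.sum_add_distrib, key, zero_add,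
      Finset.sum_comm]
    refine Finset.sum_eq_zero fun b _ => ?_
    rw [← map_sum, C.rel, map_zero]
  refine AddMonoidHom.ext fun q => ?_
  obtain ⟨φ, rfl⟩ := dm_surj (wS w S) h q
  exact key φ

end

end Pool.Agent.H26.PD.PS
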