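import Pool.Agent.H26.PS.Alex

/-!
Complementary components of a subgroup.
-/

set_option autoImplicit false
set_option linter.unusedSectionVars false

namespace Pool.Agent.H26.PD.PS

open Pool.Agent.Helper386.PD3 Pool.Agent.H26.PD.PN Pool.Agent.H26.PD.PK
open scoped Classical Matrix

noncomputable section

variable {G : Type} [Group G] {S : Subgroup G} {V : Type} [AddCommGroup V]

/-! ## Sets which are finite modulo a subgroup -/

/-- finite modulo `S` -/
def SF (S : Subgroup G) (X : Set G) : Prop := (qS S '' X).Finite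

theorem SF.mono {X Y : Set G} (h : SF S Y) (hXY : X ⊆ Y) : SF S X :=
  Set.Finite.subset h (Set.image_mono hXY)

theorem SF.union {X Y : Set G} (h : SF S X) (h' : SF S Y) : SF S (X ∪ Y) := by
  unfold SF
  rw [Set.image_union]
  exact Set.Finite.union h h'

theorem mem_IV_iff {f : G → V} : f ∈ IV S V ↔ SF S {x | f x ≠ 0} := by
  constructor
  · rintro ⟨F, hF, h⟩
    refine hF.subset ?_
    rintro _ ⟨x, hx, rfl⟩
    exact h x hx
  · intro h
    exact ⟨_, h, fun x hx => ⟨x, hx, rfl⟩⟩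

theorem SF.of_le {T : Subgroup G} (hTS : T ≤ S) {X : Set G} (h : SF T X) : SF S X := by
  refine (Set.Finite.image (Subgroup.quotientMapOfLE hTS) h).subset ?_
  rintro _ ⟨x, hx, rfl⟩
  exact ⟨_, ⟨x, hx, rfl⟩, rfl⟩

theorem SF.mul_right {X : Set G} (h : SF S X) (g : G) : SF S {x | x * g ∈ X} := by
  refine (Set.Finite.image (fun q : G ⧸ S => g • q) h).subset ?_
  rintro _ ⟨x, hx, rfl⟩
  refine ⟨_, ⟨x * g, hx, rfl⟩, ?_⟩
  change g • qS S (x * g) = qS S x
  rw [qS_mul, smul_inv_smul]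

theorem not_SF_univ [Infinite (G ⧸ S)] : ¬ SF S (Set.univ : Set G) := by
  intro h
  have h1 : (Set.univ : Set (G ⧸ S)).Finite := by
    refine Set.Finite.subset h ?_
    intro q _
    exact ⟨(q.out)⁻¹, trivial, qS_out q⟩
  exact Set.infinite_univ h1

/-- a saturated choice -/
theorem exists_notSF {X N : Set G} (hX : ¬ SF S X) (hN : SF S N) :
    ∃ x ∈ X, ∀ s ∈ S, s * x ∉ N := by
  by_contra hcon
  push Not at hcon
  apply hX
  refine Set.Finite.subset hN ?_
  rintro _ ⟨x, hx, rfl⟩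
  obtain ⟨s, hs, h⟩ := hcon x hx
  exact ⟨_, h, qS_left hs x⟩

/-- almost invariant functions -/
def AI' (S : Subgroup G) (F : G → V) : Prop := ∀ g, tr V g F - F ∈ IV S V

theorem ai_of_gens {T0 : Finset G} (hT0 : Subgroup.closure (T0 : Set G) = ⊤) {F : G → V}
    (h : ∀ t ∈ T0, tr V t F - F ∈ IV S V) : AI' S F := by
  intro g
  have hg : g ∈ Subgroup.closure (T0 : Set G) := by rw [hT0]; trivial
  induction hg using Subgroup.closure_induction with
  | mem t ht => exact h t ht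
  | one =>
    rw [map_one, Module.End.one_apply, sub_self]
    exact Submodule.zero_mem _
  | mul x y _ _ hx hy =>
    have h1 : tr V (x * y) F - F = tr V x (tr V y F - F) + (tr V x F - F) := by
      rw [map_mul, Module.End.mul_apply, map_sub]
      abel
    rw [h1]
    exact Submodule.add_mem _ (stable_IV x _ hy) hx
  | inv x _ hx =>
    have h1 : tr V x⁻¹ F - F = -(tr V x⁻¹ (tr V x F - F)) := by
      rw [map_sub, ← Module.End.mul_apply, ← map_mul, inv_mul_cancel, map_one,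
        Module.End.one_apply]
      abel
    rw [h1]
    exact Submodule.neg_mem _ (stable_IV _ _ hx)

/-! ## Duality data -/

/-- Alexander duality as a structure -/
structure AD (S : Subgroup G) (D : Type) [AddCommGroup D] [Module (RR S) D] (f : G → D) :
    Prop where
  aff : ∀ (s : S) (x y : G), f (s * x) - f (s * y) = gof s • (f x - f y)
  inv : AI' S f
  ex : ∀ {V : Type} [AddCommGroup V] (F : G → V), AI' S F →
    ∃ (l : D →+ V) (v : V), SF S {x | l (f x) ≠ F x + v}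
  uniq : ∀ {V : Type} [AddCommGroup V] (l : D →+ V) (v : V), SF S {x | l (f x) ≠ v} → l = 0

/-! ## Components -/

/-- the components -/
def cl (S : Subgroup G) (T0 : Finset G) (Φ : Set (G ⧸ S)) (x : G) : Set G :=
  {y | Relation.EqvGen (r0 S T0 Φ) x y}

variable {T0 : Finset G} {Φ : Set (G ⧸ S)}

theorem mem_cl_self (x : G) : x ∈ cl S T0 Φ x := Relation.EqvGen.refl _

theorem cl_symm {x y : G} (h : y ∈ cl S T0 Φ x) : x ∈ cl S T0 Φ y := Relation.EqvGen.symm _ _ h

theorem cl_trans {x y z : G} (h : y ∈ cl S T0 Φ x) (h' : z ∈ cl S T0 Φ y) : z ∈ cl S T0 Φ x :=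
  Relation.EqvGen.trans _ _ _ h h'

theorem cl_left {s : G} (hs : s ∈ S) {x y : G} (h : y ∈ cl S T0 Φ x) :
    s * y ∈ cl S T0 Φ (s * x) := gen_left hs h

theorem cl_edge {t : G} (ht : t ∈ T0) {x : G} (hx : qS S x ∉ Φ) : x * t ∈ cl S T0 Φ x :=
  Relation.EqvGen.rel _ _ ⟨t, ht, hx, rfl⟩

theorem cl_meets (hT0 : Subgroup.closure (T0 : Set G) = ⊤) (hΦ : Φ.Finite) :
    ∃ Φ' : Set (G ⧸ S), Φ'.Finite ∧ ∀ x, ∃ x' ∈ cl S T0 Φ x, qS S x' ∈ Φ' := by
  refine ⟨{qS S 1} ∪ Φ ∪ ⋃ t ∈ (T0 : Set G), (fun q => t⁻¹ • q) '' Φ,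
    ((Set.finite_singleton _).union hΦ).union (T0.finite_toSet.biUnion fun t _ => hΦ.image _),
    fun x => ?_⟩
  by_contra hcon
  push Not at hcon
  have h1 : ∀ g : G, ∀ y, y ∈ cl S T0 Φ x → y * g ∈ cl S T0 Φ x := by
    intro g
    have hg : g ∈ Subgroup.closure (T0 : Set G) := by rw [hT0]; trivial
    induction hg using Subgroup.closure_induction'' with
    | mem t ht =>
      intro y hy
      exact cl_trans hy (cl_edge ht fun h => hcon y hy (Or.inl (Or.inr h)))
    | inv_mem t ht =>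
      intro y hy
      refine cl_trans hy (cl_symm ?_)
      have h2 : qS S (y * t⁻¹) ∉ Φ := by
        intro h
        refine hcon y hy (Or.inr (Set.mem_biUnion ht ⟨_, h, ?_⟩))
        change t⁻¹ • qS S (y * t⁻¹) = qS S y
        rw [← qS_mul, inv_mul_cancel_right]
      have h3 := cl_edge (S := S) ht h2
      rwa [inv_mul_cancel_right] at h3
    | one =>
      intro y hy
      rwa [mul_one]
    | mul a b _ _ ha hb =>
      intro y hy
      rw [← mul_assoc]
      exact hb _ (ha y hy)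
  have h2 := h1 x⁻¹ x (mem_cl_self x)
  rw [mul_inv_cancel] at h2
  exact hcon 1 h2 (Or.inl (Or.inl rfl))

/-- the union of the components which are finite modulo `S` is finite modulo `S` -/
theorem shallow (hT0 : Subgroup.closure (T0 : Set G) = ⊤) (hΦ : Φ.Finite) :
    SF S {x | SF S (cl S T0 Φ x)} := by
  obtain ⟨Φ', hΦ', hm⟩ := cl_meets hT0 hΦ
  refine Set.Finite.subset (s := ⋃ c ∈ {c | c ∈ Φ' ∧ SF S (cl S T0 Φ (c.out)⁻¹)},
    qS S '' cl S T0 Φ (c.out)⁻¹) ((hΦ'.subset fun c hc => hc.1).biUnion fun c hc => hc.2) ?_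
  rintro _ ⟨x, hx, rfl⟩
  obtain ⟨x', hxx', hx'⟩ := hm x
  obtain ⟨s, hs, hsx⟩ := qS_eq.1 (qS_out (qS S x'))
  have hcl : ∀ y, y ∈ cl S T0 Φ ((qS S x').out)⁻¹ ↔ s * y ∈ cl S T0 Φ x := by
    intro y
    constructor
    · intro hy
      have h1 := cl_left hs hy
      rw [← hsx] at h1
      exact cl_trans hxx' h1
    · intro hy
      have h1 : s * y ∈ cl S T0 Φ x' := cl_trans (cl_symm hxx') hy
      rw [hsx] at h1
      have h2 := cl_left (S.inv_mem hs) h1
      rwa [inv_mul_cancel_left, inv_mul_cancel_left] at h2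
  refine Set.mem_biUnion (x := qS S x') ⟨hx', ?_⟩ ⟨s⁻¹ * x, ?_, qS_left (S.inv_mem hs) x⟩
  · refine Set.Finite.subset (show SF S (cl S T0 Φ x) from hx) ?_
    rintro _ ⟨y, hy, rfl⟩
    exact ⟨s * y, (hcl y).1 hy, qS_left hs y⟩
  · refine (hcl _).2 ?_
    rw [mul_inv_cancel_left]
    exact mem_cl_self x

/-- the stabilizer of a component -/
def st (S : Subgroup G) (T0 : Finset G) (Φ : Set (G ⧸ S)) (x : G) : Subgroup G where
  carrier := {s | s ∈ S ∧ s * x ∈ cl S T0 Φ x}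
  mul_mem' := by
    rintro a b ⟨ha, ha'⟩ ⟨hb, hb'⟩
    refine ⟨S.mul_mem ha hb, ?_⟩
    rw [mul_assoc]
    exact cl_trans ha' (cl_left ha hb')
  one_mem' := ⟨S.one_mem, by rw [one_mul]; exact mem_cl_self x⟩
  inv_mem' := by
    rintro a ⟨ha, ha'⟩
    refine ⟨S.inv_mem ha, ?_⟩
    have h1 := cl_left (S.inv_mem ha) ha'
    rw [inv_mul_cancel_left] at h1
    exact cl_symm h1

theorem st_le (x : G) : st S T0 Φ x ≤ S := fun _ h => h.1

theorem mul_mem_cl {x y s : G} (hs : s ∈ S) (hy : y ∈ cl S T0 Φ x) :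
    s * y ∈ cl S T0 Φ x ↔ s ∈ st S T0 Φ x := by
  constructor
  · intro h
    exact ⟨hs, cl_trans h (cl_symm (cl_left hs hy))⟩
  · intro h
    exact cl_trans h.2 (cl_left hs hy)

theorem st_mul_mem {x y s : G} (hs : s ∈ st S T0 Φ x) : s * y ∈ cl S T0 Φ x ↔ y ∈ cl S T0 Φ x := by
  constructor
  · intro h
    have h1 : s⁻¹ * (s * y) ∈ cl S T0 Φ x :=
      (mul_mem_cl (S.inv_mem hs.1) h).2 (Subgroup.inv_mem _ hs)
    rwa [inv_mul_cancel_left] at h1
  · intro h
    exact (mul_mem_cl hs.1 h).2 hs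

/-- a part of the component which is finite modulo `S` is finite modulo the stabilizer -/
theorem SF.st {x : G} {Y : Set G} (h : SF S Y) (hY : Y ⊆ cl S T0 Φ x) : SF (st S T0 Φ x) Y := by
  refine Set.Finite.subset (s := ⋃ c ∈ qS S '' Y, qS (PS.st S T0 Φ x) '' {y ∈ Y | qS S y = c})
    (Set.Finite.biUnion h fun c _ => Set.Subsingleton.finite ?_) ?_
  · rintro _ ⟨y, ⟨hy, hyc⟩, rfl⟩ _ ⟨z, ⟨hz, hzc⟩, rfl⟩
    obtain ⟨s, hs, rfl⟩ := qS_eq.1 (hyc.trans hzc.symm)
    exact qS_eq.2 ⟨s, (mul_mem_cl hs (hY hy)).1 (hY hz), rfl⟩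
  · rintro _ ⟨y, hy, rfl⟩
    exact Set.mem_biUnion ⟨y, hy, rfl⟩ ⟨y, ⟨hy, rfl⟩, rfl⟩

/-- the frontier of a component is finite modulo the stabilizer -/
theorem frontier (hΦ : Φ.Finite) (x t : G) (ht : t ∈ T0) :
    SF (st S T0 Φ x) {y | ¬ (y * t ∈ cl S T0 Φ x ↔ y ∈ cl S T0 Φ x)} := by
  have h1 : ∀ Ψ : Set (G ⧸ S), Ψ.Finite →
      SF (st S T0 Φ x) {y | y ∈ cl S T0 Φ x ∧ qS S y ∈ Ψ} := by
    intro Ψ hΨ
    refine SF.st (hΨ.subset ?_) fun y hy => hy.1
    rintro _ ⟨y, hy, rfl⟩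
    exact hy.2
  refine ((h1 Φ hΦ).union ((h1 _ (hΦ.image fun q => t⁻¹ • q)).mul_right t)).mono ?_
  intro y hy
  have hyΦ : qS S y ∈ Φ := by
    by_contra hyΦ
    apply hy
    have h2 := cl_edge (S := S) ht hyΦ
    exact ⟨fun h => cl_trans h (cl_symm h2), fun h => cl_trans h h2⟩
  by_cases h2 : y ∈ cl S T0 Φ x
  · exact Or.inl ⟨h2, hyΦ⟩
  · right
    have h3 : y * t ∈ cl S T0 Φ x := by
      by_contra h3
      exact hy ⟨fun h => absurd h h3, fun h => absurd h h2⟩
    exact ⟨h3, ⟨_, hyΦ, (qS_mul y t).symm⟩⟩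

/-- the indicator function -/
def ind (X : Set G) (x : G) : ℤ := if x ∈ X then 1 else 0

/-- cutting off an almost invariant function -/
theorem ai_cut (hT0 : Subgroup.closure (T0 : Set G) = ⊤) (hΦ : Φ.Finite) (x : G) {F : G → V}
    (hF : AI' (st S T0 Φ x) F) :
    AI' (st S T0 Φ x) (fun y => if y ∈ cl S T0 Φ x then F y else 0) := by
  refine ai_of_gens hT0 fun t ht => ?_
  rw [mem_IV_iff]
  refine ((frontier hΦ x t ht).union (mem_IV_iff.1 (hF t))).mono ?_
  intro y hy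
  by_contra hcon
  rw [Set.mem_union, not_or] at hcon
  obtain ⟨h1, h2⟩ := hcon
  rw [Set.mem_ofPred_eq, not_not] at h1 h2
  apply hy
  change (if y * t ∈ cl S T0 Φ x then F (y * t) else 0) - (if y ∈ cl S T0 Φ x then F y else 0) = 0
  have h3 : F (y * t) = F y := sub_eq_zero.1 h2
  by_cases h4 : y ∈ cl S T0 Φ x
  · rw [if_pos h4, if_pos (h1.2 h4), h3, sub_self]
  · rw [if_neg h4, if_neg fun h => h4 (h1.1 h), sub_self]

theorem AI'.of_le {T : Subgroup G} (hTS : T ≤ S) {F : G → V} (h : AI' T F) : AI' S F :=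
  fun g => mem_IV_iff.2 ((mem_IV_iff.1 (h g)).of_le hTS)

/-- a set on which almost invariant functions are almost constant -/
structure At (T : Subgroup G) (X : Set G) : Prop where
  atom : ∀ {V : Type} [AddCommGroup V] (F : G → V), AI' T F → ∃ v, SF T {x | x ∈ X ∧ F x ≠ v}
  left : ∀ t ∈ T, ∀ x, t * x ∈ X ↔ x ∈ X
  inf : ¬ SF T X
  coinf : ¬ SF T Xᶜ
  ai : AI' T (ind X)

variable {D : Type} [AddCommGroup D] [Module (RR S) D] {f : G → D}

/-- the set of cosets outside which the potential is constant along the edges -/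
def Adm (T0 : Finset G) (f : G → D) (Φ : Set (G ⧸ S)) : Prop :=
  Φ.Finite ∧ ∀ t ∈ T0, ∀ x, qS S x ∉ Φ → f (x * t) = f x

theorem exists_adm (hf : AI' S f) (T0 : Finset G) : ∃ Φ : Set (G ⧸ S), Adm T0 f Φ := by
  refine ⟨⋃ t ∈ (T0 : Set G), qS S '' {x | (tr D t f - f) x ≠ 0},
    T0.finite_toSet.biUnion fun t _ => mem_IV_iff.1 (hf t), fun t ht x hx => ?_⟩
  by_contra h
  apply hx
  refine Set.mem_biUnion (x := t) ht ⟨x, ?_, rfl⟩
  rw [Set.mem_ofPred_eq, Pi.sub_apply, tr_apply, sub_ne_zero]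
  exact h

theorem Adm.const (hΦ : Adm T0 f Φ) {x y : G} (h : y ∈ cl S T0 Φ x) : f y = f x :=
  (gen_const (fun t ht x hx => hΦ.2 t ht x hx) h).symm

/-- components which are infinite modulo `S`, with infinite complement, are atoms for their
stabilizers -/
theorem at_cl (hA : AD S D f) (hT0 : Subgroup.closure (T0 : Set G) = ⊤) (hΦ : Adm T0 f Φ) {x : G}
    (hx : ¬ SF S (cl S T0 Φ x)) (hx' : ¬ SF S (cl S T0 Φ x)ᶜ) :
    At (st S T0 Φ x) (cl S T0 Φ x) where
  atom := by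
    intro V _ F hF
    obtain ⟨l, v, hlv⟩ := hA.ex _ ((ai_cut hT0 hΦ.1 x hF).of_le (st_le x))
    refine ⟨l (f x) - v, SF.st (hlv.mono ?_) fun y hy => hy.1⟩
    rintro y ⟨hy, hy'⟩ h
    apply hy'
    rw [if_pos hy, hΦ.const hy] at h
    rw [h, add_sub_cancel_right]
  left := fun t ht y => st_mul_mem ht
  inf := fun h => hx (h.of_le (st_le x))
  coinf := fun h => hx' (h.of_le (st_le x))
  ai := by
    refine ai_of_gens hT0 fun t ht => ?_
    rw [mem_IV_iff]
    refine (frontier hΦ.1 x t ht).mono ?_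
    intro y hy h
    apply hy
    change (if y * t ∈ cl S T0 Φ x then (1 : ℤ) else 0) - (if y ∈ cl S T0 Φ x then 1 else 0) = 0
    by_cases h4 : y ∈ cl S T0 Φ x
    · rw [if_pos h4, if_pos (h.2 h4), sub_self]
    · rw [if_neg h4, if_neg fun h' => h4 (h.1 h'), sub_self]

/-- If the duality module does not vanish, there is a component which is neither finite nor
cofinite. -/
theorem exists_cl (hA : AD S D f) (hT0 : Subgroup.closure (T0 : Set G) = ⊤) (hΦ : Adm T0 f Φ)
    [Infinite (G ⧸ S)] (hD : ∃ d : D, d ≠ 0) :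
    ∃ x, ¬ SF S (cl S T0 Φ x) ∧ ¬ SF S (cl S T0 Φ x)ᶜ := by
  by_contra hcon
  push Not at hcon
  have h1 : ∃ x, ¬ SF S (cl S T0 Φ x) := by
    by_contra h2
    push Not at h2
    refine not_SF_univ (S := S) ((shallow hT0 hΦ.1).mono ?_)
    intro x _
    exact h2 x
  obtain ⟨x, hx⟩ := h1
  have h2 : AddMonoidHom.id D = 0 := by
    refine hA.uniq _ (f x) ((hcon x hx).mono ?_)
    intro y hy h
    apply hy
    exact hΦ.const h
  obtain ⟨d, hd⟩ := hD
  exact hd (DFunLike.congr_fun h2 d)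

/-- In the presence of an atom there is another component. -/
theorem exists_cl_disj (hT0 : Subgroup.closure (T0 : Set G) = ⊤)
    (hΦ : Adm T0 f Φ) {X : Set G} (hX : At S X) (hA : AD S D f) :
    ∃ x, ¬ SF S (cl S T0 Φ x) ∧ SF S (X ∩ cl S T0 Φ x) := by
  by_contra hcon
  push Not at hcon
  -- every deep component contains almost all of `X`
  have h1 : ∀ x, ¬ SF S (cl S T0 Φ x) → SF S (X \ cl S T0 Φ x) := by
    intro x hx
    obtain ⟨v, hv⟩ := hX.atom (ind (cl S T0 Φ x))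
      ((by
        refine ai_of_gens hT0 fun t ht => ?_
        rw [mem_IV_iff]
        refine ((frontier hΦ.1 x t ht).of_le (st_le x)).mono ?_
        intro y hy h
        apply hy
        change (if y * t ∈ cl S T0 Φ x then (1 : ℤ) else 0) -
          (if y ∈ cl S T0 Φ x then 1 else 0) = 0
        by_cases h4 : y ∈ cl S T0 Φ x
        · rw [if_pos h4, if_pos (h.2 h4), sub_self]
        · rw [if_neg h4, if_neg fun h' => h4 (h.1 h'), sub_self]) : AI' S (ind (cl S T0 Φ x)))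
    by_cases hv1 : v = 1
    · refine hv.mono ?_
      rintro y ⟨hy, hy'⟩
      refine ⟨hy, ?_⟩
      change (if y ∈ cl S T0 Φ x then (1 : ℤ) else 0) ≠ v
      rw [if_neg hy', hv1]
      norm_num
    · exfalso
      apply hcon x hx
      refine hv.mono ?_
      rintro y ⟨hy, hy'⟩
      refine ⟨hy, ?_⟩
      change (if y ∈ cl S T0 Φ x then (1 : ℤ) else 0) ≠ v
      rw [if_pos hy']
      exact Ne.symm hv1
  -- and conversely
  have h2 : ∀ x, ¬ SF S (cl S T0 Φ x) → SF S (cl S T0 Φ x \ X) := by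
    intro x hx
    obtain ⟨l, v, hlv⟩ := hA.ex _ hX.ai
    -- the indicator function is almost constant on the component
    obtain ⟨y, ⟨hyX, hyx⟩, hy⟩ := exists_notSF (S := S) (X := X ∩ cl S T0 Φ x) (hcon x hx) hlv
    have h3 := hy 1 S.one_mem
    rw [one_mul, Set.mem_ofPred_eq, not_not] at h3
    refine hlv.mono ?_
    rintro z ⟨hz, hzX⟩ h4
    have h5 : ind X y = 1 := if_pos hyX
    have h6 : ind X z = 0 := if_neg hzX
    rw [hΦ.const hz, h6] at h4
    rw [hΦ.const hyx, h5, h4] at h3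
    have h7 : (0 : ℤ) = 1 := by linarith
    exact zero_ne_one h7
  apply hX.coinf
  -- there is a deep component
  have h3 : ∃ x, ¬ SF S (cl S T0 Φ x) := by
    by_contra h4
    push Not at h4
    exact hX.inf ((shallow hT0 hΦ.1).mono fun x _ => h4 x)
  obtain ⟨x, hx⟩ := h3
  refine ((shallow hT0 hΦ.1).union (h2 x hx)).mono ?_
  intro y hy
  by_cases hyd : SF S (cl S T0 Φ y)
  · exact Or.inl hyd
  · right
    refine ⟨?_, hy⟩
    -- both components contain almost all of `X`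
    obtain ⟨z, hz, hz'⟩ := exists_notSF (S := S) hX.inf ((h1 x hx).union (h1 y hyd))
    have h5 := hz' 1 S.one_mem
    rw [one_mul, Set.mem_union, not_or] at h5
    have h6 : z ∈ cl S T0 Φ x := by
      by_contra h7
      exact h5.1 ⟨hz, h7⟩
    have h8 : z ∈ cl S T0 Φ y := by
      by_contra h7
      exact h5.2 ⟨hz, h7⟩
    exact cl_trans h6 (cl_symm h8)

end

end Pool.Agent.H26.PD.PS
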