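import Pool.Agent.H26.PS.Homot

/-!
The module `H²(S; ℤ[S])`, as a left module twisted by the orientation character.
-/

set_option autoImplicit false
set_option linter.unusedSectionVars false

namespace Pool.Agent.H26.PD.PS

open Pool.Agent.Helper386.PD3 Pool.Agent.H26.PD.PN Pool.Agent.H26.PD.PK
open scoped Classical Matrix

noncomputable section

variable {T : Type} [Group T] {m : ℕ}

/-- the dual of the second syzygy -/
def KD (_w : T →* ℤˣ) (h : Fin m → T) : Type := LinearMap.ker (bd h) →ₗ[RR T] RR T

variable (w : T →* ℤˣ) (h : Fin m → T)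

instance instKDa : AddCommGroup (KD w h) :=
  inferInstanceAs (AddCommGroup (LinearMap.ker (bd h) →ₗ[RR T] RR T))

/-- the underlying linear form -/
def KD.toLin {w : T →* ℤˣ} {h : Fin m → T} (φ : KD w h) : LinearMap.ker (bd h) →ₗ[RR T] RR T := φ

/-- a linear form as an element of the dual -/
def KD.of (φ : LinearMap.ker (bd h) →ₗ[RR T] RR T) : KD w h := φ

theorem KD.ext {w : T →* ℤˣ} {h : Fin m → T} {φ ψ : KD w h} (H : ∀ x, φ.toLin x = ψ.toLin x) :
    φ = ψ := LinearMap.ext H

theorem KD.add_toLin {w : T →* ℤˣ} {h : Fin m → T} (φ ψ : KD w h) (x) :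
    (φ + ψ).toLin x = φ.toLin x + ψ.toLin x := rfl

/-- the sum of linear forms -/
theorem KD.sum_toLin {w : T →* ℤˣ} {h : Fin m → T} {ι : Type} (F : Finset ι) (φ : ι → KD w h) (x) :
    (∑ k ∈ F, φ k).toLin x = ∑ k ∈ F, (φ k).toLin x := LinearMap.sum_apply _ _ _

instance instKDm : Module (RR T) (KD w h) where
  smul r φ := KD.of w h
    { toFun := fun x => φ.toLin x * dg w r
      map_add' := fun x y => by rw [map_add, add_mul]
      map_smul' := fun s x => by
        rw [map_smul, smul_eq_mul, mul_assoc]
        rfl }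
  one_smul φ := KD.ext fun x => by
    change φ.toLin x * dg w 1 = φ.toLin x
    rw [dg_one, mul_one]
  mul_smul a b φ := KD.ext fun x => by
    change φ.toLin x * dg w (a * b) = φ.toLin x * dg w b * dg w a
    rw [dg_mul, mul_assoc]
  smul_zero a := KD.ext fun x => by
    change (0 : RR T) * dg w a = 0
    rw [zero_mul]
  smul_add a φ ψ := KD.ext fun x => by
    change (φ.toLin x + ψ.toLin x) * dg w a = φ.toLin x * dg w a + ψ.toLin x * dg w a
    rw [add_mul]
  add_smul a b φ := KD.ext fun x => by
    change φ.toLin x * dg w (a + b) = φ.toLin x * dg w a + φ.toLin x * dg w b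
    rw [dg_add, mul_add]
  zero_smul φ := KD.ext fun x => by
    change φ.toLin x * dg w 0 = 0
    rw [dg_zero, mul_zero]

theorem KD.smul_toLin {w : T →* ℤˣ} {h : Fin m → T} (r : RR T) (φ : KD w h) (x) :
    (r • φ).toLin x = φ.toLin x * dg w r := rfl

/-- the map from the dual of the free module -/
def iot : (Fin m → RR T) →ₗ[RR T] KD w h where
  toFun y := KD.of w h
    { toFun := fun x => ∑ b, x.1 b * dg w (y b)
      map_add' := fun x x' => by
        rw [← Finset.sum_add_distrib]
        exact Finset.sum_congr rfl fun b _ => add_mul _ _ _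
      map_smul' := fun r x => by
        rw [RingHom.id_apply, smul_eq_mul, Finset.mul_sum]
        exact Finset.sum_congr rfl fun b _ => mul_assoc _ _ _ }
  map_add' y y' := KD.ext fun x => by
    change ∑ b, x.1 b * dg w (y b + y' b) = ∑ b, x.1 b * dg w (y b) + ∑ b, x.1 b * dg w (y' b)
    rw [← Finset.sum_add_distrib]
    exact Finset.sum_congr rfl fun b _ => by rw [dg_add, mul_add]
  map_smul' r y := KD.ext fun x => by
    change ∑ b, x.1 b * dg w (r * y b) = (∑ b, x.1 b * dg w (y b)) * dg w r
    rw [Finset.sum_mul]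
    exact Finset.sum_congr rfl fun b _ => by rw [dg_mul, mul_assoc]

theorem iot_toLin (y : Fin m → RR T) (x) : (iot w h y).toLin x = ∑ b, x.1 b * dg w (y b) := rfl

/-- the second cohomology with coefficients in the group ring -/
abbrev DS : Type := KD w h ⧸ LinearMap.range (iot w h)

/-- the class of an element -/
def dm : KD w h →ₗ[RR T] DS w h := (LinearMap.range (iot w h)).mkQ

theorem dm_surj : Function.Surjective (dm w h) := Submodule.mkQ_surjective _

theorem dm_iot (y : Fin m → RR T) : dm w h (iot w h y) = 0 :=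
  (Submodule.Quotient.mk_eq_zero _).2 ⟨y, rfl⟩

theorem dm_eq_zero {φ : KD w h} : dm w h φ = 0 ↔ ∃ y, iot w h y = φ :=
  (Submodule.Quotient.mk_eq_zero _)

/-- additive maps on the quotient -/
theorem exists_lift {V : Type} [AddCommGroup V] (l : KD w h →+ V) (hl : ∀ y, l (iot w h y) = 0) :
    ∃ l' : DS w h →+ V, ∀ φ, l' (dm w h φ) = l φ := by
  refine ⟨QuotientAddGroup.lift (LinearMap.range (iot w h)).toAddSubgroup l ?_, fun φ => rfl⟩
  rintro _ ⟨y, rfl⟩
  exact hl y

/-- a dual basis of the second syzygy -/
structure DB (h : Fin m → T) where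
  N : ℕ
  κ : Fin N → LinearMap.ker (bd h)
  φ : Fin N → (LinearMap.ker (bd h) →ₗ[RR T] RR T)
  hκ : ∀ x, x = ∑ l, φ l x • κ l

theorem exists_DB (h1 : Module.Finite (RR T) (LinearMap.ker (bd h)))
    (h2 : Module.Projective (RR T) (LinearMap.ker (bd h))) : Nonempty (DB h) := by
  obtain ⟨N, f, hf⟩ := Module.Finite.exists_fin' (RR T) (LinearMap.ker (bd h))
  obtain ⟨s, hs⟩ := Module.projective_lifting_property f LinearMap.id hf
  refine ⟨⟨N, fun l => f (Pi.single l 1), fun l => (LinearMap.proj l).comp s, fun x => ?_⟩⟩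
  have h3 : f (s x) = x := LinearMap.congr_fun hs x
  conv_lhs => rw [← h3]
  have h4 : s x = ∑ l, (s x l) • (Pi.single l (1 : RR T) : Fin N → RR T) := by
    funext k
    rw [Finset.sum_apply, Finset.sum_eq_single k]
    · simp
    · intro i _ hi
      rw [Pi.smul_apply, Pi.single_eq_of_ne (Ne.symm hi), smul_zero]
    · intro h
      exact absurd (Finset.mem_univ k) h
  conv_lhs => rw [h4, map_sum]
  exact Finset.sum_congr rfl fun l _ => by rw [map_smul]; rfl

variable {w h}

theorem DB.expand (B : DB h) (ψ : KD w h) :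
    ψ = ∑ l, dg w (ψ.toLin (B.κ l)) • KD.of w h (B.φ l) := by
  refine KD.ext fun x => ?_
  rw [KD.sum_toLin]
  conv_lhs => rw [B.hκ x, map_sum]
  refine Finset.sum_congr rfl fun l _ => ?_
  rw [KD.smul_toLin, dg_dg, map_smul]
  rfl

/-- the coordinate functions -/
theorem DB.coord (B : DB h) (b : Fin m) :
    ∑ l, dg w ((B.κ l).1 b) • KD.of w h (B.φ l) = iot w h (Pi.single b 1) := by
  refine KD.ext fun x => ?_
  rw [KD.sum_toLin, iot_toLin, Finset.sum_eq_single b]
  · rw [Pi.single_eq_same, dg_one, mul_one]
    have h1 := congrArg (fun z : LinearMap.ker (bd h) => z.1 b) (B.hκ x)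
    change x.1 b = (∑ l, B.φ l x • B.κ l : LinearMap.ker (bd h)).1 b at h1
    rw [Submodule.coe_sum, Finset.sum_apply] at h1
    rw [h1]
    refine Finset.sum_congr rfl fun l _ => ?_
    rw [KD.smul_toLin, dg_dg]
    rfl
  · intro b' _ hb'
    rw [Pi.single_eq_of_ne hb', dg_zero, mul_zero]
  · intro h
    exact absurd (Finset.mem_univ b) h

/-- the dual of the second syzygy is finitely generated and projective -/
theorem kd_finite (B : DB h) : Module.Finite (RR T) (KD w h) := by
  refine ⟨⟨Finset.univ.image fun l => KD.of w h (B.φ l), ?_⟩⟩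
  rw [eq_top_iff]
  intro ψ _
  rw [B.expand ψ]
  refine Submodule.sum_mem _ fun l _ => Submodule.smul_mem _ _ (Submodule.subset_span ?_)
  rw [Finset.coe_image]
  exact ⟨l, Finset.mem_coe.2 (Finset.mem_univ _), rfl⟩

theorem kd_projective (B : DB h) : Module.Projective (RR T) (KD w h) := by
  let i : KD w h →ₗ[RR T] (Fin B.N → RR T) :=
    { toFun := fun ψ l => dg w (ψ.toLin (B.κ l))
      map_add' := fun ψ ψ' => by
        funext l
        rw [KD.add_toLin, dg_add]
        rfl
      map_smul' := fun r ψ => by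
        funext l
        rw [KD.smul_toLin, dg_mul, dg_dg]
        rfl }
  let s : (Fin B.N → RR T) →ₗ[RR T] KD w h :=
    { toFun := fun r => ∑ l, r l • KD.of w h (B.φ l)
      map_add' := fun r r' => by
        rw [← Finset.sum_add_distrib]
        exact Finset.sum_congr rfl fun l _ => by rw [Pi.add_apply, add_smul]
      map_smul' := fun a r => by
        rw [RingHom.id_apply, Finset.smul_sum]
        exact Finset.sum_congr rfl fun l _ => by rw [Pi.smul_apply, smul_eq_mul, mul_smul] }
  exact Module.Projective.of_split i s (LinearMap.ext fun ψ => (B.expand ψ).symm)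

/-- `H²` is finitely presented -/
theorem ds_fp (B : DB h) : Module.FinitePresentation (RR T) (DS w h) := by
  have := kd_finite (w := w) B
  have := kd_projective (w := w) B
  have : Module.FinitePresentation (RR T) (KD w h) := Module.finitePresentation_of_projective _ _
  refine Module.finitePresentation_of_surjective (dm w h) (dm_surj w h) ?_
  rw [dm, Submodule.ker_mkQ, LinearMap.range_eq_map]
  exact Module.Finite.fg_top.map _

end

end Pool.Agent.H26.PD.PS
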