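import Pool.Agent.H26.PS.Ker

/-!
The main theorem on kernels of homomorphisms onto the integers.
-/

set_option autoImplicit false
set_option linter.unusedSectionVars false

namespace Pool.Agent.H26.PD.PS

open Pool.Agent.Helper386.PD3 Pool.Agent.H26.PD.PN Pool.Agent.H26.PD.PK
open scoped Classical Matrix

noncomputable section

variable {G : Type} [Group G] {S K : Subgroup G} {n m : ℕ} {w : G →* ℤˣ}
  {e0 e1 e2 e3 d0 d1 d2 : MR G n}

/-- the residual condition -/
def Gd (A : Type) [Group A] : Prop :=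
  (∃ p : ℕ, p.Prime ∧ ResP p A) ∨
    ∃ (D : Type) (_ : DivisionRing D) (i : RR A →+* D), Function.Injective i

theorem Gd.of_inj {A B : Type} [Group A] [Group B] (j : A →* B) (hj : Function.Injective j)
    (h : Gd B) : Gd A := by
  rcases h with ⟨p, hp, hres⟩ | ⟨D, iD, i, hi⟩
  · exact Or.inl ⟨p, hp, resP_of_inj j hj hres⟩
  · exact Or.inr ⟨D, iD, i.comp (pf j), hi.comp (pf_inj _ hj)⟩

/-- **Coherence**, for all presentations. -/
theorem finite_K (hF : Full w e0 e1 e2 e3 d0 d1 d2)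
    (hex2 : ∀ v, v ᵥ* e2 = v → v ᵥ* d1 = 0 → ∃ u, u ᵥ* d2 = v) (hOE : OE G) [Group.FG G]
    (htf : ∀ g : G, g ≠ 1 → ∀ k : ℕ, 0 < k → g ^ k ≠ 1) [Infinite (G ⧸ S)] (hfg : S.FG)
    (S₀ : Subgroup S) [S₀.FiniteIndex] (h₀ : Gd S₀) (h : Fin m → S)
    (hgen : Subgroup.closure (Set.range h) = ⊤) :
    Module.Finite (RR S) (LinearMap.ker (bd h)) := by
  have hSfg : Group.FG S := (Group.fg_iff_subgroup_fg S).2 hfg
  have hS₀fg : Group.FG S₀ := inferInstance
  let S' : Subgroup G := S₀.map S.subtype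
  have hS'le : S' ≤ S := Subgroup.map_subtype_le S₀
  have hS'i : Infinite (G ⧸ S') := infinite_quot hS'le
  let e : S₀ ≃* S' := S₀.equivMapOfInjective S.subtype S.subtype_injective
  have hS'fg : Group.FG S' := Group.fg_of_surjective (f := e.toMonoidHom) e.surjective
  obtain ⟨m', h', hgen'⟩ := exists_gens (H := S') hS'fg
  have hfin : Module.Finite (RR S') (LinearMap.ker (bd h')) := by
    rcases h₀ with ⟨p, hp, hres⟩ | ⟨D, iD, i, hi⟩
    · have : Fact p.Prime := ⟨hp⟩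
      refine finite_ker_resP (p := p) hF hex2 hOE ?_
        (resP_of_inj e.symm.toMonoidHom e.symm.injective hres) h' hgen'
      intro s hs k hk h1
      exact htf s.1 (fun h2 => hs (Subtype.ext h2)) k hk (congrArg Subtype.val h1)
    · exact finite_ker (S := S') hF hex2 hOE h' hgen' (i.comp (pf e.symm.toMonoidHom))
        (hi.comp (pf_inj _ e.symm.injective))
  have hFGK' : FGK S' := ⟨m', h', hgen', Module.Finite.iff_fg.1 hfin⟩
  have hFGK : FGK S₀ := hFGK'.equiv e.symm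
  exact Module.Finite.iff_fg.2 (fg_ker_of_finiteIndex S₀ hFGK h hgen)

/-! ## The function of a homomorphism to the integers -/

section fun_chi

variable {H : Subgroup G} (χ : H →* Multiplicative ℤ)

/-- the representative of a coset -/
def rp (H : Subgroup G) (x : G) : G := ((qS H x).out)⁻¹

theorem rp_mem (x : G) : x * (rp H x)⁻¹ ∈ H := by
  obtain ⟨s, hs, hsx⟩ := qS_eq.1 (qS_out (S := H) (qS H x))
  have h1 : x * (rp H x)⁻¹ = s := by
    unfold rp
    rw [inv_inv]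
    exact eq_mul_inv_iff_mul_eq.1 hsx
  rw [h1]
  exact hs

/-- the level of an element -/
def lev (x : G) : ℤ := (χ ⟨x * (rp H x)⁻¹, rp_mem x⟩).toAdd

theorem rp_left {h : G} (hh : h ∈ H) (x : G) : rp H (h * x) = rp H x := by
  unfold rp
  rw [qS_left hh]

theorem lev_left (h : H) (x : G) : lev χ (h * x) = (χ h).toAdd + lev χ x := by
  unfold lev
  have h1 : (⟨(h : G) * x * (rp H ((h : G) * x))⁻¹, rp_mem _⟩ : H) =
      h * ⟨x * (rp H x)⁻¹, rp_mem x⟩ := by
    apply Subtype.ext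
    change (h : G) * x * (rp H ((h : G) * x))⁻¹ = (h : G) * (x * (rp H x)⁻¹)
    rw [rp_left h.2, mul_assoc]
  rw [h1, map_mul, toAdd_mul]

/-- the level after a right multiplication -/
theorem lev_right (x g : G) : lev χ (x * g) = lev χ x + lev χ (rp H x * g) := by
  have h1 : x * g = (⟨x * (rp H x)⁻¹, rp_mem x⟩ : H) * (rp H x * g) := by
    change x * g = x * (rp H x)⁻¹ * (rp H x * g)
    group
  conv_lhs => rw [h1]
  rw [lev_left]
  rfl

/-- the kernel as a subgroup of the large group -/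
abbrev kerG : Subgroup G := χ.ker.map H.subtype

theorem mem_kerG {g : G} : g ∈ kerG χ ↔ ∃ h : g ∈ H, χ ⟨g, h⟩ = 1 := by
  constructor
  · rintro ⟨h, hh, rfl⟩
    exact ⟨h.2, hh⟩
  · rintro ⟨h, hh⟩
    exact ⟨⟨g, h⟩, hh, rfl⟩

/-- elements of bounded level are finite modulo the kernel -/
theorem SF_lev [H.FiniteIndex] (M : ℤ) : SF (kerG χ) {x | |lev χ x| ≤ M} := by
  have hfin : Finite (G ⧸ H) := inferInstance
  -- the map to the finite set
  have h2 : (Set.univ ×ˢ Set.Icc (-M) M : Set ((G ⧸ H) × ℤ)).Finite :=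
    Set.finite_univ.prod (Set.finite_Icc _ _)
  let X : Set G := {x | |lev χ x| ≤ M}
  have h3 : ((fun x : G => (qS H x, lev χ x)) '' X).Finite := by
    refine h2.subset ?_
    rintro _ ⟨x, hx, rfl⟩
    exact ⟨trivial, abs_le.1 hx⟩
  refine Set.Finite.subset (s := ⋃ p ∈ (fun x : G => (qS H x, lev χ x)) '' X,
    qS (kerG χ) '' {x ∈ X | (qS H x, lev χ x) = p})
    (h3.biUnion fun p _ => Set.Subsingleton.finite ?_) ?_
  · rintro _ ⟨y, ⟨hy, hyc⟩, rfl⟩ _ ⟨z, ⟨hz, hzc⟩, rfl⟩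
    have h4 := hyc.trans hzc.symm
    obtain ⟨s, hs, rfl⟩ := qS_eq.1 (congrArg Prod.fst h4)
    refine qS_eq.2 ⟨s, (mem_kerG χ).2 ⟨hs, ?_⟩, rfl⟩
    have h5 : lev χ y = lev χ (s * y) := congrArg Prod.snd h4
    have h6 := lev_left χ (⟨s, hs⟩ : H) y
    change lev χ (s * y) = _ at h6
    rw [← h5] at h6
    have h7 : (χ ⟨s, hs⟩).toAdd = 0 := by linarith
    exact toAdd_eq_zero.1 h7
  · rintro _ ⟨x, hx, rfl⟩
    exact Set.mem_biUnion ⟨x, hx, rfl⟩ ⟨x, ⟨hx, rfl⟩, rfl⟩

/-- the half space function -/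
def Fh (x : G) : ℤ := if 0 ≤ lev χ x then 1 else 0

theorem Fh_left (k : G) (hk : k ∈ kerG χ) (x : G) : Fh χ (k * x) = Fh χ x := by
  obtain ⟨hkH, hk1⟩ := (mem_kerG χ).1 hk
  unfold Fh
  have h1 := lev_left χ (⟨k, hkH⟩ : H) x
  change lev χ (k * x) = _ at h1
  rw [h1, hk1, toAdd_one, zero_add]

theorem Fh_ai [H.FiniteIndex] : AI' (kerG χ) (Fh χ) := by
  intro g
  rw [mem_IV_iff]
  have hfin : Finite (G ⧸ H) := inferInstance
  obtain ⟨M, hM⟩ : ∃ M : ℤ, ∀ q : G ⧸ H, |lev χ ((q.out)⁻¹ * g)| ≤ M := by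
    obtain ⟨M, hM⟩ := (Set.finite_range fun q : G ⧸ H => |lev χ ((q.out)⁻¹ * g)|).bddAbove
    exact ⟨M, fun q => hM ⟨q, rfl⟩⟩
  refine (SF_lev χ M).mono ?_
  intro x hx
  by_contra h
  apply hx
  rw [Set.mem_ofPred_eq, not_le] at h
  change Fh χ (x * g) - Fh χ x = 0
  have h1 := lev_right χ x g
  have h2 : |lev χ (rp H x * g)| ≤ M := hM (qS H x)
  have h3 := abs_le.1 h2
  unfold Fh
  rcases lt_or_ge (lev χ x) 0 with h4 | h4
  · rw [abs_of_neg h4] at h
    rw [if_neg (not_le.2 h4), if_neg (by rw [h1]; linarith), sub_self]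
  · rw [abs_of_nonneg h4] at h
    rw [if_pos h4, if_pos (by rw [h1]; linarith), sub_self]

theorem Fh_ne (hχ : χ ≠ 1) (v : ℤ) : ¬ SF (kerG χ) {x | Fh χ x ≠ v} := by
  obtain ⟨t0, ht0⟩ : ∃ t : H, χ t ≠ 1 := by
    by_contra h
    push Not at h
    exact hχ (MonoidHom.ext h)
  have ht0' : (χ t0).toAdd ≠ 0 := fun h => ht0 (toAdd_eq_zero.1 h)
  -- an element of positive level
  obtain ⟨t, ht⟩ : ∃ t : H, 0 < (χ t).toAdd := by
    rcases lt_or_gt_of_ne ht0' with h | h
    · refine ⟨t0⁻¹, ?_⟩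
      rw [map_inv, toAdd_inv]
      linarith
    · exact ⟨t0, h⟩
  have hlev : ∀ k : ℤ, lev χ ((t ^ k : H) : G) = k * (χ t).toAdd + lev χ 1 := by
    intro k
    have h1 := lev_left χ (t ^ k) 1
    rw [mul_one] at h1
    rw [h1, map_zpow, toAdd_zpow, smul_eq_mul]
  have hinj : ∀ k l : ℤ, qS (kerG χ) ((t ^ k : H) : G) = qS (kerG χ) ((t ^ l : H) : G) → k = l := by
    intro k l h
    obtain ⟨s, hs, hsx⟩ := qS_eq.1 h
    obtain ⟨hsH, hs1⟩ := (mem_kerG χ).1 hs
    have h1 := lev_left χ (⟨s, hsH⟩ : H) ((t ^ k : H) : G)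
    change lev χ (s * _) = _ at h1
    rw [← hsx, hs1, toAdd_one, zero_add, hlev, hlev] at h1
    have h2 : l * (χ t).toAdd = k * (χ t).toAdd := by linarith
    exact (mul_right_cancel₀ ht.ne' h2).symm
  intro hSF
  obtain ⟨N, hNdef⟩ : ∃ N : ℤ, N = |lev χ 1| := ⟨_, rfl⟩
  have hN0 : 0 ≤ N := by rw [hNdef]; exact abs_nonneg _
  have hN1 : lev χ 1 ≤ N := by rw [hNdef]; exact le_abs_self _
  have hN2 : -N ≤ lev χ 1 := by rw [hNdef]; exact neg_abs_le _
  have ht1 : (1 : ℤ) ≤ (χ t).toAdd := ht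
  by_cases hv : v = 1
  · have h1 : (Set.range fun j : ℕ => qS (kerG χ) ((t ^ (-(N + 1 + j)) : H) : G)).Infinite := by
      refine Set.infinite_range_of_injective ?_
      intro i j hij
      have h2 := hinj _ _ hij
      have h3 : (i : ℤ) = j := by linarith
      exact_mod_cast h3
    apply h1
    refine Set.Finite.subset hSF ?_
    rintro _ ⟨j, rfl⟩
    refine ⟨_, ?_, rfl⟩
    change Fh χ _ ≠ v
    have h5 : lev χ ((t ^ (-(N + 1 + j)) : H) : G) < 0 := by
      rw [hlev]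
      have h6 : (0 : ℤ) ≤ j := Int.natCast_nonneg j
      nlinarith
    unfold Fh
    rw [if_neg (not_le.2 h5), hv]
    norm_num
  · have h1 : (Set.range fun j : ℕ => qS (kerG χ) ((t ^ (N + j) : H) : G)).Infinite := by
      refine Set.infinite_range_of_injective ?_
      intro i j hij
      have h2 := hinj _ _ hij
      have h3 : (i : ℤ) = j := by linarith
      exact_mod_cast h3
    apply h1
    refine Set.Finite.subset hSF ?_
    rintro _ ⟨j, rfl⟩
    refine ⟨_, ?_, rfl⟩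
    change Fh χ _ ≠ v
    unfold Fh
    have h5 : 0 ≤ lev χ ((t ^ (N + j) : H) : G) := by
      rw [hlev]
      have h6 : (0 : ℤ) ≤ j := Int.natCast_nonneg j
      nlinarith
    rw [if_pos h5]
    exact Ne.symm hv

end fun_chi

/-- **Surface subgroups of kernels.** -/
theorem ker_pd2 {P : ℕ → Type} [∀ i, AddCommGroup (P i)]
    [∀ i, Module (MonoidAlgebra ℤ G) (P i)] {d : ∀ i, P (i + 1) →ₗ[MonoidAlgebra ℤ G] P i}
    {ε : P 0 →+ ℤ} (hR : Helper158.Reso P d ε) (m : ℕ)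
    (hm : ∀ i, m < i → Subsingleton (P i))
    [∀ i, Module.Finite (MonoidAlgebra ℤ G) (P i)]
    [∀ i, Module.Projective (MonoidAlgebra ℤ G) (P i)]
    (hcoh : ∀ i, i ≠ 3 → Subsingleton (groupCohomology (Rep.leftRegular ℤ G) i))
    (htop : Nonempty (groupCohomology (Rep.leftRegular ℤ G) 3 ≃+ ℤ))
    (H : Subgroup G) [H.FiniteIndex] (χ : H →* Multiplicative ℤ) (hχ : χ ≠ 1)
    (N : Subgroup χ.ker) [N.FiniteIndex] (hN : Gd N) :
    ∃ U : Subgroup G, U ≤ χ.ker.map H.subtype ∧ PD2 U := by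
  obtain ⟨w, n, e0, e1, e2, e3, d0, d1, d2, hF, hex2, hex1⟩ := exists_fully hR m hm hcoh htop
  have hOE : OE G := oe_of_H1 (hcoh 1 (by norm_num))
  have hGfg : Group.FG G := fg_of_low hF.low
  have htf : ∀ g : G, g ≠ 1 → ∀ k : ℕ, 0 < k → g ^ k ≠ 1 := by
    intro g hg k hk hgk
    apply hg
    refine Pool.Agent.Q138.PD.torsion_free d ε m inferInstance hm hR.surj hR.equi hR.ex0
      (fun i => ?_) g (isOfFinOrder_iff_pow_eq_one.2 ⟨k, hk, hgk⟩)
    ext x
    rw [LinearMap.mem_ker]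
    exact hR.ex i x
  have hKi : Infinite (G ⧸ kerG χ) := by
    rw [← not_finite_iff_infinite]
    intro h
    exact Fh_ne χ hχ 0 (Set.toFinite _)
  have hcohK : ∀ T : Subgroup G, T ≤ kerG χ → T.FG → ∀ (m : ℕ) (h : Fin m → T),
      Subgroup.closure (Set.range h) = ⊤ → Module.Finite (RR T) (LinearMap.ker (bd h)) := by
    intro T hT hTfg m h hgen
    have : Infinite (G ⧸ T) := infinite_quot hT
    let j : T →* χ.ker :=
      { toFun := fun t => ⟨⟨t.1, ((mem_kerG χ).1 (hT t.2)).1⟩, ((mem_kerG χ).1 (hT t.2)).2⟩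
        map_one' := rfl
        map_mul' := fun _ _ => rfl }
    have hj : Function.Injective j := by
      intro s t hst
      apply Subtype.ext
      exact congrArg (fun z : χ.ker => ((z : H) : G)) hst
    have hfi : (N.comap j).FiniteIndex := by
      constructor
      rw [Subgroup.index_comap]
      exact Subgroup.FiniteIndex.index_ne_zero (H := N.subgroupOf j.range)
    refine finite_K hF hex2 hOE htf hTfg (N.comap j) (hN.of_inj
      ({ toFun := fun t => ⟨j t.1, t.2⟩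
         map_one' := by
          apply Subtype.ext
          exact map_one j
         map_mul' := fun s t => by
          apply Subtype.ext
          exact map_mul j _ _ } : N.comap j →* N) ?_) h hgen
    intro s t hst
    apply Subtype.ext
    exact hj (congrArg Subtype.val hst)
  obtain ⟨S, k, h, hSK, hgen, hS⟩ := exists_not_triv hF hex2 hex1 hcohK
    (fun k hk x => Fh_left χ k hk x) (Fh_ai χ) (Fh_ne χ hχ)
  have : Infinite (G ⧸ S) := infinite_quot hSK
  obtain ⟨U, hU, hPD⟩ := exists_pd2 hF hex2 hex1 htf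
    (fun T hT hTfg m h hgen => hcohK T (hT.trans hSK) hTfg m h hgen) h hgen hS
  exact ⟨U, hU.trans hSK, hPD⟩

end

end Pool.Agent.H26.PD.PS
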