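import Pool.Agent.H26.PS.Ten

/-!
Comparison of a resolution over the group with a resolution over a subgroup, with the homotopy.
-/

set_option autoImplicit false
set_option linter.unusedSectionVars false

namespace Pool.Agent.H26.PD.PS

open Pool.Agent.Helper386.PD3 Pool.Agent.H26.PD.PN Pool.Agent.H26.PD.PK
open scoped Classical Matrix

noncomputable section

variable {G : Type} [Group G] {S : Subgroup G} {n m : ℕ} {w : G →* ℤˣ}
  {e0 e1 e2 e3 d0 d1 d2 : MR G n}

theorem isAct_aF (S : Subgroup G) (n : ℕ) : IsAct S (aF G n) := by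
  constructor
  · refine LinearMap.ext fun v => ?_
    rw [aF_apply, gof_one, one_smul]
    rfl
  · intro g _ g' _
    refine LinearMap.ext fun v => ?_
    change _ = aF G n g (aF G n g' v)
    rw [aF_apply, aF_apply, aF_apply, gof_mul, mul_smul]

theorem lin_inc {F : (Fin n → RR G) →+ (Fin n → RR G)}
    (hF : ∀ g ∈ S, ∀ v, F (gof g • v) = gof g • F v) (r : RR S) (v : Fin n → RR G) :
    F (inc S r • v) = inc S r • F v := by
  induction r using rr_ind with
  | h1 g => rw [inc_of, hF g g.2]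
  | h2 x y hx hy => rw [map_add, add_smul, map_add, hx, hy, add_smul]
  | h3 x hx => rw [map_neg, neg_smul, map_neg, hx, neg_smul]

theorem f1_neg (v : Fin m → (Fin n → RR G)) (x : Fin m → RR S) : f1 v (-x) = -f1 v x := by
  rw [eq_neg_iff_add_eq_zero, ← f1_add, neg_add_cancel]
  unfold f1
  exact Finset.sum_eq_zero fun b _ => by rw [Pi.zero_apply, map_zero, zero_smul]

/-- Comparison, with the homotopy. -/
theorem compare2 (hL : Low e0 e1 e2 d0 d1) (h : Fin m → S)
    (hgen : Subgroup.closure (Set.range h) = ⊤) :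
    ∃ (v : Fin m → (Fin n → RR G)) (g1 : (Fin n → RR G) →+ (Fin m → RR S))
      (s1 : (Fin n → RR G) →+ (Fin n → RR G)) (k : Fin m → (Fin m → RR S)),
      (∀ b, v b ᵥ* e1 = v b) ∧
      (∀ (r : RR S) y, g1 (inc S r • y) = r • g1 y) ∧
      (∀ y, bd h (g1 (y ᵥ* d1)) = 0) ∧
      (∀ x, bd h x = 0 → f1 v x ᵥ* d0 = 0) ∧
      (∀ (r : RR S) y, s1 (inc S r • y) = inc S r • s1 y) ∧
      (∀ y, y ᵥ* e1 = y → y ᵥ* d0 = 0 → f1 v (g1 y) = y - s1 y ᵥ* d1) ∧
      (∀ b, bd h (k b) = 0) ∧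
      ∀ x, bd h x = 0 → x = g1 (f1 v x) + ∑ b, x b • k b := by
  obtain ⟨ε, hε, ⟨u, hu, hεu⟩, hεd, hεex⟩ := hL.aug
  have hv : ∀ b, ∃ v, v ᵥ* e1 = v ∧ v ᵥ* d0 = gof (h b : G) • u - u := by
    intro b
    obtain ⟨v, hv⟩ := hεex (gof (h b : G) • u - u)
      (by rw [Matrix.sub_vecMul, smul_vm, hu]) (by rw [map_sub, hε, sub_self])
    exact ⟨v ᵥ* e1, by rw [vm_vm, hL.ee1], by rw [vm_vm, hL.e1d0, hv]⟩
  choose v hv1 hv2 using hv
  obtain ⟨ψ, hψ1, hψ2⟩ := exists_psi (N := S) hε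
  have hψ : ∀ (r : RR S) y, ψ (inc S r • y) = r • ψ y :=
    lin_of_equiv (fun g hg v => by rw [hψ1 g hg, aM_apply S _ hg])
  obtain ⟨g1, hg1, hg2⟩ := lift_free (n := n) (isAct_aM S (Fin m → RR S))
    (fun j x y => bd h y = ψ ((gof x • Pi.single j (1 : RR G)) ᵥ* d0))
    (fun j x => bd_surj' h hgen (by rw [hψ2, hεd]))
    (fun g hg j x y hy => by
      rw [aM_apply S _ hg, map_smul, hy, gof_mul, mul_smul, ← hψ, inc_of, smul_vm (gof g)])
  have hg : ∀ (r : RR S) y, g1 (inc S r • y) = r • g1 y :=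
    lin_of_equiv (fun g hg v => by rw [hg1 g hg, aM_apply S _ hg])
  have hbd : ∀ y, bd h (g1 y) = ψ (y ᵥ* d0) := by
    intro y
    refine hom_ext (F := (bd h).toAddMonoidHom.comp g1)
      (F' := ψ.comp (AddMonoidHom.mk' (fun v => v ᵥ* d0) (fun v v' => Matrix.add_vecMul _ _ _)))
      (fun x j => ?_) y
    exact hg2 j x
  obtain ⟨κ, hκ⟩ := bd_surj' h hgen (r := ψ u - 1) (by rw [map_sub, hψ2, hεu, map_one, sub_self])
  have hf : ∀ x, f1 v x ᵥ* d0 = inc S (bd h x) • u := by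
    intro x
    rw [f1_vecMul, bd_apply, map_sum, Finset.sum_smul]
    refine Finset.sum_congr rfl fun b _ => ?_
    rw [hv2, map_mul, map_sub, inc_of, map_one, mul_smul, sub_smul, one_smul]
  -- the homotopy in degree zero
  obtain ⟨s0, hs01, hs02⟩ := lift_free (n := n) (isAct_aF S n)
    (fun j x y => y ᵥ* d0 = (gof x • Pi.single j (1 : RR G)) ᵥ* e0 -
      inc S (ψ ((gof x • Pi.single j (1 : RR G)) ᵥ* e0)) • u)
    (fun j x => by
      refine hεex _ ?_ ?_
      · rw [Matrix.sub_vecMul, vm_vm, hL.ee0, smul_vm (inc S _) u e0, hu]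
      · rw [map_sub, eps_eq hε, eps_inc, hψ2, hεu, mul_one, sub_self])
    (fun g hg j x y hy => by
      rw [aF_apply, smul_vm, hy, gof_mul, mul_smul (gof g), smul_vm (gof g) _ e0, smul_sub]
      congr 1
      have h1 : gof g • ((gof x • Pi.single j (1 : RR G)) ᵥ* e0) =
          inc S (gof ⟨g, hg⟩) • ((gof x • Pi.single j (1 : RR G)) ᵥ* e0) := by rw [inc_of]
      rw [h1, hψ, smul_eq_mul, map_mul, inc_of, mul_smul])
  have hs0 : ∀ y, s0 y ᵥ* d0 = y ᵥ* e0 - inc S (ψ (y ᵥ* e0)) • u := by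
    intro y
    refine hom_ext (F := (AddMonoidHom.mk' (fun v : Fin n → RR G => v ᵥ* d0)
        (fun v v' => Matrix.add_vecMul _ _ _)).comp s0)
      (F' := AddMonoidHom.mk' (fun y : Fin n → RR G => y ᵥ* e0 - inc S (ψ (y ᵥ* e0)) • u)
        (fun y y' => by
          rw [Matrix.add_vecMul, map_add, map_add, add_smul]
          abel)) (fun x j => ?_) y
    exact hs02 j x
  have hs0l : ∀ (r : RR S) y, s0 (inc S r • y) = inc S r • s0 y :=
    lin_inc fun g hg v => by rw [hs01 g hg, aF_apply]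
  -- the homotopy in degree one
  let R1 : (Fin n → RR G) → (Fin n → RR G) := fun y =>
    y ᵥ* e1 - f1 v (g1 (y ᵥ* e1)) - s0 (y ᵥ* d0) ᵥ* e1
  have hR1 : ∀ y, R1 y = y ᵥ* e1 - f1 v (g1 (y ᵥ* e1)) - s0 (y ᵥ* d0) ᵥ* e1 := fun _ => rfl
  have hR1add : ∀ y y', R1 (y + y') = R1 y + R1 y' := by
    intro y y'
    rw [hR1, hR1, hR1, Matrix.add_vecMul, Matrix.add_vecMul, map_add, map_add, f1_add,
      Matrix.add_vecMul]
    abel
  have hR1g : ∀ g ∈ S, ∀ y, R1 (gof g • y) = gof g • R1 y := by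
    intro g hg' y
    have h1 : ∀ z : Fin n → RR G, gof g • z = inc S (gof ⟨g, hg'⟩) • z := fun z => by rw [inc_of]
    rw [hR1, hR1, smul_vm, smul_vm, h1, h1 (y ᵥ* d0), hg, f1_smul, hs0l, smul_vm, h1, smul_sub,
      smul_sub]
  obtain ⟨s1, hs11, hs12⟩ := lift_free (n := n) (isAct_aF S n)
    (fun j x y => y ᵥ* d1 = R1 (gof x • Pi.single j (1 : RR G)))
    (fun j x => by
      refine hL.ex1 _ ?_ ?_
      · rw [hR1, Matrix.sub_vecMul, Matrix.sub_vecMul, vm_vm, hL.ee1, vm_vm, hL.ee1, f1_vecMul]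
        congr 2
        exact Finset.sum_congr rfl fun b _ => by rw [hv1]
      · rw [hR1, Matrix.sub_vecMul, Matrix.sub_vecMul, vm_vm, hL.e1d0, vm_vm, hL.e1d0, hf, hbd,
          vm_vm, hL.e1d0, hs0, vm_vm, hL.d0e0]
        abel)
    (fun g hg j x y hy => by
      rw [aF_apply, smul_vm, hy, gof_mul, mul_smul, hR1g g hg])
  have hs1 : ∀ y, s1 y ᵥ* d1 = R1 y := by
    intro y
    refine hom_ext (F := (AddMonoidHom.mk' (fun v : Fin n → RR G => v ᵥ* d1)
        (fun v v' => Matrix.add_vecMul _ _ _)).comp s1)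
      (F' := AddMonoidHom.mk' R1 hR1add) (fun x j => ?_) y
    exact hs12 j x
  refine ⟨v, g1, s1, fun b => Pi.single b 1 - g1 (v b) + (gof (h b) - 1 : RR S) • κ, hv1, hg,
    ?_, ?_, lin_inc fun g hg v => by rw [hs11 g hg, aF_apply], ?_, ?_, ?_⟩
  · intro y
    rw [hbd, vm_vm, hL.dd, Matrix.vecMul_zero, map_zero]
  · intro x hx
    rw [hf, hx, map_zero, zero_smul]
  · intro y hy hy0
    rw [hs1, hR1, hy, hy0, map_zero, Matrix.zero_vecMul, sub_zero, sub_sub_cancel]
  · intro b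
    rw [map_add, map_sub, bd_single, hbd, hv2, map_smul, hκ, map_sub]
    have h1 : ψ (gof (h b : G) • u) = gof (h b) * ψ u := by
      rw [← inc_of, hψ, smul_eq_mul]
    rw [h1, smul_eq_mul, mul_sub, sub_mul, mul_one, one_mul]
    abel
  · intro x hx
    have h1 : ∑ b, x b • (Pi.single b 1 - g1 (v b) + (gof (h b) - 1 : RR S) • κ) =
        x - g1 (f1 v x) + bd h x • κ := by
      have h2 : ∑ b, x b • (Pi.single b (1 : RR S) : Fin m → RR S) = x := by
        funext k
        rw [Finset.sum_apply, Finset.sum_eq_single k]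
        · simp
        · intro i _ hi
          rw [Pi.smul_apply, Pi.single_eq_of_ne (Ne.symm hi), smul_zero]
        · intro h
          exact absurd (Finset.mem_univ k) h
      have h3 : g1 (f1 v x) = ∑ b, x b • g1 (v b) := by
        unfold f1
        rw [map_sum]
        exact Finset.sum_congr rfl fun b _ => hg _ _
      rw [h3, bd_apply, Finset.sum_smul]
      simp only [smul_add, smul_sub, Finset.sum_add_distrib, Finset.sum_sub_distrib, h2,
        smul_smul]
    rw [h1, hx, zero_smul, add_zero, add_sub_cancel]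

end

end Pool.Agent.H26.PD.PS
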