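import Pool.Agent.H26.PS.Surf

/-!
A subgroup which is not finitely generated: the duality module of some finitely generated
subgroup does not vanish, if there is a nontrivial invariant almost invariant function.
-/

set_option autoImplicit false
set_option linter.unusedSectionVars false

namespace Pool.Agent.H26.PD.PS

open Pool.Agent.Helper386.PD3 Pool.Agent.H26.PD.PN Pool.Agent.H26.PD.PK
open scoped Classical Matrix

noncomputable section

variable {G : Type} [Group G] {S K : Subgroup G} {n m : ℕ} {w : G →* ℤˣ}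
  {e0 e1 e2 e3 d0 d1 d2 : MR G n}

/-- the twisted augmentation of the group ring of the subgroup -/
def iS (w : G →* ℤˣ) (S : Subgroup G) : RR S →+ ℤ := (ew (wS w S)).toAddMonoidHom

theorem iS_apply (r : RR S) : iS w S r = ew (wS w S) r := rfl

/-- the image of an element of the group ring in the functions on the cosets -/
theorem iS_u1 (g x : G) : iS w S (u1 w S (gof g) x) = if g * x⁻¹ ∈ S then ((w g : ℤˣ) : ℤ) else 0 := by
  rw [iS_apply]
  unfold u1
  rw [dg_of, mul_smul_comm, ← gof_mul, map_zsmul, map_zsmul]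
  by_cases h : g * x⁻¹ ∈ S
  · rw [if_pos h, prH_gof h, ew_of]
    change ((w x : ℤˣ) : ℤ) • ((w (g * x⁻¹) : ℤˣ) : ℤ) = _
    rw [smul_eq_mul, ← Units.val_mul, map_mul, map_inv, mul_comm (w g), mul_inv_cancel_left]
  · rw [if_neg h, prH_gof_notMem S h, map_zero, smul_zero]

/-- elements of the group ring as finite sums -/
theorem exists_sum (r : RR G) : ∃ (F : Finset G) (c : G → ℤ), (∀ g, g ∉ F → c g = 0) ∧
    r = ∑ g ∈ F, c g • gof g := by
  induction r using rr_ind with
  | h1 g =>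
    refine ⟨{g}, fun x => if x = g then 1 else 0, fun x hx => ?_, ?_⟩
    · exact if_neg fun h => hx (Finset.mem_singleton.2 h)
    · rw [Finset.sum_singleton]
      change gof g = (if g = g then (1 : ℤ) else 0) • gof g
      rw [if_pos rfl, one_smul]
  | h2 x y hx hy =>
    obtain ⟨F, c, hc, rfl⟩ := hx
    obtain ⟨F', c', hc', rfl⟩ := hy
    refine ⟨F ∪ F', fun g => c g + c' g, fun g hg => ?_, ?_⟩
    · rw [Finset.mem_union, not_or] at hg
      change c g + c' g = 0
      rw [hc g hg.1, hc' g hg.2, add_zero]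
    · simp only [add_smul, Finset.sum_add_distrib]
      congr 1
      · refine Finset.sum_subset Finset.subset_union_left fun g _ hg => ?_
        rw [hc g hg, zero_smul]
      · refine Finset.sum_subset Finset.subset_union_right fun g _ hg => ?_
        rw [hc' g hg, zero_smul]
  | h3 x hx =>
    obtain ⟨F, c, hc, rfl⟩ := hx
    refine ⟨F, fun g => -c g, fun g hg => neg_eq_zero.2 (hc g hg), ?_⟩
    rw [← Finset.sum_neg_distrib]
    exact Finset.sum_congr rfl fun g _ => (neg_smul _ _).symm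

theorem u1_zsmul (k : ℤ) (r : RR G) (x : G) : u1 w S (k • r) x = k • u1 w S r x := by
  unfold u1
  rw [smul_mul_assoc, map_zsmul]

/-- vanishing over `K` implies vanishing over a finitely generated subgroup -/
theorem exists_fin {r : RR G} (hr : ∀ x, iS w K (u1 w K r x) = 0) :
    ∃ E : Finset G, (∀ g ∈ E, g ∈ K) ∧ ∀ S : Subgroup G, S ≤ K → (∀ g ∈ E, g ∈ S) →
      ∀ x, iS w S (u1 w S r x) = 0 := by
  obtain ⟨F, c, -, rfl⟩ := exists_sum r
  have hval : ∀ (S : Subgroup G) (x : G), iS w S (u1 w S (∑ g ∈ F, c g • gof g) x) =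
      ∑ g ∈ F, c g • (if g * x⁻¹ ∈ S then ((w g : ℤˣ) : ℤ) else 0) := by
    intro S x
    rw [u1_sum, map_sum]
    exact Finset.sum_congr rfl fun g _ => by rw [u1_zsmul, map_zsmul, iS_u1]
  refine ⟨((F ×ˢ F).image fun p => p.1 * p.2⁻¹).filter fun g => g ∈ K, fun g hg =>
    (Finset.mem_filter.1 hg).2, fun S hSK hS x => ?_⟩
  rw [hval]
  by_cases hx : ∃ g' ∈ F, g' * x⁻¹ ∈ S
  · obtain ⟨g', hg', hg'x⟩ := hx
    have h1 := hr g'
    rw [hval] at h1
    refine Eq.trans ?_ h1
    refine Finset.sum_congr rfl fun g hg => ?_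
    have h2 : g * x⁻¹ ∈ S ↔ g * g'⁻¹ ∈ K := by
      have h3 : g * x⁻¹ = (g * g'⁻¹) * (g' * x⁻¹) := by group
      rw [h3, Subgroup.mul_mem_cancel_right _ hg'x]
      constructor
      · exact fun h => hSK h
      · intro h
        exact hS _ (Finset.mem_filter.2 ⟨Finset.mem_image.2 ⟨(g, g'),
          Finset.mem_product.2 ⟨hg, hg'⟩, rfl⟩, h⟩)
    by_cases h4 : g * x⁻¹ ∈ S
    · rw [if_pos h4, if_pos (h2.1 h4)]
    · rw [if_neg h4, if_neg fun h => h4 (h2.2 h)]
  · push Not at hx
    refine Finset.sum_eq_zero fun g hg => ?_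
    rw [if_neg (hx g hg), smul_zero]

/-- vanishing over a subgroup implies vanishing over `K` -/
theorem vanish_up (hSK : S ≤ K) {z : Fin n → RR G}
    (hz : ∀ j x, iS w S (u1 w S (z j) x) = 0) (j0 : Fin n) (x0 : G) :
    iS w K (u1 w K (z j0) x0) = 0 := by
  obtain ⟨ψ, h1, h2⟩ := lift_free (n := n) (isAct_aM S (RR S))
    (fun j x v => iS w S v = if j = j0 then iS w K (u1 w K (gof x) x0) else 0)
    (fun j x => ⟨(((if j = j0 then iS w K (u1 w K (gof x) x0) else 0 : ℤ)) : RR S), by
      rw [iS_apply, map_intCast]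
      rfl⟩)
    (fun g hg j x v hv => by
      rw [aM_apply S _ hg, smul_eq_mul, iS_apply, map_mul, ew_of]
      rw [iS_apply] at hv
      rw [hv]
      change ((w g : ℤˣ) : ℤ) * _ = _
      split_ifs with h
      · rw [iS_u1, iS_u1]
        have h3 : g * x * x0⁻¹ ∈ K ↔ x * x0⁻¹ ∈ K := by
          rw [mul_assoc]
          exact Subgroup.mul_mem_cancel_left _ (hSK hg)
        by_cases h4 : x * x0⁻¹ ∈ K
        · rw [if_pos h4, if_pos (h3.2 h4), map_mul, Units.val_mul]
        · rw [if_neg h4, if_neg fun h => h4 (h3.1 h), mul_zero]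
      · rw [mul_zero])
  have hψ : ∀ (r : RR S) y, ψ (inc S r • y) = r • ψ y :=
    lin_of_equiv (fun g hg v => by rw [h1 g hg, aM_apply S _ hg])
  have h3 := ten_inj (w := w) (ι := Unit) (a := fun _ => iS w S) (y := fun _ => z)
    (fun j x => by
      rw [Finset.univ_unique, Finset.sum_singleton]
      exact hz j x) hψ
  rw [Finset.univ_unique, Finset.sum_singleton] at h3
  let A1 : (Fin n → RR G) →+ ℤ := AddMonoidHom.mk' (fun y => iS w K (u1 w K (y j0) x0))
    (fun y y' => by rw [Pi.add_apply, u1_add, map_add])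
  have h4 : (iS w S).comp ψ = A1 := by
    refine AddMonoidHom.ext fun y => ?_
    refine hom_ext (F := (iS w S).comp ψ) (F' := A1) (fun x j => ?_) y
    change iS w S (ψ (gof x • Pi.single j 1)) = iS w K (u1 w K ((gof x • Pi.single j 1 : Fin n → RR G) j0) x0)
    rw [h2]
    by_cases h : j = j0
    · rw [if_pos h, h, Pi.smul_apply, Pi.single_eq_same, smul_eq_mul, mul_one]
    · rw [if_neg h, Pi.smul_apply, Pi.single_eq_of_ne (Ne.symm h), smul_zero]
      unfold u1
      rw [zero_mul, map_zero, map_zero]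
  have h5 := DFunLike.congr_fun h4 z
  exact h5.symm.trans h3

theorem cz_unit {V : Type} [AddCommGroup V] (a : RR S →+ V) (z : Unit → (Fin n → RR G)) (j : Fin n)
    (x : G) : cz w S (fun _ : Unit => a) z j x = a (u1 w S (z () j) x) :=
  Fintype.sum_unique _

theorem aD_trivial (g : G) (hg : g ∈ K) (d : ℤ) : aD w (ew (wS w K)) g d = d := by
  rw [aD_apply _ hg, ew_dg, eps_of, mul_one]

/-- **Descent to a finitely generated subgroup.** -/
theorem exists_not_triv (hF : Full w e0 e1 e2 e3 d0 d1 d2)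
    (hex2 : ∀ v, v ᵥ* e2 = v → v ᵥ* d1 = 0 → ∃ u, u ᵥ* d2 = v)
    (hex1 : ∀ v, v ᵥ* dgM w e1 = v → v ᵥ* dgM w d1 = 0 → ∃ u, u ᵥ* dgM w d0 = v)
    [hG : Group.FG G] [Infinite (G ⧸ K)]
    (hcoh : ∀ T : Subgroup G, T ≤ K → T.FG → ∀ (m : ℕ) (h : Fin m → T),
      Subgroup.closure (Set.range h) = ⊤ → Module.Finite (RR T) (LinearMap.ker (bd h)))
    {F : G → ℤ} (hFK : ∀ k ∈ K, ∀ x, F (k * x) = F x) (hFa : AI' K F)
    (hne : ∀ v, ¬ SF K {x | F x ≠ v}) :
    ∃ (S : Subgroup G) (m : ℕ) (h : Fin m → S), S ≤ K ∧ Subgroup.closure (Set.range h) = ⊤ ∧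
      ¬ Triv h := by
  have hL := hF.low
  obtain ⟨ε, hε, ⟨u, hu, hεu⟩, hεd, hεex⟩ := hL.aug
  have hcI : ∀ j, mv d0 (fun j => ε (e0 j) • F) j ∈ Ind w (ew (wS w K)) := by
    intro j
    refine ⟨?_, ?_⟩
    · refine Stable.mv (stable_EqS K (aD w (ew (wS w K)))) d0 (fun j g hg x => ?_) j
      rw [aD_trivial g hg]
      change ε (e0 j) • F (g * x) = ε (e0 j) • F x
      rw [hFK g hg]
    · have h1 := evf_almost hFa hε e0 (d0 j)
      have h2 : ε (d0 j ᵥ* e0) = 0 := by
        have h3 : d0 j ᵥ* e0 = d0 j := congrFun hL.d0e0 j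
        rw [h3]
        have h4 := hεd (Pi.single j 1)
        rwa [Matrix.single_one_vecMul] at h4
      rw [h2, zero_smul, sub_zero, evf_row] at h1
      exact h1
  obtain ⟨ι, _, a, z', hz'⟩ := exists_tensor (ew (wS w K)) hcI
  let z0 : Fin n → RR G := ∑ k, a k • z' k
  have hz0 : mv d0 (fun j => ε (e0 j) • F) = cz w K (fun _ : Unit => iS w K) (fun _ => z0) := by
    funext j x
    rw [hz', cz_unit]
    have h1 : z0 j = ∑ k, a k • z' k j := by
      change (∑ k, a k • z' k) j = _
      rw [Finset.sum_apply]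
      rfl
    rw [h1, u1_sum, map_sum]
    exact Finset.sum_congr rfl fun k _ => by rw [u1_zsmul, map_zsmul, smul_eq_mul]; rfl
  let z : Fin n → RR G := z0 ᵥ* dgM w e1
  have hz : mv d0 (fun j => ε (e0 j) • F) = cz w K (fun _ : Unit => iS w K) (fun _ => z) := by
    have h1 := mv_cz (w := w) (S := K) (a := fun _ : Unit => iS w K) e1 (fun _ => z0)
    rw [← hz0, ← mv_mul, hL.e1d0] at h1
    exact h1
  have hzd : ∀ j x, iS w K (u1 w K ((z ᵥ* dgM w d1) j) x) = 0 := by
    intro j x
    have h1 := mv_cz (w := w) (S := K) (a := fun _ : Unit => iS w K) d1 (fun _ => z)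
    rw [← hz, ← mv_mul, hL.dd, mv_zero_left] at h1
    have h2 := congrFun (congrFun h1 j) x
    rw [cz_unit] at h2
    exact h2.symm
  choose E hE1 hE2 using fun j => exists_fin (hzd j)
  let E0 : Finset G := Finset.univ.biUnion E
  let S : Subgroup G := Subgroup.closure (E0 : Set G)
  have hSK : S ≤ K := by
    rw [Subgroup.closure_le]
    intro g hg
    obtain ⟨j, -, hj⟩ := Finset.mem_biUnion.1 (Finset.mem_coe.1 hg)
    exact hE1 j g hj
  have hSfg : S.FG := ⟨E0, rfl⟩
  have : Infinite (G ⧸ S) := infinite_quot hSK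
  obtain ⟨m, h, hgen⟩ := exists_gens (H := S) ((Group.fg_iff_subgroup_fg S).2 hSfg)
  refine ⟨S, m, h, hSK, hgen, fun hT => ?_⟩
  have hfin := hcoh S hSK hSfg m h hgen
  obtain ⟨C⟩ := exists_cmp hF h hgen hfin (projective_ker hF hex2 h hgen)
  have hSd : ∀ j x, iS w S (u1 w S ((z ᵥ* dgM w d1) j) x) = 0 := fun j x =>
    hE2 j S hSK (fun g hg => Subgroup.subset_closure
      (Finset.mem_coe.2 (Finset.mem_biUnion.2 ⟨j, Finset.mem_univ _, hg⟩))) x
  obtain ⟨l, W, hlW⟩ := C.core hF hex1 (ι := Unit) (a := fun _ => iS w S) (z := fun _ => z)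
    (fun _ => by
      change z0 ᵥ* dgM w e1 ᵥ* dgM w e1 = z0 ᵥ* dgM w e1
      rw [vm_vm, hF.colow.ee2]) (by
      funext j x
      rw [cz_unit]
      exact hSd j x)
  have h6 : ∀ j x, iS w S (u1 w S ((z + W () ᵥ* dgM w d0) j) x) = 0 := by
    intro j x
    have h7 := hlW j x
    rw [ds_of_triv hT (C.c j x), map_zero, cz_unit, cz_unit] at h7
    rw [Pi.add_apply, u1_add, map_add]
    exact h7.symm
  have h8 : ∀ j x, iS w K (u1 w K ((z + W () ᵥ* dgM w d0) j) x) = 0 :=
    fun j x => vanish_up hSK h6 j x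
  let B : Fin n → (G → ℤ) := (fun j => ε (e0 j) • F) + cz w K (fun _ : Unit => iS w K) W
  have hB : mv d0 B = 0 := by
    change mv d0 (_ + _) = 0
    rw [mv_add, hz, mv_cz, ← cz_add]
    funext j x
    rw [cz_unit]
    exact h8 j x
  have hyg : ∀ g : G, ∃ y, y ᵥ* d0 = gof g • u - u := fun g =>
    hεex (gof g • u - u) (by rw [Matrix.sub_vecMul, smul_vm, hu]) (by rw [map_sub, hε, sub_self])
  have hconst : ∀ x, evf B u x = evf B u 1 := by
    intro x
    obtain ⟨y, hy⟩ := hyg x
    have h1 : tr ℤ x (evf B u) - evf B u = 0 := by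
      have h2 : tr ℤ x (evf B u) - evf B u = evf (mv d0 B) y := by
        rw [← evf_vecMul, hy, evf_sub, evf_smul, rho_of]
      rw [h2, hB]
      unfold evf
      exact Finset.sum_eq_zero fun j _ => by rw [Pi.zero_apply, map_zero]
    rw [sub_eq_zero] at h1
    have h3 := congrFun h1 1
    rwa [tr_apply, one_mul] at h3
  apply hne (evf B u 1)
  have h9 : (fun x => F x - evf B u 1) ∈ IV K ℤ := by
    have h10 : (fun x => F x - evf B u 1) =
        -((evf (fun j => ε (e0 j) • F) u - ε (u ᵥ* e0) • F) +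
          evf (cz w K (fun _ : Unit => iS w K) W) u) := by
      funext x
      have h11 : evf B u = evf (fun j => ε (e0 j) • F) u +
          evf (cz w K (fun _ : Unit => iS w K) W) u := by
        change evf (_ + _) u = _
        unfold evf
        rw [← Finset.sum_add_distrib]
        exact Finset.sum_congr rfl fun j _ => by rw [Pi.add_apply, map_add]
      rw [← hconst x, h11, hu, hεu, one_smul]
      simp only [Pi.sub_apply, Pi.add_apply, Pi.neg_apply]
      ring
    rw [h10]
    exact Submodule.neg_mem _ (Submodule.add_mem _ (evf_almost hFa hε e0 u)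
      (evf_mem stable_IV (cz_mem _) _))
  refine (mem_IV_iff.1 h9).mono ?_
  intro x hx h12
  exact hx (sub_eq_zero.1 h12)

end

end Pool.Agent.H26.PD.PS
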