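import Pool.Agent.H26.PS.Alg2

/-!
A criterion for a group to be a `PD_2`-group.
-/

set_option autoImplicit false
set_option linter.unusedSectionVars false

namespace Pool.Agent.H26.PD.PS

open Pool.Agent.Helper386.PD3 Pool.Agent.H26.PD.PN Pool.Agent.H26.PD.PK
open Pool.Agent.Helper158
open scoped Classical Matrix

noncomputable section

variable {T : Type} [Group T] {m : ℕ}

theorem reso_PF (h : Fin m → T) (hgen : Subgroup.closure (Set.range h) = ⊤) :
    Reso (PF h) (dF h) (eps (G := T)).toAddMonoidHom := by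
  refine ⟨?_, ?_, ?_, ?_⟩
  · intro k
    refine ⟨(k : RR T), ?_⟩
    change eps (k : RR T) = k
    rw [map_intCast]
    rfl
  · intro g (x : RR T)
    change eps (gof g * x) = eps x
    rw [map_mul, eps_of, one_mul]
  · intro x
    change eps x = 0 ↔ x ∈ LinearMap.range (bd h)
    constructor
    · intro hx
      exact bd_surj' h hgen hx
    · rintro ⟨y, rfl⟩
      exact bd_mem h y
  · intro i x
    match i, x with
    | 0, x =>
      change bd h x = 0 ↔ x ∈ LinearMap.range (LinearMap.ker (bd h)).subtype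
      rw [Submodule.range_subtype]
      exact Iff.rfl
    | 1, x =>
      change (LinearMap.ker (bd h)).subtype x = 0 ↔
        x ∈ LinearMap.range (0 : PF h 3 →ₗ[RR T] PF h 2)
      rw [LinearMap.range_zero, Submodule.mem_bot]
      exact map_eq_zero_iff _ (Submodule.subtype_injective _)
    | 2, x =>
      have hs : Subsingleton (PF h 3) := inferInstanceAs (Subsingleton PUnit)
      constructor
      · intro _
        exact ⟨0, Subsingleton.elim _ _⟩
      · intro _
        rfl
    | i + 3, x =>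
      have hs : Subsingleton (PF h (i + 4)) := inferInstanceAs (Subsingleton PUnit)
      constructor
      · intro _
        exact ⟨0, Subsingleton.elim _ _⟩
      · intro _
        rfl

/-- an element fixed by an infinite group vanishes -/
theorem eq_zero_of_fixed (hT : Infinite T) {c : RR T} (hc : ∀ t : T, gof t * c = c) : c = 0 := by
  by_contra hne
  have h1 : ∀ t s : T, c.coeff (t⁻¹ * s) = c.coeff s := by
    intro t s
    have h2 := congrArg (fun z : RR T => z.coeff s) (hc t)
    have h3 : (gof t * c : RR T).coeff s = c.coeff (t⁻¹ * s) := by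
      change (MonoidAlgebra.single t (1 : ℤ) * c).coeff s = _
      rw [MonoidAlgebra.coeff_single_mul_apply, one_mul]
    rw [← h3]
    exact h2
  obtain ⟨s, hs⟩ : ∃ s, c.coeff s ≠ 0 := by
    by_contra h
    push Not at h
    exact hne (MonoidAlgebra.coeff_injective (Finsupp.ext h))
  have h2 : ∀ s', c.coeff s' ≠ 0 := by
    intro s'
    have h3 := h1 (s' * s⁻¹) s'
    have h4 : (s' * s⁻¹)⁻¹ * s' = s := by group
    rw [h4] at h3
    rw [← h3]
    exact hs
  have h3 : (Set.univ : Set T).Finite :=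
    c.coeff.support.finite_toSet.subset fun s' _ => Finset.mem_coe.2 (Finsupp.mem_support_iff.2 (h2 s'))
  exact Set.infinite_univ h3

/-- a nonzero subgroup of the integers -/
theorem equiv_int {H : AddSubgroup ℤ} (hH : H ≠ ⊥) : Nonempty (H ≃+ ℤ) := by
  obtain ⟨a, rfl⟩ : ∃ a, H = AddSubgroup.zmultiples a := by
    obtain ⟨a, ha⟩ := Int.subgroup_cyclic H
    exact ⟨a, by rw [ha, AddSubgroup.zmultiples_eq_closure]⟩
  have ha : a ≠ 0 := by
    rintro rfl
    exact hH (AddSubgroup.zmultiples_zero_eq_bot)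
  refine ⟨(AddEquiv.ofBijective (AddMonoidHom.mk' (fun k : ℤ =>
    (⟨k • a, AddSubgroup.zsmul_mem_zmultiples a k⟩ : AddSubgroup.zmultiples a)) ?_) ⟨?_, ?_⟩).symm⟩
  · intro x y
    apply Subtype.ext
    exact add_smul _ _ _
  · intro x y hxy
    have h1 : x • a = y • a := congrArg Subtype.val hxy
    rw [smul_eq_mul, smul_eq_mul] at h1
    exact mul_right_cancel₀ ha h1
  · rintro ⟨_, k, rfl⟩
    exact ⟨k, rfl⟩

/-- `PD_2`-groups -/
def PD2 (T : Type) [Group T] : Prop :=
  TypeFP T ∧ (∀ i : ℕ, i ≠ 2 → Subsingleton (groupCohomology (Rep.leftRegular ℤ T) i)) ∧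
    Nonempty (groupCohomology (Rep.leftRegular ℤ T) 2 ≃+ ℤ)

/-- **The criterion.** -/
theorem pd2_of (hT : Infinite T) (h : Fin m → T) (hgen : Subgroup.closure (Set.range h) = ⊤)
    (h1 : Module.Finite (RR T) (LinearMap.ker (bd h)))
    (h2 : Module.Projective (RR T) (LinearMap.ker (bd h))) (hOE : OEd h)
    (L : (LinearMap.ker (bd h) →ₗ[RR T] RR T) →+ ℤ)
    (hL : ∀ φ, L φ = 0 ↔ ∃ c : Fin m → RR T, ∀ x : LinearMap.ker (bd h), φ x = ∑ b, x.1 b * c b)
    (hne : ∃ φ : LinearMap.ker (bd h) →ₗ[RR T] RR T,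
      ¬ ∃ c : Fin m → RR T, ∀ x : LinearMap.ker (bd h), φ x = ∑ b, x.1 b * c b) : PD2 T := by
  have hR := reso_PF h hgen
  have hproj : ∀ i, Module.Projective (MonoidAlgebra ℤ T) (PF h i) := by
    intro i
    match i with
    | 0 => exact inferInstanceAs (Module.Projective (RR T) (RR T))
    | 1 => exact inferInstanceAs (Module.Projective (RR T) (Fin m → RR T))
    | 2 => exact h2
    | _ + 3 => exact inferInstanceAs (Module.Projective (RR T) PUnit)
  have hsub : ∀ i, (∀ f : PF h i →ₗ[MonoidAlgebra ℤ T] MonoidAlgebra ℤ T,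
      f ∘ₗ dF h i = 0 → IsCob (dF h) i f) →
      Subsingleton (groupCohomology (Rep.leftRegular ℤ T) i) := by
    intro i hi
    obtain ⟨π, hπ1, hπ2⟩ := hR.coh i
    refine ⟨fun x y => ?_⟩
    obtain ⟨x, rfl⟩ := hπ1 x
    obtain ⟨y, rfl⟩ := hπ1 y
    rw [(hπ2 x).2 (hi _ x.2), (hπ2 y).2 (hi _ y.2)]
  refine ⟨fp_of_ker h hgen h1 h2, ?_, ?_⟩
  · intro i hi
    match i, hi with
    | 0, _ =>
      refine hsub 0 fun f hf => ?_
      change f = 0
      obtain ⟨f', hff⟩ : ∃ f' : RR T →ₗ[RR T] RR T, f' = f := ⟨f, rfl⟩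
      have hf' : ∀ x : Fin m → RR T, f' (bd h x) = 0 := fun x => by
        rw [hff]
        exact LinearMap.congr_fun hf x
      have hc : f' 1 = 0 := by
        refine eq_zero_of_fixed hT fun t => ?_
        obtain ⟨z, hz⟩ := bd_surj' h hgen (r := gof t - 1) (by
          rw [map_sub, eps_of, map_one, sub_self])
        have h3 := hf' z
        rw [hz, map_sub, sub_eq_zero] at h3
        rw [← smul_eq_mul, ← map_smul, smul_eq_mul, mul_one, h3]
      have h5 : f' = 0 := by
        refine LinearMap.ext fun x => ?_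
        have h4 : x = x • (1 : RR T) := (mul_one x).symm
        rw [h4, map_smul, hc, smul_zero]
        rfl
      rw [← hff, h5]
      rfl
    | 1, _ =>
      refine hsub 1 fun f hf => ?_
      obtain ⟨c, hc⟩ := hOE (f : (Fin m → RR T) →ₗ[RR T] RR T) (fun x hx =>
        LinearMap.congr_fun hf (⟨x, hx⟩ : LinearMap.ker (bd h)))
      refine ⟨LinearMap.toSpanSingleton (RR T) (RR T) c, ?_⟩
      refine LinearMap.ext fun x => ?_
      exact (hc x).symm
    | 2, hi => exact absurd rfl hi
    | 3, _ =>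
      refine hsub 3 fun f hf => ⟨0, ?_⟩
      have hs : Subsingleton (PF h 3) := inferInstanceAs (Subsingleton PUnit)
      refine LinearMap.ext fun x => ?_
      rw [Subsingleton.elim x 0, map_zero, map_zero]
    | i + 4, _ =>
      refine hsub (i + 4) fun f hf => ⟨0, ?_⟩
      have hs : Subsingleton (PF h (i + 4)) := inferInstanceAs (Subsingleton PUnit)
      refine LinearMap.ext fun x => ?_
      rw [Subsingleton.elim x 0, map_zero, map_zero]
  · obtain ⟨π, hπ1, hπ2⟩ := hR.coh 2
    let L' : cocyc (dF h) 2 →+ ℤ := L.comp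
      ((cocyc (dF h) 2).subtype : cocyc (dF h) 2 →+ (PF h 2 →ₗ[MonoidAlgebra ℤ T] MonoidAlgebra ℤ T))
    have hcob : ∀ f : PF h 2 →ₗ[MonoidAlgebra ℤ T] MonoidAlgebra ℤ T,
        IsCob (dF h) 2 f ↔ ∃ c : Fin m → RR T, ∀ x : LinearMap.ker (bd h),
          (f : LinearMap.ker (bd h) →ₗ[RR T] RR T) x = ∑ b, x.1 b * c b := by
      intro f
      constructor
      · rintro ⟨g, hg⟩
        obtain ⟨g', hgg⟩ : ∃ g' : (Fin m → RR T) →ₗ[RR T] RR T, g' = g := ⟨g, rfl⟩
        refine ⟨fun b => g' (Pi.single b 1), fun x => ?_⟩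
        have h3 : (f : LinearMap.ker (bd h) →ₗ[RR T] RR T) x = g' x.1 := by
          rw [hgg]
          exact (LinearMap.congr_fun hg x).symm
        refine h3.trans ?_
        conv_lhs => rw [eq_lm g', lm_apply]
      · rintro ⟨c, hc⟩
        refine ⟨lm c, ?_⟩
        refine LinearMap.ext fun x => ?_
        exact (hc x).symm
    have hker : π.ker = L'.ker := by
      ext x
      rw [AddMonoidHom.mem_ker, AddMonoidHom.mem_ker, hπ2, hcob]
      exact (hL _).symm
    have hL' : L'.range ≠ ⊥ := by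
      obtain ⟨φ, hφ⟩ := hne
      intro h3
      apply hφ
      rw [← hL]
      have h4 : L φ ∈ L'.range := by
        refine ⟨⟨φ, ?_⟩, rfl⟩
        refine LinearMap.ext fun x => ?_
        have hs : Subsingleton (PF h 3) := inferInstanceAs (Subsingleton PUnit)
        rw [Subsingleton.elim x 0, map_zero, map_zero]
      rw [h3] at h4
      exact h4
    obtain ⟨e⟩ := equiv_int hL'
    exact ⟨(QuotientAddGroup.quotientKerEquivOfSurjective π hπ1).symm.trans
      ((QuotientAddGroup.quotientAddEquivOfEq hker).trans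
        ((QuotientAddGroup.quotientKerEquivRange L').trans e))⟩

end

end Pool.Agent.H26.PD.PS
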