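import Pool.Agent.H26.PS.Comp

/-!
The permutation module of a component, and the finite generation of its stabilizer.
-/

set_option autoImplicit false
set_option linter.unusedSectionVars false

namespace Pool.Agent.H26.PD.PS

open Pool.Agent.Helper386.PD3 Pool.Agent.H26.PD.PN Pool.Agent.H26.PD.PK
open scoped Classical Matrix

noncomputable section

variable {G : Type} [Group G] {S U : Subgroup G} {V : Type} [AddCommGroup V]

/-- the left ideal of a subgroup -/
def JI (S U : Subgroup G) : Submodule (RR S) (RR S) :=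
  Submodule.span (RR S) {r | ∃ u : S, (u : G) ∈ U ∧ r = gof u - 1}

/-- the permutation module -/
abbrev PM (S U : Subgroup G) : Type := RR S ⧸ JI S U

/-- the projection -/
def pm (S U : Subgroup G) : RR S →ₗ[RR S] PM S U := (JI S U).mkQ

theorem pm_surj (S U : Subgroup G) : Function.Surjective (pm S U) := Submodule.mkQ_surjective _

theorem pm_smul_one (r : RR S) : r • pm S U 1 = pm S U r := by
  rw [← map_smul, smul_eq_mul, mul_one]

theorem pm_gof {u : S} (hu : (u : G) ∈ U) : pm S U (gof u) = pm S U 1 := by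
  rw [← sub_eq_zero, ← map_sub]
  exact (Submodule.Quotient.mk_eq_zero _).2 (Submodule.subset_span ⟨u, hu, rfl⟩)

theorem pm_gof_mul (s : S) {u : S} (hu : (u : G) ∈ U) :
    pm S U (gof (s * u)) = pm S U (gof s) := by
  rw [gof_mul, ← smul_eq_mul, map_smul, pm_gof hu, pm_smul_one]

/-- the indicator of a subgroup on the group ring -/
def th (S U : Subgroup G) : RR S →+ ℤ := af S (fun s : S => if (s : G) ∈ U then (1 : ℤ) else 0)

theorem th_JI {r : RR S} (hr : r ∈ JI S U) : th S U r = 0 := by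
  induction hr using Submodule.span_induction with
  | mem x hx =>
    obtain ⟨u, hu, rfl⟩ := hx
    have h1 : (gof u - 1 : RR S) = gof u - gof 1 := by rw [gof_one]
    rw [h1, map_sub]
    unfold th
    rw [af_gof, af_gof, if_pos hu, if_pos (show ((1 : S) : G) ∈ U from U.one_mem), sub_self]
  | zero => exact map_zero _
  | add x y _ _ hx hy => rw [map_add, hx, hy, add_zero]
  | smul a x hx' hx =>
    clear hx
    -- left translates
    have key : ∀ x ∈ JI S U, ∀ s : S, th S U (gof s * x) = 0 := by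
      intro x hx
      have h2 : ∀ x ∈ JI S U, ∀ a : RR S, th S U (a * x) = 0 := by
        intro x hx
        induction hx using Submodule.span_induction with
        | mem x hx =>
          obtain ⟨u, hu, rfl⟩ := hx
          intro a
          induction a using rr_ind with
          | h1 g =>
            rw [mul_sub, mul_one, ← gof_mul, map_sub]
            unfold th
            rw [af_gof, af_gof]
            have h3 : ((g * u : S) : G) ∈ U ↔ (g : G) ∈ U := by
              rw [Subgroup.coe_mul]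
              exact Subgroup.mul_mem_cancel_right _ hu
            by_cases h4 : (g : G) ∈ U
            · rw [if_pos h4, if_pos (h3.2 h4), sub_self]
            · rw [if_neg h4, if_neg fun h => h4 (h3.1 h), sub_self]
          | h2 x y hx hy => rw [add_mul, map_add, hx, hy, add_zero]
          | h3 x hx => rw [neg_mul, map_neg, hx, neg_zero]
        | zero => intro a; rw [mul_zero, map_zero]
        | add x y _ _ hx hy => intro a; rw [mul_add, map_add, hx, hy, add_zero]
        | smul b x _ hx => intro a; rw [smul_eq_mul, ← mul_assoc]; exact hx _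
      intro s
      exact h2 x hx _
    have h2 : ∀ a : RR S, th S U (a * x) = 0 := by
      intro a
      induction a using rr_ind with
      | h1 g => exact key x hx' g
      | h2 y z hy hz => rw [add_mul, map_add, hy, hz, add_zero]
      | h3 y hy => rw [neg_mul, map_neg, hy, neg_zero]
    exact h2 a

theorem mem_of_JI {u : S} (h : (gof u - 1 : RR S) ∈ JI S U) : (u : G) ∈ U := by
  by_contra hu
  have h1 := th_JI h
  have h2 : (gof u - 1 : RR S) = gof u - gof 1 := by rw [gof_one]
  rw [h2, map_sub] at h1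
  unfold th at h1
  rw [af_gof, af_gof, if_neg hu, if_pos (show ((1 : S) : G) ∈ U from U.one_mem)] at h1
  norm_num at h1

/-- a subgroup is finitely generated if its left ideal is -/
theorem fg_of_JI (hU : U ≤ S) (h : (JI S U).FG) : U.FG := by
  obtain ⟨F, hF, hspan⟩ := (Submodule.fg_span_iff_fg_span_finset_subset _).1 h
  have hch : ∀ r : RR S, ∃ u : S, r ∈ F → (u : G) ∈ U ∧ r = gof u - 1 := by
    intro r
    by_cases hr : r ∈ F
    · obtain ⟨u, hu⟩ := hF hr
      exact ⟨u, fun _ => hu⟩
    · exact ⟨1, fun h => absurd h hr⟩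
  choose u hu using hch
  refine ⟨F.image fun r => (u r : G), ?_⟩
  rw [Finset.coe_image]
  apply le_antisymm
  · rw [Subgroup.closure_le]
    rintro _ ⟨r, hr, rfl⟩
    exact (hu r hr).1
  · intro x hx
    have h1 : (gof (⟨x, hU hx⟩ : S) - 1 : RR S) ∈ JI S U :=
      Submodule.subset_span ⟨⟨x, hU hx⟩, hx, rfl⟩
    have h2 : JI S U ≤ JI S (Subgroup.closure ((fun r => (u r : G)) '' (F : Set (RR S)))) := by
      change Submodule.span _ _ ≤ _
      rw [hspan, Submodule.span_le]
      intro r hr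
      exact Submodule.subset_span ⟨u r, Subgroup.subset_closure ⟨r, hr, rfl⟩, (hu r hr).2⟩
    exact mem_of_JI (h2 h1)

variable {T0 : Finset G} {Φ : Set (G ⧸ S)}

/-- the function defined by the translates of a component -/
def FX (S : Subgroup G) (T0 : Finset G) (Φ : Set (G ⧸ S)) (x y : G) : PM S (st S T0 Φ x) :=
  if h : ∃ s : S, ((s⁻¹ : S) : G) * y ∈ cl S T0 Φ x then pm S _ (gof h.choose) else 0

theorem FX_eq {x y : G} {s : S} (h : ((s⁻¹ : S) : G) * y ∈ cl S T0 Φ x) :
    FX S T0 Φ x y = pm S _ (gof s) := by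
  have h0 : ∃ s : S, ((s⁻¹ : S) : G) * y ∈ cl S T0 Φ x := ⟨s, h⟩
  unfold FX
  rw [dif_pos h0]
  have h1 := h0.choose_spec
  set s' := h0.choose
  have h2 : ((s⁻¹ * s' : S) : G) * (((s'⁻¹ : S) : G) * y) ∈ cl S T0 Φ x := by
    have h3 : ((s⁻¹ * s' : S) : G) * (((s'⁻¹ : S) : G) * y) = ((s⁻¹ : S) : G) * y := by
      simp only [Subgroup.coe_mul, Subgroup.coe_inv]
      group
    rw [h3]
    exact h
  have h4 := (mul_mem_cl (s⁻¹ * s' : S).2 h1).1 h2
  have h5 := pm_gof_mul s h4
  rwa [mul_inv_cancel_left] at h5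

theorem FX_eq_zero {x y : G} (h : ∀ s : S, ((s⁻¹ : S) : G) * y ∉ cl S T0 Φ x) :
    FX S T0 Φ x y = 0 := by
  unfold FX
  rw [dif_neg]
  push Not
  exact h

theorem FX_self {x y : G} (h : y ∈ cl S T0 Φ x) : FX S T0 Φ x y = pm S _ 1 := by
  rw [FX_eq (s := 1) (by rwa [inv_one, Subgroup.coe_one, one_mul]), gof_one]

theorem FX_mul (s : S) (x y : G) : FX S T0 Φ x (s * y) = gof s • FX S T0 Φ x y := by
  by_cases h : ∃ s' : S, ((s'⁻¹ : S) : G) * y ∈ cl S T0 Φ x
  · obtain ⟨s', hs'⟩ := h
    rw [FX_eq hs', FX_eq (s := s * s') (by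
      have h3 : (((s * s')⁻¹ : S) : G) * ((s : G) * y) = ((s'⁻¹ : S) : G) * y := by
        simp only [Subgroup.coe_mul, Subgroup.coe_inv]
        group
      rw [h3]
      exact hs'), gof_mul, ← smul_eq_mul, map_smul]
  · push Not at h
    rw [FX_eq_zero h, smul_zero, FX_eq_zero]
    intro s'
    have h3 : ((s'⁻¹ : S) : G) * ((s : G) * y) = (((s⁻¹ * s')⁻¹ : S) : G) * y := by
      simp only [Subgroup.coe_mul, Subgroup.coe_inv]
      group
    rw [h3]
    exact h _

theorem FX_cl {x y z : G} (h : z ∈ cl S T0 Φ y) : FX S T0 Φ x z = FX S T0 Φ x y := by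
  by_cases h' : ∃ s' : S, ((s'⁻¹ : S) : G) * y ∈ cl S T0 Φ x
  · obtain ⟨s', hs'⟩ := h'
    rw [FX_eq hs', FX_eq (cl_trans hs' (cl_left (s'⁻¹ : S).2 h))]
  · push Not at h'
    rw [FX_eq_zero h', FX_eq_zero]
    intro s' hs'
    exact h' s' (cl_trans hs' (cl_symm (cl_left (s'⁻¹ : S).2 h)))

theorem FX_ai (hT0 : Subgroup.closure (T0 : Set G) = ⊤) (hΦ : Φ.Finite) (x : G) :
    AI' S (FX S T0 Φ x) := by
  refine ai_of_gens hT0 fun t ht => ?_
  rw [mem_IV_iff]
  refine hΦ.subset ?_
  rintro _ ⟨y, hy, rfl⟩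
  by_contra h
  apply hy
  rw [Pi.sub_apply, tr_apply, FX_cl (cl_edge ht h), sub_self]

variable {D : Type} [AddCommGroup D] [Module (RR S) D] {f : G → D}

theorem SF.smul {X : Set G} (h : SF S X) (s : S) : SF S {x | (s : G) * x ∈ X} := by
  refine Set.Finite.subset h ?_
  rintro _ ⟨x, hx, rfl⟩
  exact ⟨_, hx, qS_left s.2 x⟩

/-- the map which is dual to an equivariant function is linear -/
theorem lin_of_ex (hA : AD S D f) {M : Type} [AddCommGroup M] [Module (RR S) M] {F : G → M}
    (hF : ∀ (s : S) y, F (s * y) = gof s • F y) {l : D →+ M} {v : M}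
    (hl : SF S {x | l (f x) ≠ F x + v}) (r : RR S) (q : D) : l (r • q) = r • l q := by
  induction r using rr_ind with
  | h1 s =>
    let ls : D →+ M := AddMonoidHom.mk' (fun q => (gof s⁻¹ : RR S) • l ((gof s : RR S) • q) - l q)
      (fun q q' => by
        rw [smul_add, map_add, map_add, smul_add]
        abel)
    have h1 : ls = 0 := by
      refine hA.uniq ls ((gof s⁻¹ : RR S) • (v - l (f (s * 1) - (gof s : RR S) • f 1)) - v)
        ((hl.union (hl.smul s)).mono ?_)
      intro x hx
      by_contra hcon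
      rw [Set.mem_union, not_or] at hcon
      obtain ⟨h1, h2⟩ := hcon
      rw [Set.mem_ofPred_eq, not_not] at h1
      rw [Set.mem_ofPred_eq, Set.mem_ofPred_eq, not_not] at h2
      apply hx
      change (gof s⁻¹ : RR S) • l ((gof s : RR S) • f x) - l (f x) = _
      have h3 : (gof s : RR S) • f x = f (s * x) - (f (s * 1) - (gof s : RR S) • f 1) := by
        have h4 := hA.aff s x 1
        rw [smul_sub] at h4
        rw [sub_sub_eq_add_sub, eq_sub_iff_add_eq]
        rw [sub_eq_sub_iff_add_eq_add] at h4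
        rw [← h4]
      rw [h3, map_sub, h2, h1, hF]
      have h5 : (gof s⁻¹ : RR S) • ((gof s : RR S) • F x) = F x := by
        rw [smul_smul, ← gof_mul, inv_mul_cancel, gof_one, one_smul]
      simp only [smul_sub, smul_add, h5]
      abel
    have h2 : (gof s⁻¹ : RR S) • l ((gof s : RR S) • q) = l q :=
      sub_eq_zero.1 (DFunLike.congr_fun h1 q)
    have h3 : (gof s : RR S) • ((gof s⁻¹ : RR S) • l ((gof s : RR S) • q)) =
        l ((gof s : RR S) • q) := by
      rw [smul_smul, ← gof_mul, mul_inv_cancel, gof_one, one_smul]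
    rw [← h3, h2]
  | h2 x y hx hy => rw [add_smul, map_add, hx, hy, add_smul]
  | h3 x hx => rw [neg_smul, map_neg, hx, neg_smul]

/-- **The stabilizers of components are finitely generated.** -/
theorem st_fg (hA : AD S D f) (hT0 : Subgroup.closure (T0 : Set G) = ⊤) (hΦ : Adm T0 f Φ)
    (hD : Module.FinitePresentation (RR S) D) {m : ℕ} (h : Fin m → S)
    (hgen : Subgroup.closure (Set.range h) = ⊤) {x : G} (hx : ¬ SF S (cl S T0 Φ x)) :
    (st S T0 Φ x).FG := by
  obtain ⟨l, v, hlv⟩ := hA.ex _ (FX_ai hT0 hΦ.1 x)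
  have hl := lin_of_ex hA (FX_mul (S := S) (T0 := T0) (Φ := Φ) · x) hlv
  let δ : S → D := fun s => f (s * x) - f x
  have hδ : ∀ s, δ s = f (s * x) - f x := fun _ => rfl
  have hδmul : ∀ s t : S, δ (s * t) = gof s • δ t + δ s := by
    intro s t
    rw [hδ, hδ, hδ, ← hA.aff, Subgroup.coe_mul, mul_assoc]
    abel
  have hlδ : ∀ s, l (δ s) = pm S _ (gof s) - pm S _ 1 := by
    intro s
    obtain ⟨y, hy, hy'⟩ := exists_notSF hx hlv
    have h1 : δ s = f (s * y) - f y := by
      rw [hδ, hΦ.const hy, hΦ.const (cl_left s.2 hy)]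
    have h2 := hy' s s.2
    have h3 := hy' 1 S.one_mem
    rw [one_mul, Set.mem_ofPred_eq, not_not] at h3
    rw [Set.mem_ofPred_eq, not_not] at h2
    rw [h1, map_sub, h2, h3, FX_mul, FX_self hy, pm_smul_one]
    abel
  let N0 : Submodule (RR S) (D × RR S) :=
    Submodule.span (RR S) (Set.range fun b => (δ (h b), -(gof (h b) - 1 : RR S)))
  have hN0 : ∀ s : S, ((δ s, -(gof s - 1 : RR S)) : D × RR S) ∈ N0 := by
    intro s
    have hs : s ∈ Subgroup.closure (Set.range h) := by rw [hgen]; trivial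
    induction hs using Subgroup.closure_induction with
    | mem s hs =>
      obtain ⟨b, rfl⟩ := hs
      exact Submodule.subset_span ⟨b, rfl⟩
    | one =>
      have h1 : ((δ 1, -(gof 1 - 1 : RR S)) : D × RR S) = 0 := by
        rw [hδ, gof_one, sub_self, neg_zero, Subgroup.coe_one, one_mul, sub_self]
        rfl
      rw [h1]
      exact Submodule.zero_mem _
    | mul s t _ _ hs ht =>
      have h1 : ((δ (s * t), -(gof (s * t) - 1 : RR S)) : D × RR S) =
          (gof s : RR S) • (δ t, -(gof t - 1 : RR S)) + (δ s, -(gof s - 1 : RR S)) := by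
        refine Prod.ext (hδmul s t) ?_
        change -(gof (s * t) - 1 : RR S) = gof s * -(gof t - 1) + -(gof s - 1)
        rw [gof_mul, mul_neg, mul_sub, mul_one]
        abel
      rw [h1]
      exact Submodule.add_mem _ (Submodule.smul_mem _ _ ht) hs
    | inv s _ hs =>
      have h1 : ((δ s⁻¹, -(gof s⁻¹ - 1 : RR S)) : D × RR S) =
          -((gof s⁻¹ : RR S) • (δ s, -(gof s - 1 : RR S))) := by
        refine Prod.ext ?_ ?_
        · have h2 := hδmul s⁻¹ s
          rw [inv_mul_cancel] at h2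
          have h3 : δ 1 = 0 := by rw [hδ, Subgroup.coe_one, one_mul, sub_self]
          rw [h3] at h2
          exact eq_neg_of_add_eq_zero_right h2.symm
        · change -(gof s⁻¹ - 1 : RR S) = -(gof s⁻¹ * -(gof s - 1))
          rw [mul_neg, neg_neg, mul_sub, ← gof_mul, inv_mul_cancel, gof_one, mul_one]
          abel
      rw [h1]
      exact Submodule.neg_mem _ (Submodule.smul_mem _ _ hs)
  let Dp : Type := (D × RR S) ⧸ N0
  have hDp : Module.FinitePresentation (RR S) Dp := by
    refine Module.finitePresentation_of_surjective N0.mkQ (Submodule.mkQ_surjective _) ?_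
    rw [Submodule.ker_mkQ]
    exact Submodule.fg_span (Set.finite_range _)
  let ll : D →ₗ[RR S] PM S (st S T0 Φ x) :=
    { toFun := l
      map_add' := map_add l
      map_smul' := hl }
  let L0 : (D × RR S) →ₗ[RR S] PM S (st S T0 Φ x) := ll.coprod (pm S (st S T0 Φ x))
  have hL0 : N0 ≤ LinearMap.ker L0 := by
    rw [Submodule.span_le]
    rintro _ ⟨b, rfl⟩
    rw [SetLike.mem_coe, LinearMap.mem_ker]
    change l (δ (h b)) + pm S _ (-(gof (h b) - 1 : RR S)) = 0
    rw [hlδ, map_neg, map_sub]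
    abel
  let L : Dp →ₗ[RR S] PM S (st S T0 Φ x) := N0.liftQ L0 hL0
  have hE0 : JI S (st S T0 Φ x) ≤ LinearMap.ker (N0.mkQ.comp (LinearMap.inr (RR S) D (RR S))) := by
    change Submodule.span _ _ ≤ _
    rw [Submodule.span_le]
    rintro _ ⟨u, hu, rfl⟩
    rw [SetLike.mem_coe, LinearMap.mem_ker]
    refine (Submodule.Quotient.mk_eq_zero _).2 ?_
    have h1 : δ u = 0 := by
      rw [hδ, hΦ.const hu.2, sub_self]
    have h2 := Submodule.neg_mem _ (hN0 u)
    rw [h1] at h2
    have h3 : (-((0 : D), -(gof u - 1 : RR S)) : D × RR S) = (0, gof u - 1) :=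
      Prod.ext neg_zero (neg_neg _)
    rw [h3] at h2
    exact h2
  let E : PM S (st S T0 Φ x) →ₗ[RR S] Dp := (JI S (st S T0 Φ x)).liftQ _ hE0
  have hLE : ∀ q, L (E q) = q := by
    intro q
    obtain ⟨r, rfl⟩ := pm_surj S _ q
    change l 0 + pm S _ r = pm S _ r
    rw [map_zero, zero_add]
  have hfp : Module.FinitePresentation (RR S) (PM S (st S T0 Φ x)) := by
    refine Module.finitePresentation_of_surjective L (fun q => ⟨_, hLE q⟩) ?_
    have h1 : LinearMap.ker L = LinearMap.range (LinearMap.id - E.comp L) := by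
      ext q
      rw [LinearMap.mem_ker, LinearMap.mem_range]
      constructor
      · intro hq
        refine ⟨q, ?_⟩
        change q - E (L q) = q
        rw [hq, map_zero, sub_zero]
      · rintro ⟨q', rfl⟩
        change L (q' - E (L q')) = 0
        rw [map_sub, hLE, sub_self]
    rw [h1, LinearMap.range_eq_map]
    exact Module.Finite.fg_top.map _
  refine fg_of_JI (st_le x) ?_
  have h1 := Module.FinitePresentation.fg_ker (pm S (st S T0 Φ x)) (pm_surj S _)
  unfold pm at h1
  rwa [Submodule.ker_mkQ] at h1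

/-- **The retraction onto the permutation module.** -/
theorem exists_retract' (hA : AD S D f) (hT0 : Subgroup.closure (T0 : Set G) = ⊤)
    (hΦ : Adm T0 f Φ) {X : Set G} (hX : At S X) {x : G} (hx : ¬ SF S (cl S T0 Φ x))
    (hXx : SF S (X ∩ cl S T0 Φ x)) :
    ∃ (a : PM S (st S T0 Φ x) →ₗ[RR S] D) (b : D →ₗ[RR S] PM S (st S T0 Φ x)),
      ∀ q, b (a q) = q := by
  obtain ⟨l, v, hlv⟩ := hA.ex _ (FX_ai hT0 hΦ.1 x)
  have hl := lin_of_ex hA (FX_mul (S := S) (T0 := T0) (Φ := Φ) · x) hlv
  obtain ⟨v0, hv0⟩ := hX.atom f hA.inv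
  have hfe : ∀ (s : S) y, f (s * y) - v0 = gof s • (f y - v0) := by
    intro s y
    obtain ⟨z, hz, hz'⟩ := exists_notSF hX.inf hv0
    have h1 : ∀ s : S, f (s * z) = v0 := by
      intro s
      by_contra h
      exact hz' s s.2 ⟨(hX.left s s.2 z).2 hz, h⟩
    have h2 := hA.aff s y z
    have h3 := h1 1
    rw [Subgroup.coe_one, one_mul] at h3
    rw [h1, h3] at h2
    exact h2
  have hv : l v0 = v := by
    have h1 : SF S {z | z ∈ X ∧ ∃ s : S, ((s⁻¹ : S) : G) * z ∈ cl S T0 Φ x} := by
      refine Set.Finite.subset hXx ?_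
      rintro _ ⟨z, ⟨hz, s, hs⟩, rfl⟩
      exact ⟨_, ⟨(hX.left _ (s⁻¹ : S).2 z).2 hz, hs⟩, qS_left (s⁻¹ : S).2 z⟩
    obtain ⟨z, hz, hz'⟩ := exists_notSF hX.inf ((hv0.union h1).union hlv)
    have h2 := hz' 1 S.one_mem
    rw [one_mul, Set.mem_union, Set.mem_union, not_or, not_or] at h2
    obtain ⟨⟨h3, h4⟩, h5⟩ := h2
    have h6 : f z = v0 := by
      by_contra h
      exact h3 ⟨hz, h⟩
    have h7 : FX S T0 Φ x z = 0 := FX_eq_zero fun s hs => h4 ⟨hz, s, hs⟩
    rw [Set.mem_ofPred_eq, not_not, h6, h7, zero_add] at h5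
    exact h5
  have hld : l (f x - v0) = pm S _ 1 := by
    obtain ⟨y, hy, hy'⟩ := exists_notSF hx hlv
    have h3 := hy' 1 S.one_mem
    rw [one_mul, Set.mem_ofPred_eq, not_not] at h3
    rw [map_sub, hv, ← hΦ.const hy, h3, FX_self hy, add_sub_cancel_right]
  let a0 : RR S →ₗ[RR S] D := LinearMap.toSpanSingleton (RR S) D (f x - v0)
  have ha0 : JI S (st S T0 Φ x) ≤ LinearMap.ker a0 := by
    change Submodule.span _ _ ≤ _
    rw [Submodule.span_le]
    rintro _ ⟨u, hu, rfl⟩
    rw [SetLike.mem_coe, LinearMap.mem_ker]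
    change (gof u - 1 : RR S) • (f x - v0) = 0
    rw [sub_smul, one_smul, ← hfe, hΦ.const hu.2, sub_self]
  refine ⟨(JI S (st S T0 Φ x)).liftQ a0 ha0,
    { toFun := l
      map_add' := map_add l
      map_smul' := hl }, fun q => ?_⟩
  obtain ⟨r, rfl⟩ := pm_surj S _ q
  change l (r • (f x - v0)) = pm S _ r
  rw [hl, hld, pm_smul_one]

end

end Pool.Agent.H26.PD.PS
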