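import Pool.Agent.H26.PS.PD2
import Pool.Agent.H26.PS.Perm

/-!
Surface subgroups.
-/

set_option autoImplicit false
set_option linter.unusedSectionVars false

namespace Pool.Agent.H26.PD.PS

open Pool.Agent.Helper386.PD3 Pool.Agent.H26.PD.PN Pool.Agent.H26.PD.PK
open scoped Classical Matrix

noncomputable section

variable {G : Type} [Group G] {S T U : Subgroup G} {n m : ℕ} {w : G →* ℤˣ}
  {e0 e1 e2 e3 d0 d1 d2 : MR G n}

/-- the restriction of a linear map -/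
def Triv {A : Type} [Group A] {m : ℕ} (k : Fin m → A) : Prop :=
  ∀ φ : LinearMap.ker (bd k) →ₗ[RR A] RR A,
    ∃ c : Fin m → RR A, ∀ x : LinearMap.ker (bd k), φ x = ∑ b, x.1 b * c b

theorem ds_of_triv {A : Type} [Group A] {m : ℕ} {w : A →* ℤˣ} {k : Fin m → A} (h : Triv k)
    (q : DS w k) : q = 0 := by
  obtain ⟨φ, rfl⟩ := dm_surj w k q
  obtain ⟨c, hc⟩ := h φ.toLin
  rw [dm_eq_zero]
  refine ⟨fun b => dg w (c b), KD.ext fun x => ?_⟩
  rw [iot_toLin, hc]
  exact Finset.sum_congr rfl fun b _ => by rw [dg_dg]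

/-- Alexander duality for a finitely generated subgroup -/
theorem getAD (hF : Full w e0 e1 e2 e3 d0 d1 d2)
    (hex2 : ∀ v, v ᵥ* e2 = v → v ᵥ* d1 = 0 → ∃ u, u ᵥ* d2 = v)
    (hex1 : ∀ v, v ᵥ* dgM w e1 = v → v ᵥ* dgM w d1 = 0 → ∃ u, u ᵥ* dgM w d0 = v)
    [Group.FG G] [Infinite (G ⧸ T)] (h : Fin m → T) (hgen : Subgroup.closure (Set.range h) = ⊤)
    (hfin : Module.Finite (RR T) (LinearMap.ker (bd h))) :
    Nonempty (DB h) ∧ ∃ f : G → DS (wS w T) h, AD T (DS (wS w T) h) f := by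
  have hproj := projective_ker hF hex2 h hgen
  refine ⟨exists_DB h hfin hproj, ?_⟩
  obtain ⟨C⟩ := exists_cmp hF h hgen hfin hproj
  obtain ⟨f, h1, h2, h3, h4⟩ := alexander hF hex1 C
  refine ⟨f, ⟨h1, h2, ?_, ?_⟩⟩
  · intro V _ F hFa
    obtain ⟨l, v, hlv⟩ := h3 F hFa
    refine ⟨l, v, (mem_IV_iff.1 hlv).mono ?_⟩
    intro x hx h5
    apply hx
    rw [sub_sub, sub_eq_zero] at h5
    exact h5
  · intro V _ l v hlv
    refine h4 l v (mem_IV_iff.2 (hlv.mono ?_))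
    intro x hx h5
    apply hx
    exact sub_eq_zero.2 h5

theorem infinite_quot (hTS : T ≤ S) [Infinite (G ⧸ S)] : Infinite (G ⧸ T) :=
  Infinite.of_surjective (Subgroup.quotientMapOfLE hTS) (by
    intro q
    obtain ⟨g, rfl⟩ := QuotientGroup.mk_surjective q
    exact ⟨(g : G ⧸ T), rfl⟩)

/-- the duality module of a group with an atom does not vanish -/
theorem not_triv {A : Type} [Group A] {m : ℕ} {wA : A →* ℤˣ} {k : Fin m → A}
    [Module (RR T) (DS wA k)] {f : G → DS wA k} (hA : AD T (DS wA k) f)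
    {X : Set G} (hX : At T X) : ¬ Triv k := by
  intro h
  obtain ⟨l, v, hlv⟩ := hA.ex _ hX.ai
  have h0 : ∀ q, l q = 0 := fun q => by rw [ds_of_triv h q, map_zero]
  by_cases hv : v = 0
  · apply hX.inf
    refine hlv.mono ?_
    intro x hx h1
    rw [h0, hv, add_zero] at h1
    have h2 : ind X x = 1 := if_pos hx
    rw [h2] at h1
    exact zero_ne_one h1
  · apply hX.coinf
    refine hlv.mono ?_
    intro x hx h1
    rw [h0] at h1
    have h2 : ind X x = 0 := if_neg hx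
    rw [h2, zero_add] at h1
    exact hv h1.symm

/-- the left ideal of a subgroup as the image of the boundary map -/
theorem range_bd (hUT : U ≤ T) {k : Fin m → U} (hk : Subgroup.closure (Set.range k) = ⊤) :
    LinearMap.range (bd fun b => Subgroup.inclusion hUT (k b)) = JI T U := by
  apply le_antisymm
  · rintro _ ⟨y, rfl⟩
    rw [bd_apply]
    refine Submodule.sum_mem _ fun b _ => ?_
    rw [← smul_eq_mul]
    exact Submodule.smul_mem _ _ (Submodule.subset_span ⟨_, (k b).2, rfl⟩)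
  · change Submodule.span _ _ ≤ _
    rw [Submodule.span_le]
    rintro _ ⟨u, hu, rfl⟩
    obtain ⟨z, hz⟩ := bd_surj' k hk (r := gof (⟨u, hu⟩ : U) - 1) (by
      rw [map_sub, eps_of, map_one, sub_self])
    refine ⟨vmap (pf (Subgroup.inclusion hUT)) z, ?_⟩
    have h1 : bd (fun b => Subgroup.inclusion hUT (k b)) (vmap (pf (Subgroup.inclusion hUT)) z) =
        pf (Subgroup.inclusion hUT) (bd k z) := by
      rw [bd_apply, bd_apply, map_sum]
      refine Finset.sum_congr rfl fun b _ => ?_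
      rw [map_mul, map_sub, pf_of, map_one]
      rfl
    rw [h1, hz, map_sub, pf_of, map_one]
    rfl

variable {T0 : Finset G}

/-- **The next subgroup.** -/
theorem next (hT0 : Subgroup.closure (T0 : Set G) = ⊤) {X : Set G} (hX : At T X)
    (h : Fin m → T) (hgen : Subgroup.closure (Set.range h) = ⊤) (B : DB h)
    {f : G → DS (wS w T) h} (hA : AD T (DS (wS w T) h) f) :
    ∃ (U : Subgroup G) (Y : Set G), U ≤ T ∧ U.FG ∧ At U Y ∧
      ∃ (a : PM T U →ₗ[RR T] DS (wS w T) h) (b : DS (wS w T) h →ₗ[RR T] PM T U),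
        ∀ q, b (a q) = q := by
  obtain ⟨Φ, hΦ⟩ := exists_adm hA.inv T0
  obtain ⟨x, hx, hXx⟩ := exists_cl_disj hT0 hΦ hX hA
  have hx' : ¬ SF T (cl T T0 Φ x)ᶜ := by
    intro h1
    apply hX.inf
    refine (h1.union hXx).mono ?_
    intro y hy
    by_cases h2 : y ∈ cl T T0 Φ x
    · exact Or.inr ⟨hy, h2⟩
    · exact Or.inl h2
  exact ⟨st T T0 Φ x, cl T T0 Φ x, st_le x, st_fg hA hT0 hΦ (ds_fp B) h hgen hx,
    at_cl hA hT0 hΦ hx hx', exists_retract' hA hT0 hΦ hX hx hXx⟩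

/-- **Surface subgroups**, with finite generation. -/
theorem exists_pd2_fg (hF : Full w e0 e1 e2 e3 d0 d1 d2)
    (hex2 : ∀ v, v ᵥ* e2 = v → v ᵥ* d1 = 0 → ∃ u, u ᵥ* d2 = v)
    (hex1 : ∀ v, v ᵥ* dgM w e1 = v → v ᵥ* dgM w d1 = 0 → ∃ u, u ᵥ* dgM w d0 = v)
    [hG : Group.FG G] [Infinite (G ⧸ S)] (hinf : ∀ g : G, g ≠ 1 → ∀ k : ℕ, 0 < k → g ^ k ≠ 1)
    (hcoh : ∀ T : Subgroup G, T ≤ S → T.FG → ∀ (m : ℕ) (h : Fin m → T),
      Subgroup.closure (Set.range h) = ⊤ → Module.Finite (RR T) (LinearMap.ker (bd h)))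
    (h : Fin m → S) (hgen : Subgroup.closure (Set.range h) = ⊤) (hS : ¬ Triv h) :
    ∃ U : Subgroup G, U ≤ S ∧ U.FG ∧ (∃ Y : Set G, At U Y) ∧ PD2 U := by
  obtain ⟨T0, hT0⟩ := hG.out
  have hSfg : S.FG := by
    rw [← Group.fg_iff_subgroup_fg]
    exact Group.fg_iff.2 ⟨Set.range h, hgen, Set.finite_range h⟩
  -- the first subgroup
  have hfirst : ∃ (T : Subgroup G) (X : Set G), T ≤ S ∧ T.FG ∧ At T X := by
    obtain ⟨⟨B⟩, f, hA⟩ := getAD hF hex2 hex1 h hgen (hcoh S le_rfl hSfg m h hgen)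
    obtain ⟨Φ, hΦ⟩ := exists_adm hA.inv T0
    have hD : ∃ d : DS (wS w S) h, d ≠ 0 := by
      by_contra h1
      push Not at h1
      apply hS
      intro φ
      have h2 := h1 (dm (wS w S) h (KD.of _ h φ))
      rw [dm_eq_zero] at h2
      obtain ⟨y, hy⟩ := h2
      refine ⟨fun b => dg (wS w S) (y b), fun x => ?_⟩
      have h3 : (iot (wS w S) h y).toLin x = φ x := by rw [hy]; rfl
      rw [← h3, iot_toLin]
    obtain ⟨x, hx, hx'⟩ := exists_cl hA hT0 hΦ hD
    exact ⟨_, _, st_le x, st_fg hA hT0 hΦ (ds_fp B) h hgen hx, at_cl hA hT0 hΦ hx hx'⟩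
  obtain ⟨T, X, hTS, hTfg, hX⟩ := hfirst
  have : Infinite (G ⧸ T) := infinite_quot hTS
  obtain ⟨mT, hT, hTgen⟩ := exists_gens (H := T) ((Group.fg_iff_subgroup_fg T).2 hTfg)
  obtain ⟨⟨BT⟩, fT, hAT⟩ := getAD hF hex2 hex1 hT hTgen (hcoh T hTS hTfg mT hT hTgen)
  -- the second subgroup
  obtain ⟨U, Y, hUT, hUfg, hY, a, b, hab⟩ := next hT0 hX hT hTgen BT hAT
  have : Infinite (G ⧸ U) := infinite_quot hUT
  obtain ⟨mU, hU, hUgen⟩ := exists_gens (H := U) ((Group.fg_iff_subgroup_fg U).2 hUfg)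
  have hUfin := hcoh U (hUT.trans hTS) hUfg mU hU hUgen
  obtain ⟨⟨BU⟩, fU, hAU⟩ := getAD hF hex2 hex1 hU hUgen hUfin
  have hOE : OEd hU := oed_of_retract (Subgroup.inclusion_injective hUT) BT
    (range_bd hUT hUgen) a b hab
  -- the third subgroup
  obtain ⟨V, Z, hVU, hVfg, hZ, a', b', hab'⟩ := next hT0 hY hU hUgen BU hAU
  have : Infinite (G ⧸ V) := infinite_quot hVU
  obtain ⟨mV, hV, hVgen⟩ := exists_gens (H := V) ((Group.fg_iff_subgroup_fg V).2 hVfg)
  obtain ⟨⟨BV⟩, fV, hAV⟩ := getAD hF hex2 hex1 hV hVgen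
    (hcoh V ((hVU.trans hUT).trans hTS) hVfg mV hV hVgen)
  have hVne : ¬ Triv hV := not_triv hAV hZ
  have hVU' : U ≤ V := by
    intro g hg
    by_contra hgV
    apply hVne
    intro φ
    refine triv_of_retract (Subgroup.inclusion_injective hVU) BV hUgen hOE BU
      (range_bd hVU hVgen) a' b' hab' (g := ⟨g, hg⟩) ?_ φ
    rintro ⟨v, hv⟩
    apply hgV
    have h1 := congrArg Subtype.val hv
    change (v : G) = g at h1
    rw [← h1]
    exact v.2
  obtain rfl : V = U := le_antisymm hVU hVU'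
  have hJ : LinearMap.range (bd hU) = JI V V := by
    have h1 := range_bd (le_refl V) hUgen
    exact h1
  obtain ⟨L, hL⟩ := cyclic_of_retract hUgen hOE BU hJ a' b' hab'
  have hUne : ¬ Triv hU := not_triv hAU hY
  refine ⟨V, hUT.trans hTS, hUfg, ⟨Y, hY⟩,
    pd2_of ?_ hU hUgen hUfin (projective_ker hF hex2 hU hUgen) hOE L hL ?_⟩
  · -- the group is infinite
    by_contra hfin
    rw [not_infinite_iff_finite] at hfin
    have h1 : V = ⊥ := by
      rw [Subgroup.eq_bot_iff_forall]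
      intro g hg
      by_contra hne
      have h2 : IsOfFinOrder (⟨g, hg⟩ : V) := isOfFinOrder_of_finite _
      obtain ⟨k, hk, hgk⟩ := isOfFinOrder_iff_pow_eq_one.1 h2
      exact hinf g hne k hk (congrArg Subtype.val hgk)
    apply hUne
    intro φ
    have h3 : ∀ b, hU b = 1 := by
      intro b
      apply Subtype.ext
      exact (Subgroup.eq_bot_iff_forall V).1 h1 _ (hU b).2
    have h4 : ∀ x, bd hU x = 0 := by
      intro x
      rw [bd_apply]
      exact Finset.sum_eq_zero fun b _ => by rw [h3, gof_one, sub_self, mul_zero]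
    refine ⟨fun b => φ ⟨Pi.single b 1, h4 _⟩, fun x => ?_⟩
    have h5 : x = ∑ b, x.1 b • (⟨Pi.single b 1, h4 _⟩ : LinearMap.ker (bd hU)) := by
      apply Subtype.ext
      rw [Submodule.coe_sum]
      funext c
      rw [Finset.sum_apply, Finset.sum_eq_single c]
      · change _ = x.1 c * (Pi.single c (1 : RR V) : Fin mU → RR V) c
        rw [Pi.single_eq_same, mul_one]
      · intro b _ hb
        change x.1 b * (Pi.single b (1 : RR V) : Fin mU → RR V) c = 0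
        rw [Pi.single_eq_of_ne (Ne.symm hb), mul_zero]
      · intro h
        exact absurd (Finset.mem_univ c) h
    conv_lhs => rw [h5, map_sum]
    exact Finset.sum_congr rfl fun b _ => by rw [map_smul, smul_eq_mul]
  · unfold Triv at hUne
    push Not at hUne ⊢
    exact hUne

/-- **Surface subgroups.** -/
theorem exists_pd2 (hF : Full w e0 e1 e2 e3 d0 d1 d2)
    (hex2 : ∀ v, v ᵥ* e2 = v → v ᵥ* d1 = 0 → ∃ u, u ᵥ* d2 = v)
    (hex1 : ∀ v, v ᵥ* dgM w e1 = v → v ᵥ* dgM w d1 = 0 → ∃ u, u ᵥ* dgM w d0 = v)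
    [hG : Group.FG G] [Infinite (G ⧸ S)] (hinf : ∀ g : G, g ≠ 1 → ∀ k : ℕ, 0 < k → g ^ k ≠ 1)
    (hcoh : ∀ T : Subgroup G, T ≤ S → T.FG → ∀ (m : ℕ) (h : Fin m → T),
      Subgroup.closure (Set.range h) = ⊤ → Module.Finite (RR T) (LinearMap.ker (bd h)))
    (h : Fin m → S) (hgen : Subgroup.closure (Set.range h) = ⊤) (hS : ¬ Triv h) :
    ∃ U : Subgroup G, U ≤ S ∧ PD2 U := by
  obtain ⟨U, hU, -, -, hPD⟩ := exists_pd2_fg hF hex2 hex1 hinf hcoh h hgen hS
  exact ⟨U, hU, hPD⟩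

end

end Pool.Agent.H26.PD.PS
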