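import Pool.Agent.H26.PK.Main
import Pool.Agent.H26.PS.FullY

/-!
Functions with support finite modulo a subgroup, as sums of additive functions of elements of the
group ring.
-/

set_option autoImplicit false
set_option linter.unusedSectionVars false

namespace Pool.Agent.H26.PD.PS

open Pool.Agent.Helper386.PD3 Pool.Agent.H26.PD.PN Pool.Agent.H26.PD.PK
open scoped Classical Matrix

noncomputable section

variable {G : Type} [Group G] {S : Subgroup G} {n m : ℕ} {w : G →* ℤˣ} {V : Type} [AddCommGroup V]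

/-- functions with finite support modulo `S` -/
def IV (S : Subgroup G) (V : Type) [AddCommGroup V] : Submodule ℤ (G → V) where
  carrier := {f | ∃ F : Set (G ⧸ S), F.Finite ∧ ∀ x, f x ≠ 0 → qS S x ∈ F}
  add_mem' := by
    rintro f f' ⟨F, hF, h2⟩ ⟨F', hF', h2'⟩
    refine ⟨F ∪ F', hF.union hF', fun x hx => ?_⟩
    by_contra h
    rw [Set.mem_union, not_or] at h
    apply hx
    rw [Pi.add_apply, not_not.1 fun h3 => h.1 (h2 x h3), not_not.1 fun h3 => h.2 (h2' x h3),
      add_zero]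
  zero_mem' := ⟨∅, Set.finite_empty, fun x hx => absurd rfl hx⟩
  smul_mem' := by
    rintro k f ⟨F, hF, h2⟩
    refine ⟨F, hF, fun x hx => h2 x fun h3 => hx ?_⟩
    rw [Pi.smul_apply, h3, smul_zero]

theorem mem_IV {f : G → V} :
    f ∈ IV S V ↔ ∃ F : Set (G ⧸ S), F.Finite ∧ ∀ x, f x ≠ 0 → qS S x ∈ F := Iff.rfl

theorem stable_IV : Stable (IV S V) := by
  rintro g f ⟨F, hF, h2⟩
  refine ⟨(fun q => g • q) '' F, hF.image _, fun x hx => ?_⟩
  refine ⟨_, h2 (x * g) hx, ?_⟩
  change (((g * (x * g)⁻¹ : G)) : G ⧸ S) = ((x⁻¹ : G) : G ⧸ S)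
  congr 1
  group

theorem u1_mul_gof (r : RR G) (x : G) (s : S) :
    u1 w S r x * gof s = ((w (s⁻¹ : S) : ℤˣ) : ℤ) • u1 w S r (((s⁻¹ : S) : G) * x) := by
  rw [u1_equiv (s⁻¹ : S).2]
  have h1 : (⟨((s⁻¹ : S) : G), (s⁻¹ : S).2⟩ : S) = s⁻¹ := rfl
  rw [h1, dg_of, inv_inv, mul_smul_comm, smul_smul]
  have h2 : ((w.comp S.subtype) s⁻¹ : ℤˣ) = w ((s⁻¹ : S) : G) := rfl
  rw [h2, ← Units.val_mul, ← sq, Int.units_sq, Units.val_one, one_smul]

/-- multiplication of the vanishing relation -/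
theorem ten_mul {ι : Type} [Fintype ι] {a : ι → (RR S →+ V)} {y : ι → RR G}
    (h0 : ∀ x, ∑ k, a k (u1 w S (y k) x) = 0) (x : G) (r : RR S) :
    ∑ k, a k (u1 w S (y k) x * r) = 0 := by
  induction r using rr_ind with
  | h1 s =>
    have h1 : ∀ k, a k (u1 w S (y k) x * gof s) =
        ((w (s⁻¹ : S) : ℤˣ) : ℤ) • a k (u1 w S (y k) (((s⁻¹ : S) : G) * x)) := fun k => by
      rw [u1_mul_gof, map_zsmul]
    rw [Finset.sum_congr rfl fun k _ => h1 k, ← Finset.smul_sum, h0, smul_zero]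
  | h2 x y hx hy =>
    simp only [mul_add, map_add, Finset.sum_add_distrib, hx, hy, add_zero]
  | h3 x hx =>
    simp only [mul_neg, map_neg, Finset.sum_neg_distrib, hx, neg_zero]

/-- **Injectivity.** -/
theorem ten_inj {ι : Type} [Fintype ι] {a : ι → (RR S →+ V)}
    {y : ι → (Fin n → RR G)} (h0 : ∀ j x, ∑ k, a k (u1 w S (y k j) x) = 0)
    {ψ : (Fin n → RR G) →+ RR S} (hψ : ∀ (r : RR S) v, ψ (inc S r • v) = r • ψ v) :
    ∑ k, a k (ψ (y k)) = 0 := by
  choose F hF using fun (k : ι) (j : Fin n) => exists_right S (y k j)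
  let F0 : Finset (G ⧸ S) := Finset.univ.biUnion fun k => Finset.univ.biUnion fun j => F k j
  have hF0 : ∀ k j, F k j ⊆ F0 := by
    intro k j q hq
    exact Finset.mem_biUnion.2 ⟨k, Finset.mem_univ _, Finset.mem_biUnion.2 ⟨j, Finset.mem_univ _, hq⟩⟩
  have hy : ∀ k, y k = ∑ j, ∑ q ∈ F0, inc S (prH S (y k j * gof q.out)) •
      (gof (q.out)⁻¹ • (Pi.single j 1 : Fin n → RR G)) := by
    intro k
    funext j
    rw [Finset.sum_apply, Finset.sum_eq_single j]
    · rw [Finset.sum_apply]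
      conv_lhs => rw [← hF k j F0 (hF0 k j)]
      exact Finset.sum_congr rfl fun q _ => by
        rw [Pi.smul_apply, Pi.smul_apply, Pi.single_eq_same, smul_eq_mul, smul_eq_mul, mul_one]
    · intro j' _ hj'
      rw [Finset.sum_apply]
      exact Finset.sum_eq_zero fun q _ => by
        rw [Pi.smul_apply, Pi.smul_apply, Pi.single_eq_of_ne (Ne.symm hj'), smul_zero, smul_zero]
    · intro h
      exact absurd (Finset.mem_univ j) h
  have h1 : ∀ k, a k (ψ (y k)) = ∑ j, ∑ q ∈ F0,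
      ((w (q.out)⁻¹ : ℤˣ) : ℤ) • (a k (u1 w S (y k j) (q.out)⁻¹ *
        (ψ (gof (q.out)⁻¹ • (Pi.single j 1 : Fin n → RR G))))) := by
    intro k
    conv_lhs => rw [hy k]
    rw [map_sum, map_sum]
    refine Finset.sum_congr rfl fun j _ => ?_
    rw [map_sum, map_sum]
    refine Finset.sum_congr rfl fun q _ => ?_
    rw [hψ, smul_eq_mul, prH_out (w := w), smul_mul_assoc, map_zsmul]
  rw [Finset.sum_congr rfl fun k _ => h1 k, Finset.sum_comm]
  refine Finset.sum_eq_zero fun j _ => ?_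
  rw [Finset.sum_comm]
  refine Finset.sum_eq_zero fun q _ => ?_
  rw [← Finset.smul_sum, ten_mul (h0 j), smul_zero]

/-- the additive function with given values on the group elements -/
def af (S : Subgroup G) (b : S → V) : RR S →+ V where
  toFun r := rho V r b 1
  map_zero' := by rw [map_zero]; rfl
  map_add' r r' := by rw [map_add]; rfl

theorem af_gof (b : S → V) (s : S) : af S b (gof s) = b s := by
  change rho V (gof s) b 1 = b s
  rw [rho_of_apply, one_mul]

/-- **Surjectivity.** -/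
theorem exists_ten (w : G →* ℤˣ) {β : Fin n → (G → V)} (hβ : ∀ j, β j ∈ IV S V) :
    ∃ (ι : Type) (_ : Fintype ι) (a : ι → (RR S →+ V)) (z : ι → (Fin n → RR G)),
      ∀ j x, β j x = ∑ k, a k (u1 w S (z k j) x) := by
  choose F hF h2 using hβ
  let F0 : Finset (G ⧸ S) := Finset.univ.biUnion fun j => (hF j).toFinset
  have hF0 : ∀ j x, β j x ≠ 0 → qS S x ∈ F0 := by
    intro j x hx
    exact Finset.mem_biUnion.2 ⟨j, Finset.mem_univ _, (hF j).mem_toFinset.2 (h2 j x hx)⟩
  refine ⟨Fin n × F0, inferInstance,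
    fun k => af S fun s => ((w (k.2.1.out)⁻¹ : ℤˣ) : ℤ) •
      (((w s : ℤˣ) : ℤ) • β k.1 (((s⁻¹ : S) : G) * (k.2.1.out)⁻¹)),
    fun k => gof (k.2.1.out)⁻¹ • (Pi.single k.1 1 : Fin n → RR G), fun j x => ?_⟩
  have hcomp : ∀ (q : G ⧸ S) (j : Fin n), q ≠ qS S x →
      u1 w S ((gof (q.out)⁻¹ • (Pi.single j 1 : Fin n → RR G)) j) x = 0 := by
    intro q j hq
    rw [Pi.smul_apply, Pi.single_eq_same, smul_eq_mul, mul_one]
    unfold u1
    rw [dg_of, mul_smul_comm, ← gof_mul, map_zsmul, prH_gof_notMem S, smul_zero]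
    intro h
    apply hq
    rw [← qS_out q, qS_eq]
    refine ⟨x * q.out, ?_, by group⟩
    have := S.inv_mem h
    rwa [mul_inv_rev, inv_inv, inv_inv] at this
  rw [Fintype.sum_prod_type, Finset.sum_eq_single j]
  · by_cases hx : qS S x ∈ F0
    · rw [Finset.sum_eq_single (⟨qS S x, hx⟩ : F0)]
      · obtain ⟨s, hs, hsx⟩ := qS_eq.1 (qS_out (qS S x))
        have h3 : u1 w S ((gof ((qS S x).out)⁻¹ • (Pi.single j 1 : Fin n → RR G)) j) x =
            ((w ((qS S x).out)⁻¹ : ℤˣ) : ℤ) • dg (w.comp S.subtype) (gof ⟨s, hs⟩) := by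
          rw [Pi.smul_apply, Pi.single_eq_same, smul_eq_mul, mul_one]
          have h4 := u1_gof_self (w := w) hs ((qS S x).out)⁻¹
          rwa [← hsx] at h4
        change _ = af S _ (u1 w S ((gof ((qS S x).out)⁻¹ •
          (Pi.single j 1 : Fin n → RR G)) j) x)
        rw [h3, dg_of, map_zsmul, map_zsmul, af_gof, inv_inv]
        have h5 : ((w.comp S.subtype) (⟨s, hs⟩ : S) : ℤˣ) = w s := rfl
        have h6 : w (((⟨s, hs⟩ : S)⁻¹ : S) : G) = w s := by
          change w s⁻¹ = w s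
          rw [map_inv, Int.units_inv_eq_self]
        have h7 : ∀ (u : ℤˣ) (v : V), (u : ℤ) • ((u : ℤ) • v) = v := fun u v => by
          rw [smul_smul, ← Units.val_mul, ← sq, Int.units_sq, Units.val_one, one_smul]
        rw [h5, h6, smul_comm ((w s : ℤˣ) : ℤ), h7, h7]
        change β j x = β j (s * ((qS S x).out)⁻¹)
        rw [← hsx]
      · rintro ⟨q, hq⟩ _ hne
        change af S _ (u1 w S ((gof (q.out)⁻¹ • (Pi.single j 1 : Fin n → RR G)) j) x) = 0
        rw [hcomp q j (fun h => hne (Subtype.ext h)), map_zero]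
      · intro h
        exact absurd (Finset.mem_univ _) h
    · have h3 : β j x = 0 := not_not.1 fun h => hx (hF0 j x h)
      rw [h3, eq_comm]
      refine Finset.sum_eq_zero fun q _ => ?_
      change af S _ (u1 w S ((gof (q.1.out)⁻¹ • (Pi.single j 1 : Fin n → RR G)) j) x) = 0
      rw [hcomp q.1 j (fun h => hx (h ▸ q.2)), map_zero]
  · intro j' _ hj'
    refine Finset.sum_eq_zero fun q _ => ?_
    have h3 : u1 w S ((gof (q.1.out)⁻¹ • (Pi.single j' 1 : Fin n → RR G)) j) x = 0 := by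
      rw [Pi.smul_apply, Pi.single_eq_of_ne (Ne.symm hj'), smul_zero]
      unfold u1
      rw [zero_mul, map_zero]
    change af S _ (u1 w S ((gof (q.1.out)⁻¹ • (Pi.single j' 1 : Fin n → RR G)) j) x) = 0
    rw [h3, map_zero]
  · intro h
    exact absurd (Finset.mem_univ j) h

theorem u1_mem_IV (a : RR S →+ V) (r : RR G) : (fun x => a (u1 w S r x)) ∈ IV S V := by
  obtain ⟨F, hF, h⟩ := u1_supp (w := w) (S := S) r
  exact ⟨F, hF, fun x hx => h x fun h0 => hx (by simp only [h0, map_zero])⟩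

end

end Pool.Agent.H26.PD.PS
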